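import Pool.Agent.W2helper42.HL.Pts

/-!
Project HL: the theorem with atypical points.
-/

set_option autoImplicit false

namespace Pool.Agent.W2helper42.HL

open UpperHalfPlane H294ZP MvPolynomial

/-- The Zilber-Pink conjecture for points of `V`: only finitely many points are maximal atypical
subvarieties of `V`. -/
def ZilberPinkPoints {ι : Type} (V : Set (ι → ℂ)) : Prop :=
  {x : ι → ℂ | Atypical V {x} ∧ ∀ B, Atypical V B → {x} ⊆ B → {x} = B}.Finite

theorem zpPoints_of_zp {ι : Type} {V : Set (ι → ℂ)} (h : ZilberPink V) : ZilberPinkPoints V := by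
  have h1 := h.preimage (f := fun x : ι → ℂ => ({x} : Set (ι → ℂ)))
    (Set.singleton_injective.injOn)
  exact h1

/-- the theorem -/
theorem quads_points (hSP : N_SP) (hSC : N_SC) (hEXT : N_EXT) (hCH : N_CH) :
    List.TFAE [
      ∀ (ι : Type) [Finite ι] (V : Set (ι → ℂ)), Irr V → ZilberPink V,
      ∀ (ι : Type) [Finite ι] (E : Finset (ι × ι × ι × ι)),
        ZilberPink {x : ι → ℂ | ∀ e ∈ E, x e.1 + x e.2.1 = x e.2.2.1 + x e.2.2.2},
      ∀ (ι : Type) [Finite ι] (E : Finset (ι × ι × ι × ι)) (B : Finset ι) (c : ι → ℂ),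
        AlgebraicIndependent ℚ (fun s : B => c s) →
        ZilberPinkPoints {x : ι → ℂ | (∀ e ∈ E, x e.1 + x e.2.1 = x e.2.2.1 + x e.2.2.2) ∧
          ∀ s ∈ B, x s = c s},
      ∀ (ι : Type) [Finite ι] (F : Set (MvPolynomial ι ℂ)) (d : ℕ),
        FiniteDefect {x : ι → ℂ | ∀ f ∈ F, eval x f = 0} d] := by
  classical
  have hI := a_irr'
  have hD := a_def'
  have h0 := quads hSP hSC hEXT hCH
  tfae_have 1 ↔ 2 := h0.out 0 1
  tfae_have 1 ↔ 4 := h0.out 0 2
  tfae_have 1 → 3 := by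
    intro h ι _ E B c _
    have h1 : {x : ι → ℂ | (∀ e ∈ E, x e.1 + x e.2.1 = x e.2.2.1 + x e.2.2.2) ∧
        ∀ s ∈ B, x s = c s} = QB E.toList B c := by
      ext x
      simp [QB, QSet]
    rw [h1]
    obtain ⟨L, hL, hE⟩ := qb_eqs E.toList B c
    rw [hE]
    rcases Set.eq_empty_or_nonempty {x : ι → ℂ | ∀ i, eval x (L i) = 0} with h2 | ⟨a, ha⟩
    · rw [h2]
      refine Set.Finite.subset Set.finite_empty ?_
      rintro x ⟨⟨S, hS, hA, hlt⟩, -⟩
      have h3 : x ∈ (∅ : Set (ι → ℂ)) ∩ S := hA.2.1 rfl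
      exact h3.1
    · exact zpPoints_of_zp (h ι _ (irr_linear hL ha))
  tfae_have 3 → 4 := by
    intro h ι _ F d
    obtain ⟨J, f, hf⟩ := exists_eqs F
    rw [hf]
    refine finite_of_ev af hI hD sf (evC_of_eqs f) (fd_all ?_ ι f d)
    intro κ _ m C hC
    refine lin_of_quad hSP hSC hEXT hCH ?_ κ m C hC
    intro κ' _ E
    obtain ⟨L, hL, hE⟩ := linear_qset E
    have hev : EvC (QSet E) := by
      rw [hE]
      exact evC_of_eqs L
    refine ev_of_finite af hI hD sf hev (fd_of_pts ?_ κ' E)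
    intro κ'' _ E' B c hc
    have h2 := h κ'' E'.toFinset B c hc
    have h1 : {x : κ'' → ℂ | (∀ e ∈ E'.toFinset, x e.1 + x e.2.1 = x e.2.2.1 + x e.2.2.2) ∧
        ∀ s ∈ B, x s = c s} = QB E' B c := by
      ext x
      simp [QB, QSet]
    rw [h1] at h2
    refine (h2.image fun x : κ'' → ℂ => ({x} : Set (κ'' → ℂ))).subset ?_
    rintro A ⟨hA, x, rfl⟩
    exact ⟨x, hA, rfl⟩
  tfae_finish

end Pool.Agent.W2helper42.HL
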