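import Pool.Agent.W2helper42.HL.Base

/-!
Project HL: the general reduction.
-/

set_option autoImplicit false

namespace Pool.Agent.W2helper42.HL

open UpperHalfPlane H294ZP MvPolynomial

/-- iterated minimal primes -/
def itm {ι : Type} {K : Subfield ℂ} : List (MvPolynomial ι K) → Ideal (MvPolynomial ι K) →
    Set (Ideal (MvPolynomial ι K))
  | [], p => {p}
  | f :: l, p => ⋃ q ∈ (p ⊔ Ideal.span {f}).minimalPrimes, itm l q

theorem itm_finite {ι : Type} [Finite ι] {K : Subfield ℂ} (l : List (MvPolynomial ι K)) :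
    ∀ p, (itm l p).Finite := by
  induction l with
  | nil => intro p; exact Set.finite_singleton p
  | cons f l ih =>
    intro p
    exact Set.Finite.biUnion (Ideal.finite_minimalPrimes_of_isNoetherianRing _ _) fun q _ => ih q

theorem td_le_card (hA : AF) {ι : Type} [Finite ι] {K : Subfield ℂ} (hK : Gd K) (x : ι → ℂ) :
    td K x ≤ Nat.card ι := by
  obtain ⟨y, hy, hy'⟩ := hA.2.2.1 ι K hK
  rw [← hy]
  exact (hA.1 ι K y x (hy' x)).1

/-- above every point of small defect there is a maximal one -/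
theorem exists_mx (hA : AF) {ι : Type} [Finite ι] {K : Subfield ℂ} (hK : Gd K)
    {C : Set (ι → ℂ)} {k : ℕ} {a : ι → ℂ} (ha : Dk K C k a) : ∃ b, Mx K C k b ∧ Sp K b a := by
  obtain ⟨b, hb, hmax⟩ := (measure fun b : ι → ℂ => Nat.card ι - td K b).wf.has_min
    {b | Dk K C k b ∧ Sp K b a} ⟨a, ha, Sp.refl a⟩
  refine ⟨b, ⟨hb.1, fun y hy hyb => ?_⟩, hb.2⟩
  have h1 := hmax y ⟨hy, hyb.trans hb.2⟩
  have h2 : ¬ (Nat.card ι - td K y < Nat.card ι - td K b) := h1
  have h3 := td_le_card hA hK y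
  have h4 := td_le_card hA hK b
  exact (hA.1 ι K y b hyb).2 (by omega)

/-- the descent along the equations -/
theorem descent (hJ : JF) (hA : AF) (hS : SF) {ι : Type} [Finite ι] {K : Subfield ℂ} (hK : Gd K)
    (a : ι → ℂ) (l : List (MvPolynomial ι K)) :
    (∀ f ∈ l, ∃ i j, (∀ z : ι → ℂ, aeval z f = 0 ↔ Cyc 2 (z i) (z j)) ∧ Cyc 2 (a i) (a j) ∧
      ¬ SpecialPoint (a i)) →
    ∀ b, Sp K b a → ∃ b', Sp K b b' ∧ Sp K b' a ∧ vI K b' ∈ itm l (vI K b) ∧
      (∀ f ∈ l, aeval b' f = 0) ∧ td K b + sd b' ≤ td K b' + sd b := by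
  induction l with
  | nil =>
    intro _ b hb
    exact ⟨b, Sp.refl b, hb, rfl, by simp, le_rfl⟩
  | cons f l ih =>
    intro hl b hb
    have hl' : ∀ f ∈ l, _ := fun f hf => hl f (List.mem_cons_of_mem _ hf)
    by_cases hf : aeval b f = 0
    · obtain ⟨b', h1, h2, h3, h4, h5⟩ := ih hl' b hb
      refine ⟨b', h1, h2, ?_, ?_, h5⟩
      · have h6 : vI K b ⊔ Ideal.span {f} = vI K b := by
          rw [sup_eq_left, Ideal.span_le, Set.singleton_subset_iff]
          exact hf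
        have h7 : vI K b ∈ (vI K b ⊔ Ideal.span {f}).minimalPrimes := by
          rw [h6, Ideal.minimalPrimes_eq_subsingleton_self]
          rfl
        exact Set.mem_biUnion h7 h3
      · intro g hg
        rcases List.mem_cons.1 hg with rfl | hg
        · exact h1 _ hf
        · exact h4 g hg
    · obtain ⟨i, j, hij, hc, hns⟩ := hl f List.mem_cons_self
      obtain ⟨b₁, h1, h2, h3, h4, h5⟩ := hA.2.1 ι K hK b a f hb hf ((hij a).2 hc)
      obtain ⟨b', g1, g2, g3, g4, g5⟩ := ih hl' b₁ h2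
      refine ⟨b', h1.trans g1, g2, Set.mem_biUnion h5 g3, ?_, ?_⟩
      · intro g hg
        rcases List.mem_cons.1 hg with rfl | hg
        · exact g1 _ h3
        · exact g4 g hg
      · have h6 : sd b₁ + 1 ≤ sd b := by
          refine (hS.2.1 ι K hK b b₁ h1).2 i j ?_ ⟨2, by norm_num, (hij b₁).1 h3⟩ ?_
          · intro hsp
            apply hns
            rw [(hS.2.2.1 ι K hK b₁ a h2).2 i hsp]
            exact hsp
          · rintro ⟨M, hM, hcM⟩
            have h7 := (hS.2.2.1 ι K hK b a hb).1 i j M hM hcM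
            have h8 := hJ.2.1.2.2.2.1 M 2 _ _ hM (by norm_num) hns h7 hc
            rw [h8] at hcM
            exact hf ((hij b).2 hcM)
        omega

theorem r_main (hJ : JF) (hA : AF) (hS : SF) : R_MAIN := by
  classical
  intro ι ω ρ _ _ _ C C' k k' e c E Q S hSc hke hcov hE hcond hEv
  obtain ⟨S', hS'c, hfin⟩ := hEv
  refine ⟨S ∪ S', hSc.union hS'c, fun K hK hSK => ?_⟩
  have hfin' := hfin K hK (Set.subset_union_right.trans hSK)
  obtain ⟨hcl, hopen, hD1, hD2⟩ := hcond K hK (Set.subset_union_left.trans hSK)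
  choose F hF using fun p : ω × ω => cyc_poly hJ.1 hK (N := 2) (by norm_num)
    (Sum.inr p.1 : ι ⊕ ω) (Sum.inr p.2)
  let l : List (MvPolynomial (ι ⊕ ω) K) := E.toList.map F
  have hl : ∀ z : ι ⊕ ω → ℂ, (∀ f ∈ l, aeval z f = 0) ↔
      ∀ p ∈ E, Cyc 2 (z (Sum.inr p.1)) (z (Sum.inr p.2)) := by
    intro z
    constructor
    · intro h p hp
      exact (hF p z).1 (h _ (List.mem_map_of_mem (Finset.mem_toList.2 hp)))
    · intro h f hf
      obtain ⟨p, hp, rfl⟩ := List.mem_map.1 hf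
      exact (hF p z).2 (h p (Finset.mem_toList.1 hp))
  have hfin2 : ((fun p : Ideal (MvPolynomial (ι ⊕ ω) K) =>
      p.comap (rename Sum.inl : MvPolynomial ι K →ₐ[K] MvPolynomial (ι ⊕ ω) K)) ''
      (⋃ p ∈ {p | ∃ x, Mx K C' k' x ∧ vI K x = p}, itm l p)).Finite :=
    (hfin'.biUnion fun p _ => itm_finite l p).image _
  refine hfin2.subset ?_
  rintro p ⟨x0, hx0, rfl⟩
  obtain ⟨w, hwC', hwE, hwQ, hwtd, hns, hni, hnx⟩ := hD1 x0 hx0.1.1
  have hsd := hS.2.2.2.1 ι ω ρ x0 w c (by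
    intro j
    rcases hcov j with ⟨i, rfl⟩ | ⟨i, hi⟩
    · exact ⟨i, 1, one_pos, hJ.2.1.1 _⟩
    · exact ⟨i, 2, by norm_num, hwE _ hi⟩)
  have hlt := hx0.1.2
  have hDk : Dk K C' k' (Sum.elim x0 w) := ⟨hwC', by omega⟩
  obtain ⟨b, hb, hba⟩ := exists_mx hA hK hDk
  obtain ⟨b', h1, h2, h3, h4, h5⟩ := descent hJ hA hS hK (Sum.elim x0 w) l (by
    intro f hf
    obtain ⟨p, hp, rfl⟩ := List.mem_map.1 hf
    have hp' := Finset.mem_toList.1 hp
    refine ⟨Sum.inr p.1, Sum.inr p.2, hF p, hwE p hp', ?_⟩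
    obtain ⟨i, hi⟩ := hE p hp'
    rw [Sum.elim_inr, ← hi]
    exact hns i) b hba
  have hb'C : b' ∈ C' := hcl.mem h1 hb.1.1
  set x : ι → ℂ := b' ∘ Sum.inl with hx
  set v : ω → ℂ := b' ∘ Sum.inr with hv
  have hxv : Sum.elim x v = b' := Sum.elim_comp_inl_inr b'
  have hrel := hS.2.2.1 (ι ⊕ ω) K hK b' (Sum.elim x0 w) h2
  have hge := hS.2.2.2.2.1 ι ω ρ x v c (by
      intro i hi
      have := hrel.2 (Sum.inr (c i)) hi
      rw [Sum.elim_inr] at this
      apply hns i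
      rw [this]
      exact hi) (by
      rintro i j hij ⟨N, hN, hcN⟩
      exact hni i j hij ⟨N, hN, hrel.1 (Sum.inr (c i)) (Sum.inr (c j)) N hN hcN⟩) (by
      rintro i j ⟨N, hN, hcN⟩
      exact hnx i j ⟨N, hN, hrel.1 (Sum.inl i) (Sum.inr (c j)) N hN hcN⟩)
  have hQ : Q b' := hopen b' _ h2 hwQ
  have hblt := hb.1.2
  have hT := hS.1 ι K hK x
  have hD := hD2 x v (by rw [hxv]; exact hb'C) ((hl b').1 h4) (by rw [hxv]; exact hQ)
  rw [hxv] at hD hge
  rcases hD with ⟨hxC, htd⟩ | htd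
  · have hDx : Dk K C k x := ⟨hxC, by omega⟩
    have hSx : Sp K x x0 := h2.comp Sum.inl
    have hSx' := hx0.2 x hDx hSx
    refine ⟨vI K b', Set.mem_biUnion ⟨b, hb, rfl⟩ h3, ?_⟩
    show (vI K b').comap _ = vI K x0
    rw [vI_eq hSx' hSx, hx, vI_comp]
  · exfalso
    omega

end Pool.Agent.W2helper42.HL
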