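import Pool.Agent.W2helper42.HL.DescC

/-!
Project HL: descent of the field of definition to the prime field.
-/

set_option autoImplicit false

namespace Pool.Agent.W2helper42.HL

open UpperHalfPlane H294ZP MvPolynomial Cardinal

theorem over_map {ι : Type} {k : Subfield ℂ} (g : MvPolynomial ι k) :
    Over k (map (algebraMap k ℂ) g) := by
  intro m
  rw [coeff_map]
  exact (coeff m g).2

/-- zero sets of sets of polynomials over `k` -/
theorem closedOver_of_set {ι : Type} [Finite ι] {k : Subfield ℂ} (Z : Set (MvPolynomial ι k)) :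
    ClosedOver k {x : ι → ℂ | ∀ g ∈ Z, aeval x g = 0} := by
  classical
  obtain ⟨s, hs⟩ := (isNoetherianRing_iff_ideal_fg _).1
    (inferInstance : IsNoetherianRing (MvPolynomial ι k)) (Ideal.span Z)
  refine ⟨s.card, fun i => map (algebraMap k ℂ) (s.equivFin.symm i).1, fun i => over_map _, ?_⟩
  have key : ∀ (x : ι → ℂ) (Y : Set (MvPolynomial ι k)), (∀ g ∈ Y, aeval x g = 0) ↔
      Ideal.span Y ≤ RingHom.ker (aeval x : MvPolynomial ι k →ₐ[k] ℂ) := by
    intro x Y
    rw [Ideal.span_le]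
    rfl
  ext x
  show (∀ g ∈ Z, aeval x g = 0) ↔ ∀ i, eval x (map (algebraMap k ℂ) (s.equivFin.symm i).1) = 0
  rw [key x Z, ← hs, ← key]
  constructor
  · intro h i
    rw [eval_map, ← aeval_def]
    exact h _ (s.equivFin.symm i).2
  · intro h g hg
    have := h (s.equivFin ⟨g, hg⟩)
    rw [Equiv.symm_apply_apply, eval_map, ← aeval_def] at this
    exact this

theorem clK_of_closedOver {ι : Type} {k K : Subfield ℂ} (h : k ≤ K) {C : Set (ι → ℂ)}
    (hC : ClosedOver k C) : ClK K C := by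
  obtain ⟨J, f, hf, rfl⟩ := hC
  choose g hg using fun j => lift_mv (K := K) (f j) fun m => h (hf j m)
  refine ⟨Set.range g, ?_⟩
  ext x
  simp only [Set.mem_ofPred_eq, Set.forall_mem_range, hg]

/-- descent of the field of definition -/
theorem desc (hJ : JF) (hA : AF) (hI : A_IRR) (hD : A_DEF) (hS : SF)
    (h : ∀ (ι : Type) [Finite ι] (C : Set (ι → ℂ)) (d : ℕ), ClosedOver ⊥ C → Ev C d)
    (ι : Type) [Finite ι] {J : ℕ} (f : Fin J → MvPolynomial ι ℂ) (d : ℕ) :
    Ev {x | ∀ j, eval x (f j) = 0} d := by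
  classical
  let k : Subfield ℂ := ⊥
  let σ := Σ j : Fin J, (f j).support
  let q : ℕ := Fintype.card σ
  let eσ : σ ≃ Fin q := Fintype.equivFin σ
  let t : Fin q → ℂ := fun i => (f (eσ.symm i).1).coeff (eσ.symm i).2.1
  let F : Fin J → MvPolynomial (ι ⊕ Fin q) k := fun j =>
    ∑ m : (f j).support, X (Sum.inr (eσ ⟨j, m⟩)) * rename Sum.inl (monomial m.1 1)
  have hF : ∀ (x : ι → ℂ) j, aeval (Sum.elim x t) (F j) = eval x (f j) := by
    intro x j
    simp only [F, map_sum, map_mul, aeval_X, aeval_rename, Sum.elim_inr, Sum.elim_comp_inl]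
    have h1 : eval x (f j) = ∑ m ∈ (f j).support, (f j).coeff m * eval x (monomial m 1) := by
      conv_lhs => rw [(f j).as_sum, map_sum]
      refine Finset.sum_congr rfl fun m _ => ?_
      rw [eval_monomial, eval_monomial, one_mul]
    rw [h1, ← Finset.sum_coe_sort (f j).support fun m => (f j).coeff m * eval x (monomial m 1)]
    refine Finset.sum_congr rfl fun m _ => ?_
    have h2 : t (eσ ⟨j, m⟩) = (f j).coeff m := by
      show (f (eσ.symm (eσ ⟨j, m⟩)).1).coeff (eσ.symm (eσ ⟨j, m⟩)).2.1 = _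
      rw [Equiv.symm_apply_apply]
    rw [h2, aeval_monomial, eval_monomial, map_one]
  let s3 : Fin q → MvPolynomial (ι ⊕ (Fin 3 × Fin q)) k := fun i =>
    X (Sum.inr (0, i)) + X (Sum.inr (1, i)) + X (Sum.inr (2, i))
  let G : Fin J → MvPolynomial (ι ⊕ (Fin 3 × Fin q)) k := fun j =>
    bind₁ (Sum.elim (fun i => X (Sum.inl i)) s3) (F j)
  let H : MvPolynomial (Fin q) k → MvPolynomial (ι ⊕ (Fin 3 × Fin q)) k := fun g => bind₁ s3 g
  have hs3 : ∀ (z : ι ⊕ (Fin 3 × Fin q) → ℂ) i, aeval z (s3 i) = S3 z i := by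
    intro z i
    simp only [s3, S3, map_add, aeval_X]
  have hG : ∀ (z : ι ⊕ (Fin 3 × Fin q) → ℂ) j,
      aeval z (G j) = aeval (Sum.elim (fun i => z (Sum.inl i)) (S3 z)) (F j) := by
    intro z j
    simp only [G, aeval_bind₁]
    congr 2
    funext i
    rcases i with i | i
    · simp
    · exact hs3 z i
  have hH : ∀ (z : ι ⊕ (Fin 3 × Fin q) → ℂ) g, aeval z (H g) = aeval (S3 z) g := by
    intro z g
    simp only [H, aeval_bind₁, hs3]
  let C' : Set (ι ⊕ (Fin 3 × Fin q) → ℂ) :=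
    {z | ∀ g ∈ Set.range G ∪ H '' {g | aeval t g = 0}, aeval z g = 0}
  have hCo : ClosedOver ⊥ C' := closedOver_of_set _
  let P : (ι → ℂ) → (Fin q → ℂ) → Prop := fun x s => ∀ j, aeval (Sum.elim x s) (F j) = 0
  have hmem : ∀ z, z ∈ C' ↔ P (fun i => z (Sum.inl i)) (S3 z) ∧ Sp ⊥ t (S3 z) := by
    intro z
    constructor
    · intro hz
      refine ⟨fun j => ?_, fun g hg => ?_⟩
      · rw [← hG]
        exact hz _ (Or.inl ⟨j, rfl⟩)
      · rw [← hH]
        exact hz _ (Or.inr ⟨g, hg, rfl⟩)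
    · rintro ⟨h1, h2⟩ g (⟨j, rfl⟩ | ⟨g, hg, rfl⟩)
      · rw [hG]
        exact h1 j
      · rw [hH]
        exact h2 g hg
  obtain ⟨r, e, he, halg⟩ := exists_basis (⊥ : Subfield ℂ) t
  obtain ⟨K, hK, hext⟩ := exists_qbar
  have hind := hext _ _ he
  have hrq : r ≤ q := by
    have h1 : Function.Injective e := by
      have h2 : Function.Injective (t ∘ e) := he.injective
      exact h2.of_comp
    simpa using Fintype.card_le_of_injective e h1
  have hEv := h _ C' (d + q - r) hCo
  have hClK : ClK K C' := clK_of_closedOver bot_le hCo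
  have hfin := fin_down hA hI hD hS hEv hK hClK
  have := hK.1
  refine ⟨(K : Set ℂ) ∪ Set.range t, (Set.to_countable _).union (Set.countable_range t),
    fun K₁ hK₁ hKK => ?_⟩
  have hle : K ≤ K₁ := fun z hz => hKK (Or.inl hz)
  have hstep := desc_step hJ hA hI hD hS (k := d) (k' := d + q - r) (by omega) P t e hK hind halg
    C' hClK hmem hfin hK₁ hle fun i => hKK (Or.inr ⟨i, rfl⟩)
  have hset : {x : ι → ℂ | ∀ j, eval x (f j) = 0} = {x | P x t} := by
    ext x
    refine forall_congr' fun j => ?_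
    rw [hF]
  rw [hset]
  exact hstep

end Pool.Agent.W2helper42.HL
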