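import Pool.Agent.W2helper42.HL.Defs

/-!
# Zilber-Pink for `Y(1)^n` and linear subspaces: statements of the pieces (project HL)
-/

set_option autoImplicit false

namespace Pool.Agent.W2helper42.HL

open UpperHalfPlane H294ZP MvPolynomial

/-- isogenous -/
def Isog (x y : ℂ) : Prop := ∃ N : ℕ, 0 < N ∧ Cyc N x y

/-! ### facts on `j` -/

/-- surjectivity of `j` -/
def J_SURJ : Prop := ∀ x : ℂ, ∃ τ : ℍ, jj τ = x

/-- `j` is injective modulo `SL(2, ℤ)` -/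
def J_INJ : Prop := ∀ τ w : ℍ, jj τ = jj w → ∃ a b c d : ℤ, a * d - b * c = 1 ∧
  (w : ℂ) * (c * τ + d) = a * τ + b

/-- the modular polynomials, as polynomials in `Y` with coefficients in `ℂ[X]` -/
def J_POLY : Prop := ∀ N : ℕ, 0 < N → ∃ Φ : Polynomial (Polynomial ℂ), Φ.Monic ∧
  (∀ i j, IsAlgebraic ℚ ((Φ.coeff i).coeff j)) ∧
  ∀ x y : ℂ, (Φ.map (Polynomial.evalRingHom x)).eval y = 0 ↔ Cyc N x y

/-- `Isog` is an equivalence relation, the degree of a cyclic isogeny between points which are not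
special is unique, special points -/
def J_REL : Prop := (∀ x, Cyc 1 x x) ∧ (∀ N x y, 0 < N → Cyc N x y → Cyc N y x) ∧
  (∀ x y z, Isog x y → Isog y z → Isog x z) ∧
  (∀ N M x y, 0 < N → 0 < M → ¬ SpecialPoint x → Cyc N x y → Cyc M x y → N = M) ∧
  (∀ x y, SpecialPoint x → Isog x y → SpecialPoint y) ∧
  ∀ x, SpecialPoint x → IsAlgebraic ℚ x

/-- the sum of the three values of `j` which are 2-isogenous to `u` is `u^2 + β u + γ` -/
def HeckeSpec (β γ : ℂ) : Prop := IsAlgebraic ℚ β ∧ IsAlgebraic ℚ γ ∧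
  (∀ u, ∃ v : Fin 3 → ℂ, (∀ l, Cyc 2 u (v l)) ∧ v 0 + v 1 + v 2 = u ^ 2 + β * u + γ ∧
    (Transcendental ℚ u → Function.Injective v)) ∧
  ∀ (u : ℂ) (v : Fin 3 → ℂ), (∀ l, Cyc 2 u (v l)) → Function.Injective v →
    v 0 + v 1 + v 2 = u ^ 2 + β * u + γ

/-- there are such constants -/
def J_HECKE : Prop := ∃ β γ : ℂ, HeckeSpec β γ

/-- all the facts on `j` which are used by the other pieces -/
def JF : Prop := J_POLY ∧ J_REL ∧ J_HECKE

/-! ### algebraic geometry over countable algebraically closed subfields of `ℂ` -/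

/-- countable algebraically closed subfields -/
def Gd (K : Subfield ℂ) : Prop := Countable K ∧ IsAlgClosed K

/-- `y` is a specialization of `x` over `K` -/
def Sp {ι : Type} (K : Subfield ℂ) (x y : ι → ℂ) : Prop :=
  ∀ f : MvPolynomial ι K, aeval x f = 0 → aeval y f = 0

/-- the ideal of `x` over `K` -/
noncomputable def vI {ι : Type} (K : Subfield ℂ) (x : ι → ℂ) : Ideal (MvPolynomial ι K) :=
  RingHom.ker (aeval x : MvPolynomial ι K →ₐ[K] ℂ)

/-- the transcendence degree of `K(x)` over `K` -/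
noncomputable def td {ι : Type} (K : Subfield ℂ) (x : ι → ℂ) : ℕ :=
  Cardinal.toNat (Algebra.trdeg K (Algebra.adjoin K (Set.range x)))

/-- the set of all specializations -/
def cl {ι : Type} (K : Subfield ℂ) (x : ι → ℂ) : Set (ι → ℂ) := {y | Sp K x y}

/-- `C` is closed over `K` -/
def ClK {ι : Type} (K : Subfield ℂ) (C : Set (ι → ℂ)) : Prop :=
  ∃ F : Set (MvPolynomial ι K), C = {x | ∀ f ∈ F, aeval x f = 0}

/-- the field `K(x)` -/
noncomputable abbrev fld {ι : Type} (K : Subfield ℂ) (x : ι → ℂ) : IntermediateField K ℂ :=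
  IntermediateField.adjoin K (Set.range x)

/-- dimensions of specializations -/
def A_MONO : Prop := ∀ (ι : Type) [Finite ι] (K : Subfield ℂ) (x y : ι → ℂ), Sp K x y →
  td K y ≤ td K x ∧ (td K x ≤ td K y → Sp K y x)

/-- Krull's principal ideal theorem -/
def A_KRULL : Prop := ∀ (ι : Type) [Finite ι] (K : Subfield ℂ), Gd K → ∀ (b a : ι → ℂ)
  (f : MvPolynomial ι K), Sp K b a → aeval b f ≠ 0 → aeval a f = 0 →
  ∃ b', Sp K b b' ∧ Sp K b' a ∧ aeval b' f = 0 ∧ td K b ≤ td K b' + 1 ∧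
    vI K b' ∈ (vI K b ⊔ Ideal.span {f}).minimalPrimes

/-- there are generic points -/
def A_GEN : Prop := ∀ (ι : Type) [Finite ι] (K : Subfield ℂ), Gd K →
  ∃ x : ι → ℂ, td K x = Nat.card ι ∧ ∀ y, Sp K x y

/-- upper bound for the transcendence degree -/
def A_LE : Prop := ∀ (ι : Type) [Finite ι] (K : Subfield ℂ) (x : ι → ℂ) (m : ℕ) (t : Fin m → ℂ),
  (∀ i, IsAlgebraic (fld K t) (x i)) → td K x ≤ m

/-- relative upper bound for the transcendence degree -/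
def A_SUM_LE : Prop := ∀ (ι ω : Type) [Finite ι] [Finite ω] (K : Subfield ℂ) (x : ι → ℂ)
  (w : ω → ℂ) (m : ℕ) (t : Fin m → ℂ),
  (∀ j, IsAlgebraic (fld K (Sum.elim x t)) (w j)) → td K (Sum.elim x w) ≤ td K x + m

/-- relative lower bound for the transcendence degree -/
def A_SUM_GE : Prop := ∀ (ι ω : Type) [Finite ι] [Finite ω] (K : Subfield ℂ) (x : ι → ℂ)
  (w : ω → ℂ) (m : ℕ) (t : Fin m → ℂ), AlgebraicIndependent (fld K x) t →
  (∀ j, t j ∈ fld K (Sum.elim x w)) → td K x + m ≤ td K (Sum.elim x w)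

/-- numbers which are algebraically independent over `K(x)` -/
def A_NEW : Prop := ∀ (ι : Type) [Finite ι] (K : Subfield ℂ), Gd K → ∀ (x : ι → ℂ) (m : ℕ),
  ∃ t : Fin m → ℂ, AlgebraicIndependent (fld K x) t

/-- the closure of a point over `K` is irreducible over `ℂ`, and its dimension is `td` -/
def A_IRR : Prop := ∀ (ι : Type) [Finite ι] (K : Subfield ℂ), Gd K → ∀ x : ι → ℂ,
  Irr (cl K x) ∧ dim (cl K x) = (td K x : ℕ)

/-- countably many irreducible closed sets are closures of points over one countable field -/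
def A_DEF : Prop := ∀ (ι : Type) [Finite ι] (S : Set ℂ) (V : ℕ → Set (ι → ℂ)), S.Countable →
  (∀ i, Irr (V i)) → ∃ K : Subfield ℂ, Gd K ∧ S ⊆ K ∧ ∀ i, ∃ x, V i = cl K x

/-- all the facts on transcendence degrees -/
def AF : Prop := A_MONO ∧ A_KRULL ∧ A_GEN ∧ A_LE ∧ A_SUM_LE ∧ A_SUM_GE ∧ A_NEW

/-! ### the special dimension -/

/-- the number of isogeny classes of the coordinates which are not special: the largest number of
coordinates which are not special and pairwise not isogenous -/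
noncomputable def sd {ι : Type} (x : ι → ℂ) : ℕ :=
  sSup {m : ℕ | ∃ s : Finset ι, s.card = m ∧ (∀ i ∈ s, ¬ SpecialPoint (x i)) ∧
    ∀ i ∈ s, ∀ j ∈ s, i ≠ j → ¬ Isog (x i) (x j)}

/-- `td ≤ sd` -/
def S_TD : Prop := ∀ (ι : Type) [Finite ι] (K : Subfield ℂ), Gd K → ∀ x : ι → ℂ, td K x ≤ sd x

/-- specialization -/
def S_MONO : Prop := ∀ (ι : Type) [Finite ι] (K : Subfield ℂ), Gd K → ∀ x y : ι → ℂ, Sp K x y →
  sd y ≤ sd x ∧ ∀ i j, ¬ SpecialPoint (y i) → Isog (y i) (y j) → ¬ Isog (x i) (x j) →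
    sd y + 1 ≤ sd x

/-- conservation of relations -/
def S_REL : Prop := ∀ (ι : Type) [Finite ι] (K : Subfield ℂ), Gd K → ∀ x y : ι → ℂ, Sp K x y →
  (∀ i j (N : ℕ), 0 < N → Cyc N (x i) (x j) → Cyc N (y i) (y j)) ∧
  ∀ i, SpecialPoint (x i) → y i = x i

/-- new coordinates: upper bound -/
def S_LE : Prop := ∀ (ι ω ρ : Type) [Finite ι] [Finite ω] [Finite ρ] (x : ι → ℂ) (w : ω → ℂ)
  (c : ρ → ω), (∀ j, ∃ l, Isog (w (c l)) (w j)) → sd (Sum.elim x w) ≤ sd x + Nat.card ρ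

/-- new coordinates: lower bound -/
def S_GE : Prop := ∀ (ι ω ρ : Type) [Finite ι] [Finite ω] [Finite ρ] (x : ι → ℂ) (w : ω → ℂ)
  (c : ρ → ω), (∀ l, ¬ SpecialPoint (w (c l))) → (∀ l l', l ≠ l' → ¬ Isog (w (c l)) (w (c l'))) →
  (∀ i l, ¬ Isog (x i) (w (c l))) → sd x + Nat.card ρ ≤ sd (Sum.elim x w)

/-- the smallest special subvariety which contains a point: it has a generic point `x'` over `K`
with the same special relations -/
def S_STAR : Prop := ∀ (ι : Type) [Finite ι] (K : Subfield ℂ), Gd K → ∀ x : ι → ℂ,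
  ∃ x' : ι → ℂ, Sp K x' x ∧ td K x' = sd x ∧ sd x' = sd x ∧
    (∀ i j (N : ℕ), 0 < N → Cyc N (x i) (x j) → Cyc N (x' i) (x' j)) ∧
    ∀ i, SpecialPoint (x i) → x' i = x i

/-- all the facts on `sd` -/
def SF : Prop := S_TD ∧ S_MONO ∧ S_REL ∧ S_LE ∧ S_GE ∧ S_STAR

/-! ### the reduction -/

/-- points of `C` of defect less than `k` -/
def Dk {ι : Type} (K : Subfield ℂ) (C : Set (ι → ℂ)) (k : ℕ) (x : ι → ℂ) : Prop :=
  x ∈ C ∧ sd x < td K x + k

/-- maximal ones -/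
def Mx {ι : Type} (K : Subfield ℂ) (C : Set (ι → ℂ)) (k : ℕ) (x : ι → ℂ) : Prop :=
  Dk K C k x ∧ ∀ y, Dk K C k y → Sp K y x → Sp K x y

/-- finiteness over `K` -/
def FinK {ι : Type} (K : Subfield ℂ) (C : Set (ι → ℂ)) (k : ℕ) : Prop :=
  {p : Ideal (MvPolynomial ι K) | ∃ x, Mx K C k x ∧ vI K x = p}.Finite

/-- finiteness over all large countable algebraically closed fields -/
def Ev {ι : Type} (C : Set (ι → ℂ)) (k : ℕ) : Prop :=
  ∃ S : Set ℂ, S.Countable ∧ ∀ K : Subfield ℂ, Gd K → S ⊆ K → FinK K C k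

/-- The general reduction. `E`: pairs of new coordinates which are 2-isogenous; `c l`, `l ∈ ρ`:
representatives of the classes of the new coordinates; `Q`: an additional open condition. -/
def R_MAIN : Prop := ∀ (ι ω ρ : Type) [Finite ι] [Finite ω] [Finite ρ] (C : Set (ι → ℂ))
  (C' : Set (ι ⊕ ω → ℂ)) (k k' e : ℕ) (c : ρ → ω) (E : Finset (ω × ω))
  (Q : (ι ⊕ ω → ℂ) → Prop) (S : Set ℂ), S.Countable → k' + e = k + Nat.card ρ →
  (∀ j, (∃ l, c l = j) ∨ ∃ l, (c l, j) ∈ E) → (∀ p ∈ E, ∃ l, c l = p.1) →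
  (∀ K : Subfield ℂ, Gd K → S ⊆ K →
    ClK K C' ∧ (∀ z z', Sp K z z' → Q z' → Q z) ∧
    (∀ a ∈ C, ∃ w : ω → ℂ, Sum.elim a w ∈ C' ∧ (∀ p ∈ E, Cyc 2 (w p.1) (w p.2)) ∧
      Q (Sum.elim a w) ∧ td K a + e ≤ td K (Sum.elim a w) ∧
      (∀ l, ¬ SpecialPoint (w (c l))) ∧ (∀ l l', l ≠ l' → ¬ Isog (w (c l)) (w (c l'))) ∧
      (∀ i l, ¬ Isog (a i) (w (c l)))) ∧
    (∀ (x : ι → ℂ) (v : ω → ℂ), Sum.elim x v ∈ C' → (∀ p ∈ E, Cyc 2 (v p.1) (v p.2)) →
      Q (Sum.elim x v) → (x ∈ C ∧ td K (Sum.elim x v) ≤ td K x + e) ∨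
        td K (Sum.elim x v) + k ≤ td K x + e)) →
  Ev C' k' → Ev C k

/-- first step: `k` equations with free coefficients -/
def R_LAM : Prop := ∀ (ι : Type) [Finite ι] (J k : ℕ) (f : Fin J → MvPolynomial ι ℂ),
  Ev {z : ι ⊕ (Fin k × Fin J) → ℂ | ∀ i : Fin k,
    ∑ j, z (Sum.inr (i, j)) * eval (fun s => z (Sum.inl s)) (f j) = 0} k →
  Ev {x : ι → ℂ | ∀ j, eval x (f j) = 0} k

/-- the linear form in the new coordinates which gives the square -/
noncomputable def sqf (β γ : ℂ) (v : Fin 6 × Fin 4 → ℂ) (c : Fin 6) : ℂ :=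
  v (c, 1) + v (c, 2) + v (c, 3) - β * v (c, 0) - γ

/-- the four linear equations of the new coordinates -/
def Sq4 (A : ℂ) (v : Fin 6 × Fin 4 → ℂ) : Prop :=
  3 * v (0, 0) = 3 * A + (v (3, 0) + v (5, 0)) ∧
  3 * v (1, 0) = 3 * A + (v (4, 0) - v (3, 0)) ∧
  3 * v (2, 0) = 3 * A - (v (3, 0) + v (5, 0)) - (v (4, 0) - v (3, 0)) ∧
  v (5, 0) = v (3, 0) + v (4, 0)

/-- the square -/
noncomputable def sqs (β γ : ℂ) (v : Fin 6 × Fin 4 → ℂ) : ℂ :=
  (sqf β γ v 0 + sqf β γ v 1 + sqf β γ v 2) / 3 -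
    (sqf β γ v 3 + sqf β γ v 4 + sqf β γ v 5) / 9

/-- second step: the elimination of a square (for `β`, `γ` as in `J_HECKE`) -/
def R_SQ (β γ : ℂ) : Prop := ∀ (ι : Type) [Finite ι] (A : MvPolynomial ι ℂ) (J k : ℕ)
  (f : Fin J → MvPolynomial (Option ι) ℂ),
  Ev {z : ι ⊕ (Fin 6 × Fin 4) → ℂ |
    (∀ j, eval (fun o : Option ι => o.elim (sqs β γ fun s => z (Sum.inr s))
      fun i => z (Sum.inl i)) (f j) = 0) ∧
    Sq4 (eval (fun s => z (Sum.inl s)) A) fun s => z (Sum.inr s)} (k + 4) →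
  Ev {x : ι → ℂ | ∀ j, eval (fun o : Option ι => o.elim ((eval x A) ^ 2) x) (f j) = 0} k

/-- systems of `m` equations computed with `q` squares -/
def Comp (k : Subfield ℂ) : ℕ → (ι : Type) → ℕ → Set (ι → ℂ) → Prop
  | 0, _, m, C => LinearOver k m C
  | q + 1, ι, m, C => ∃ (A : MvPolynomial ι ℂ) (C₁ : Set (Option ι → ℂ)),
      A.totalDegree ≤ 1 ∧ Over k A ∧ Comp k q (Option ι) m C₁ ∧
      C = {x | (fun o : Option ι => o.elim ((eval x A) ^ 2) x) ∈ C₁}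

/-- every system of polynomial equations can be computed with squares -/
def C_POLY : Prop := ∀ (k : Subfield ℂ) (ι : Type) [Finite ι] (m : ℕ)
  (f : Fin m → MvPolynomial ι ℂ), (∀ i, Over k (f i)) →
  ∃ q, Comp k q ι m {x | ∀ i, eval x (f i) = 0}

/-- the induction -/
def C_MAIN (β γ : ℂ) : Prop := ∀ k : Subfield ℂ, β ∈ k → γ ∈ k →
  (∀ (ι : Type) [Finite ι] (m : ℕ) (C : Set (ι → ℂ)), LinearOver k m C → Ev C m) →
  ∀ (q : ℕ) (ι : Type) [Finite ι] (m : ℕ) (C : Set (ι → ℂ)), Comp k q ι m C → Ev C m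

end Pool.Agent.W2helper42.HL
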