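import Pool.Agent.W2helper42.HL.Main
import Pool.Agent.W2helper42.HL.DescD
import Pool.Agent.W2helper8.HL.JInj
import Pool.Agent.W2helper8.HL.JSurj
import Pool.Agent.W2helper8.HL.JPoly
import Pool.Agent.W2helper56.HL.JRel
import Pool.Agent.W2helper54.HL.Hecke
import Pool.Agent.W2helper55.HL.Al
import Pool.Agent.W2helper3.HL.Irr
import Pool.Agent.W2helper76.HL.Sd
import Pool.Agent.W2helper76.HL.Star

/-!
Project HL: assembly.
-/

set_option autoImplicit false

namespace Pool.Agent.W2helper42.HL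

open UpperHalfPlane H294ZP MvPolynomial Cardinal

theorem jf : JF :=
  ⟨Pool.Agent.W2helper8.HL.jpoly, Pool.Agent.W2helper56.HL.j_rel Pool.Agent.W2helper8.HL.jsurj
    Pool.Agent.W2helper8.HL.piece, Pool.Agent.W2helper54.HL.j_hecke Pool.Agent.W2helper8.HL.jsurj⟩

theorem af : AF :=
  ⟨Pool.Agent.W2helper55.HL.a_mono, Pool.Agent.W2helper55.HL.a_krull,
    Pool.Agent.W2helper55.HL.a_gen, Pool.Agent.W2helper3.HL.a_le, Pool.Agent.W2helper3.HL.a_sum_le,
    Pool.Agent.W2helper3.HL.a_sum_ge, Pool.Agent.W2helper55.HL.a_new⟩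

theorem sf : SF :=
  ⟨Pool.Agent.W2helper76.HL.s_td jf af, Pool.Agent.W2helper76.HL.s_mono jf,
    Pool.Agent.W2helper76.HL.s_rel jf, Pool.Agent.W2helper76.HL.s_le jf,
    Pool.Agent.W2helper76.HL.s_ge jf,
    Pool.Agent.W2helper76.HL.s_star jf af (Pool.Agent.W2helper76.HL.s_td jf af)
      (Pool.Agent.W2helper76.HL.s_mono jf) (Pool.Agent.W2helper76.HL.s_rel jf)⟩

theorem a_irr' : A_IRR := Pool.Agent.W2helper3.HL.a_irr

theorem a_def' : A_DEF := Pool.Agent.W2helper55.HL.a_def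

end Pool.Agent.W2helper42.HL
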