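import Pool.Agent.W2helper42.HL.Stm

/-!
Project HL: elementary lemmas.
-/

set_option autoImplicit false

namespace Pool.Agent.W2helper42.HL

open UpperHalfPlane H294ZP MvPolynomial

/-- algebraic numbers are in `K` -/
theorem alg_mem {K : Subfield ℂ} (hK : Gd K) {z : ℂ} (hz : IsAlgebraic ℚ z) : z ∈ K := by
  have := hK.2
  have h1 : IsIntegral K z := (hz.tower_top K).isIntegral
  have h2 := IsAlgClosed.degree_eq_one_of_irreducible K (minpoly.irreducible h1)
  have h3 := minpoly.mem_range_of_degree_eq_one K z h2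
  obtain ⟨y, hy⟩ := h3
  rw [← hy]
  exact y.2

theorem Sp.refl {ι : Type} {K : Subfield ℂ} (x : ι → ℂ) : Sp K x x := fun _ h => h

theorem Sp.trans {ι : Type} {K : Subfield ℂ} {x y z : ι → ℂ} (h : Sp K x y) (h' : Sp K y z) :
    Sp K x z := fun f hf => h' f (h f hf)

theorem sp_iff {ι : Type} {K : Subfield ℂ} {x y : ι → ℂ} : Sp K x y ↔ vI K x ≤ vI K y := Iff.rfl

theorem vI_eq {ι : Type} {K : Subfield ℂ} {x y : ι → ℂ} (h : Sp K x y) (h' : Sp K y x) :
    vI K x = vI K y := le_antisymm h h'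

instance vI_prime {ι : Type} {K : Subfield ℂ} (x : ι → ℂ) : (vI K x).IsPrime :=
  RingHom.ker_isPrime _

theorem mem_vI {ι : Type} {K : Subfield ℂ} {x : ι → ℂ} {f : MvPolynomial ι K} :
    f ∈ vI K x ↔ aeval x f = 0 := Iff.rfl

/-- restriction to some of the coordinates -/
theorem Sp.comp {ι κ : Type} {K : Subfield ℂ} {x y : ι → ℂ} (h : Sp K x y) (g : κ → ι) :
    Sp K (x ∘ g) (y ∘ g) := by
  intro f hf
  have h1 := h (rename g f)
  rw [aeval_rename, aeval_rename] at h1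
  exact h1 hf

theorem vI_comp {ι κ : Type} {K : Subfield ℂ} (x : ι → ℂ) (g : κ → ι) :
    vI K (x ∘ g) = (vI K x).comap (rename g : MvPolynomial κ K →ₐ[K] MvPolynomial ι K) := by
  ext f
  rw [Ideal.mem_comap, mem_vI, mem_vI]
  show _ ↔ aeval x (rename g f) = 0
  rw [aeval_rename]

theorem ClK.mem {ι : Type} {K : Subfield ℂ} {C : Set (ι → ℂ)} (hC : ClK K C) {x y : ι → ℂ}
    (h : Sp K x y) (hx : x ∈ C) : y ∈ C := by
  obtain ⟨F, rfl⟩ := hC
  exact fun f hf => h f (hx f hf)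

/-- the modular equation for two coordinates as a polynomial over `K` -/
theorem cyc_poly (hJ : J_POLY) {ι : Type} {K : Subfield ℂ} (hK : Gd K) {N : ℕ} (hN : 0 < N)
    (i j : ι) : ∃ f : MvPolynomial ι K, ∀ z : ι → ℂ, aeval z f = 0 ↔ Cyc N (z i) (z j) := by
  obtain ⟨Φ, -, hΦ, h⟩ := hJ N hN
  have h1 : ∀ i, ∃ p : Polynomial K, p.map (algebraMap K ℂ) = Φ.coeff i := by
    intro i
    have h2 : Φ.coeff i ∈ Polynomial.lifts (algebraMap K ℂ) := by
      rw [Polynomial.lifts_iff_coeff_lifts]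
      intro j
      exact ⟨⟨_, alg_mem hK (hΦ i j)⟩, rfl⟩
    exact (Polynomial.mem_lifts _).1 h2
  choose p hp using h1
  refine ⟨∑ a ∈ Finset.range (Φ.natDegree + 1), Polynomial.aeval (X i) (p a) * X j ^ a,
    fun z => ?_⟩
  rw [← h (z i) (z j), Polynomial.eval_map, Polynomial.eval₂_eq_sum_range, map_sum]
  have h3 : ∀ a, aeval z (Polynomial.aeval (X i : MvPolynomial ι K) (p a) * X j ^ a) =
      Polynomial.evalRingHom (z i) (Φ.coeff a) * z j ^ a := by
    intro a
    rw [map_mul, map_pow, aeval_X, ← hp a, Polynomial.coe_evalRingHom,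
      Polynomial.eval_map, ← Polynomial.aeval_algHom_apply, aeval_X]
    rfl
  rw [Finset.sum_congr rfl fun a _ => h3 a]

end Pool.Agent.W2helper42.HL
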