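import Pool.Agent.H294ZP.Stmts

/-!
# Zilber-Pink for `Y(1)^n` and linear subspaces: definitions

`Y(1)^n` is the affine space `ℂ^ι`, `ι` a finite set of indices with `n` elements.
-/

set_option autoImplicit false

namespace Pool.Agent.W2helper42.HL

open UpperHalfPlane H294ZP MvPolynomial

/-- `Φ_N (x, y) = 0`: for some `τ` in the upper half plane and some primitive integral matrix
`(a b; c d)` of determinant `N`, `x = j(τ)` and `y = j((a τ + b) / (c τ + d))`.
(`jj = j = E₄³ / Δ` is the elliptic modular function.) -/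
def Cyc (N : ℕ) (x y : ℂ) : Prop :=
  ∃ (a b c d : ℤ) (τ w : ℍ), a * d - b * c = N ∧
    (∀ g : ℤ, g ∣ a → g ∣ b → g ∣ c → g ∣ d → IsUnit g) ∧
    (w : ℂ) * (c * τ + d) = a * τ + b ∧ jj τ = x ∧ jj w = y

/-- Special points: the values `j(τ)` at the imaginary quadratic numbers `τ`. -/
def SpecialPoint (x : ℂ) : Prop :=
  ∃ τ : ℍ, (∃ a b c : ℤ, a ≠ 0 ∧ (a : ℂ) * (τ : ℂ) ^ 2 + b * τ + c = 0) ∧ jj τ = x

/-- `V ⊆ ℂ^ι` is an irreducible Zariski closed subset, a subvariety. -/
def Irr {ι : Type} (V : Set (ι → ℂ)) : Prop :=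
  ∃ P : Ideal (MvPolynomial ι ℂ), P.IsPrime ∧ V = {x | ∀ f ∈ P, eval x f = 0}

/-- The dimension of a subset of `ℂ^ι`: the Krull dimension of the ring of polynomial functions
on it. -/
noncomputable def dim {ι : Type} (V : Set (ι → ℂ)) : WithBot ℕ∞ :=
  ringKrullDim (MvPolynomial ι ℂ ⧸ vanishingIdeal ℂ V)

/-- `A` is an irreducible component of `Z`. -/
def IsComponent {ι : Type} (A Z : Set (ι → ℂ)) : Prop :=
  Irr A ∧ A ⊆ Z ∧ ∀ B, Irr B → B ⊆ Z → A ⊆ B → A = B

/-- Special subvarieties: the irreducible components of the common zero loci of finitely many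
polynomials `Φ_N (T_i, T_j)`, `i ≠ j`, `N ≥ 1`, and `T_i - c`, `c` a special point. -/
def Special {ι : Type} (S : Set (ι → ℂ)) : Prop :=
  ∃ (E : Finset (ι × ι × ℕ)) (G : Finset (ι × ℂ)),
    (∀ e ∈ E, e.1 ≠ e.2.1 ∧ 0 < e.2.2) ∧ (∀ g ∈ G, SpecialPoint g.2) ∧
    IsComponent S {x | (∀ e ∈ E, Cyc e.2.2 (x e.1) (x e.2.1)) ∧ ∀ g ∈ G, x g.1 = g.2}

/-- `A` is an atypical subvariety of `V`: an irreducible component of `V ∩ S`, `S` a special
subvariety, of dimension larger than `dim V + dim S - n`. -/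
def Atypical {ι : Type} (V A : Set (ι → ℂ)) : Prop :=
  ∃ S, Special S ∧ IsComponent A (V ∩ S) ∧ dim V + dim S < dim A + (Nat.card ι : ℕ)

/-- The Zilber-Pink conjecture for `V`: there are only finitely many maximal atypical
subvarieties of `V`. -/
def ZilberPink {ι : Type} (V : Set (ι → ℂ)) : Prop :=
  {A : Set (ι → ℂ) | Atypical V A ∧ ∀ B, Atypical V B → A ⊆ B → A = B}.Finite

/-- the coefficients are in `k` -/
def Over {ι : Type} (k : Subfield ℂ) (f : MvPolynomial ι ℂ) : Prop := ∀ m, f.coeff m ∈ k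

/-- `C` is the set of common zeros of finitely many polynomials with coefficients in `k`. -/
def ClosedOver {ι : Type} (k : Subfield ℂ) (C : Set (ι → ℂ)) : Prop :=
  ∃ (J : ℕ) (f : Fin J → MvPolynomial ι ℂ), (∀ j, Over k (f j)) ∧ C = {x | ∀ j, eval x (f j) = 0}

/-- `C` is an affine linear subspace given by `m` linear equations with coefficients in `k`: the
set of common zeros of `m` polynomials of degree at most `1` with coefficients in `k`. -/
def LinearOver {ι : Type} (k : Subfield ℂ) (m : ℕ) (C : Set (ι → ℂ)) : Prop :=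
  ∃ L : Fin m → MvPolynomial ι ℂ, (∀ i, (L i).totalDegree ≤ 1 ∧ Over k (L i)) ∧
    C = {x | ∀ i, eval x (L i) = 0}

/-- the irreducible closed subsets `A` of `C` of defect less than `d`: `dim S < dim A + d` for some
special subvariety `S` which contains `A` -/
def Small {ι : Type} (C : Set (ι → ℂ)) (d : ℕ) (A : Set (ι → ℂ)) : Prop :=
  Irr A ∧ A ⊆ C ∧ ∃ S, Special S ∧ A ⊆ S ∧ dim S < dim A + (d : ℕ)

/-- There are only finitely many maximal irreducible closed subsets of `C` of defect less than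
`d`. -/
def FiniteDefect {ι : Type} (C : Set (ι → ℂ)) (d : ℕ) : Prop :=
  {A : Set (ι → ℂ) | Small C d A ∧ ∀ B, Small C d B → A ⊆ B → A = B}.Finite

end Pool.Agent.W2helper42.HL
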