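import Pool.Agent.W2helper42.HL.Fin
import Pool.Agent.W2helper42.HL.RMain
import Pool.Agent.W2helper3.HL.Td
import Pool.Agent.W2helper76.HL.Base

/-!
Project HL: descent of the field of definition, first part.
-/

set_option autoImplicit false

namespace Pool.Agent.W2helper42.HL

open UpperHalfPlane H294ZP MvPolynomial

/-- a transcendence basis among finitely many numbers -/
theorem exists_basis {κ : Type} [Finite κ] (F : Subfield ℂ) (t : κ → ℂ) :
    ∃ (r : ℕ) (e : Fin r → κ), AlgebraicIndependent F (t ∘ e) ∧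
      ∀ i, IsAlgebraic (Algebra.adjoin F (Set.range (t ∘ e))) (t i) := by
  classical
  have := Fintype.ofFinite κ
  obtain ⟨s, hs, hmax⟩ := (measure fun s : Finset κ => Fintype.card κ - s.card).wf.has_min
    {s | AlgebraicIndepOn F t (s : Set κ)} ⟨∅, by
      show AlgebraicIndepOn F t ((∅ : Finset κ) : Set κ)
      rw [Finset.coe_empty]
      have : IsEmpty (∅ : Set κ) := inferInstance
      exact algebraicIndependent_empty_type_iff.2 (algebraMap F ℂ).injective⟩
  have hs' : AlgebraicIndepOn F t (s : Set κ) := hs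
  let e : Fin s.card → κ := fun i => (s.equivFin.symm i : κ)
  have hrange : Set.range (t ∘ e) = t '' (s : Set κ) := by
    ext z
    constructor
    · rintro ⟨i, rfl⟩
      exact ⟨e i, (s.equivFin.symm i).2, rfl⟩
    · rintro ⟨j, hj, rfl⟩
      exact ⟨s.equivFin ⟨j, hj⟩, by simp [e]⟩
  refine ⟨s.card, e, ?_, fun i => ?_⟩
  · exact AlgebraicIndependent.comp hs' (fun i => s.equivFin.symm i) s.equivFin.symm.injective
  · rw [hrange]
    by_cases hi : i ∈ s
    · exact isAlgebraic_algebraMap (⟨t i, Algebra.subset_adjoin ⟨i, hi, rfl⟩⟩ :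
        Algebra.adjoin F (t '' (s : Set κ)))
    · by_contra hcon
      have h1 : AlgebraicIndepOn F t (insert i (s : Set κ)) := hs'.insert hcon
      rw [← Finset.coe_insert] at h1
      have h2 := hmax (insert i s) h1
      have h3 : ¬ (Fintype.card κ - (insert i s).card < Fintype.card κ - s.card) := h2
      rw [Finset.card_insert_of_notMem hi] at h3
      have h4 := Finset.card_le_univ (insert i s)
      rw [Finset.card_insert_of_notMem hi] at h4
      omega

/-- the algebraic numbers -/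
theorem exists_qbar : ∃ K : Subfield ℂ, Gd K ∧ ∀ (σ : Type) (x : σ → ℂ),
    AlgebraicIndependent (⊥ : Subfield ℂ) x → AlgebraicIndependent K x := by
  refine ⟨(algebraicClosure (⊥ : Subfield ℂ) ℂ).toSubfield, ⟨?_, ?_⟩, fun σ x hx => ?_⟩
  · have h0 : Countable (⊥ : Subfield ℂ) := by
      rw [Subfield.bot_eq_of_charZero]
      exact Set.countable_range (algebraMap ℚ ℂ)
    have h1 : Set.Countable {x : ℂ | IsAlgebraic (⊥ : Subfield ℂ) x} := Algebraic.countable _ _
    have h2 : ((algebraicClosure (⊥ : Subfield ℂ) ℂ).toSubfield : Set ℂ) =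
        {x : ℂ | IsAlgebraic (⊥ : Subfield ℂ) x} := by
      ext x
      exact mem_algebraicClosure_iff
    exact (h2 ▸ h1 : Set.Countable ((algebraicClosure (⊥ : Subfield ℂ) ℂ).toSubfield : Set ℂ))
  · exact (algebraicClosure.isAlgClosure (⊥ : Subfield ℂ) (E := ℂ)).isAlgClosed
  · exact hx.algebraicClosure

theorem mem_of_algebraic {K : Subfield ℂ} (hK : Gd K) {z : ℂ} (hz : IsAlgebraic K z) : z ∈ K := by
  have := hK.2
  have h1 : IsIntegral K z := hz.isIntegral
  have h2 := IsAlgClosed.degree_eq_one_of_irreducible K (minpoly.irreducible h1)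
  obtain ⟨y, hy⟩ := minpoly.mem_range_of_degree_eq_one K z h2
  rw [← hy]
  exact y.2

/-- specializations which fix a transcendence basis -/
theorem alg_of_sp {κ : Type} {r : ℕ} {F : Subfield ℂ} {t s : κ → ℂ} (e : Fin r → κ)
    (h : Sp F t s) (he : ∀ i, s (e i) = t (e i)) (i : κ)
    (hi : IsAlgebraic (Algebra.adjoin F (Set.range (t ∘ e))) (t i)) :
    IsAlgebraic (Algebra.adjoin F (Set.range (t ∘ e))) (s i) := by
  obtain ⟨p, hp0, hp⟩ := hi
  have h1 : ∀ n, ∃ c : MvPolynomial (Fin r) F, aeval (t ∘ e) c = (p.coeff n : ℂ) := by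
    intro n
    have h2 : ∀ z ∈ Algebra.adjoin F (Set.range (t ∘ e)),
        ∃ c : MvPolynomial (Fin r) F, aeval (t ∘ e) c = z := by
      intro z hz
      rw [Algebra.adjoin_range_eq_range_aeval] at hz
      exact hz
    exact h2 _ (p.coeff n).2
  choose c hc using h1
  have key : ∀ u : κ → ℂ, (∀ i, u (e i) = t (e i)) →
      aeval u (∑ n ∈ Finset.range (p.natDegree + 1), rename e (c n) * X i ^ n) =
        Polynomial.aeval (u i) p := by
    intro u hu
    rw [map_sum, Polynomial.aeval_eq_sum_range]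
    refine Finset.sum_congr rfl fun n _ => ?_
    rw [map_mul, map_pow, aeval_X, aeval_rename]
    have h3 : u ∘ e = t ∘ e := funext hu
    rw [h3, hc n, Algebra.smul_def]
    rfl
  refine ⟨p, hp0, ?_⟩
  rw [← key s he]
  apply h
  rw [key t fun _ => rfl, hp]

/-- generic points over larger fields -/
theorem exists_gen (hI : A_IRR) (hD : A_DEF) {ι : Type} [Finite ι] {K K' : Subfield ℂ} (hK : Gd K)
    (hK' : Gd K') (h : K ≤ K') (x : ι → ℂ) :
    ∃ y, cl K' y = cl K x ∧ td K' y = td K x ∧ Sp K x y ∧ Sp K y x := by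
  have := hK'.1
  obtain ⟨K'', hK'', hKK, h'⟩ := hD ι K' (fun _ => cl K x) (Set.to_countable _) fun _ =>
    (hI ι K hK x).1
  obtain ⟨y, hy⟩ := h' 0
  have hy' : cl K x = cl K'' y := hy
  have h1 : Sp K x y := by
    have : y ∈ cl K x := hy' ▸ self_mem_cl y
    exact this
  have h2 : cl K' y = cl K x := by
    apply Set.Subset.antisymm
    · intro z hz
      exact h1.trans (Sp.mono h hz)
    · rw [hy']
      intro z hz
      exact Sp.mono hKK hz
  refine ⟨y, h2, ?_, h1, ?_⟩
  · have h3 := (hI ι K' hK' y).2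
    rw [h2, (hI ι K hK x).2] at h3
    exact_mod_cast h3.symm
  · have : x ∈ cl K' y := h2 ▸ self_mem_cl x
    exact Sp.mono h this

theorem td_anti (hA : AF) (hI : A_IRR) (hD : A_DEF) {ι : Type} [Finite ι] {K K' : Subfield ℂ}
    (hK : Gd K) (hK' : Gd K') (h : K ≤ K') (x : ι → ℂ) : td K' x ≤ td K x := by
  obtain ⟨y, h1, h2, h3, h4⟩ := exists_gen hI hD hK hK' h x
  have h5 : x ∈ cl K' y := h1 ▸ self_mem_cl x
  rw [← h2]
  exact (hA.1 ι K' y x h5).1

/-- finiteness over small fields -/
theorem fin_down (hA : AF) (hI : A_IRR) (hD : A_DEF) (hS : SF) {ι : Type} [Finite ι]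
    {C : Set (ι → ℂ)} {d : ℕ} (h : Ev C d) {K : Subfield ℂ} (hK : Gd K) (hC : ClK K C) :
    FinK K C d := by
  obtain ⟨S, hSc, h⟩ := h
  have := hK.1
  obtain ⟨K', hK', hKK, -⟩ := hD ι (K ∪ S) (fun _ => cl K (fun _ => 0))
    ((Set.to_countable _).union hSc) fun _ => (hI ι K hK _).1
  have hle : K ≤ K' := fun z hz => hKK (Or.inl hz)
  have hfin := h K' hK' (Set.subset_union_right.trans hKK)
  refine (hfin.image fun p => p.comap (map (Subfield.inclusion hle))).subset ?_
  rintro p ⟨x, hx, rfl⟩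
  obtain ⟨y, h1, h2, h3, h4⟩ := exists_gen hI hD hK hK' hle x
  have hsd : sd y ≤ sd x := (hS.2.1 ι K hK x y h3).1
  refine ⟨vI K' y, ⟨y, ⟨⟨hC.mem h3 hx.1.1, ?_⟩, ?_⟩, rfl⟩, ?_⟩
  · have := hx.1.2
    omega
  · intro z hz hzy
    have h5 : Dk K C d z := ⟨hz.1, by
      have := hz.2
      have := td_anti hA hI hD hK hK' hle z
      omega⟩
    have h6 := hx.2 z h5 ((hzy.mono hle).trans h4)
    have h7 : z ∈ cl K' y := h1 ▸ h6
    exact h7
  · have h8 : vI K x = vI K y := vI_eq h3 h4
    rw [h8]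
    ext f
    show aeval y (map (Subfield.inclusion hle) f) = 0 ↔ aeval y f = 0
    rw [aeval_def, eval₂_map, aeval_def]
    rfl

/-- iterated principal ideal theorem -/
theorem krull_list (hA : AF) {ι : Type} [Finite ι] {K : Subfield ℂ} (hK : Gd K)
    (a : ι → ℂ) (l : List (MvPolynomial ι K)) : (∀ f ∈ l, aeval a f = 0) →
    ∀ b, Sp K b a → ∃ b', Sp K b b' ∧ Sp K b' a ∧ vI K b' ∈ itm l (vI K b) ∧
      (∀ f ∈ l, aeval b' f = 0) ∧ td K b ≤ td K b' + l.length := by
  induction l with
  | nil =>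
    intro _ b hb
    exact ⟨b, Sp.refl b, hb, rfl, by simp, le_rfl⟩
  | cons f l ih =>
    intro hl b hb
    have hl' : ∀ f ∈ l, aeval a f = 0 := fun f hf => hl f (List.mem_cons_of_mem _ hf)
    by_cases hf : aeval b f = 0
    · obtain ⟨b', h1, h2, h3, h4, h5⟩ := ih hl' b hb
      refine ⟨b', h1, h2, ?_, ?_, by rw [List.length_cons]; omega⟩
      · have h6 : vI K b ⊔ Ideal.span {f} = vI K b := by
          rw [sup_eq_left, Ideal.span_le, Set.singleton_subset_iff]
          exact hf
        have h7 : vI K b ∈ (vI K b ⊔ Ideal.span {f}).minimalPrimes := by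
          rw [h6, Ideal.minimalPrimes_eq_subsingleton_self]
          rfl
        exact Set.mem_biUnion h7 h3
      · intro g hg
        rcases List.mem_cons.1 hg with rfl | hg
        · exact h1 _ hf
        · exact h4 g hg
    · obtain ⟨b₁, h1, h2, h3, h4, h5⟩ := hA.2.1 ι K hK b a f hb hf (hl f List.mem_cons_self)
      obtain ⟨b', g1, g2, g3, g4, g5⟩ := ih hl' b₁ h2
      refine ⟨b', h1.trans g1, g2, Set.mem_biUnion h5 g3, ?_, by rw [List.length_cons]; omega⟩
      intro g hg
      rcases List.mem_cons.1 hg with rfl | hg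
      · exact g1 _ h3
      · exact g4 g hg

end Pool.Agent.W2helper42.HL
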