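import Pool.Agent.W2helper42.HL.DescA

/-!
Project HL: descent of the field of definition, second part.
-/

set_option autoImplicit false

namespace Pool.Agent.W2helper42.HL

open UpperHalfPlane H294ZP MvPolynomial Cardinal
open Pool.Agent.W2helper3.HL (tr td_eq tr_ge tr_alg tr_union_le tr_fin)
open Pool.Agent.W2helper76.HL (mem_fld mem_fld_of_mem algebraic_of_mem algebraic_mono fld_le)

/-- lower bound for transcendence degrees over a smaller field -/
theorem td_ge (hLE : A_LE) {K K₁ : Subfield ℂ} (h : K ≤ K₁) {r : ℕ} {κ ζ : Type} [Finite κ]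
    [Finite ζ] {τ : Fin r → ℂ} (hτ : AlgebraicIndependent K τ) (hτK : ∀ i, τ i ∈ K₁)
    (y : κ → ℂ) (z : ζ → ℂ) (h1 : ∀ i, τ i ∈ fld K z) (h2 : ∀ j, y j ∈ fld K z) :
    td K₁ y + r ≤ td K z := by
  obtain ⟨m, e, he, halg⟩ := exists_basis K₁ y
  have hm : td K₁ y ≤ m := by
    refine hLE κ K₁ y m (y ∘ e) fun i => ?_
    have h3 : Algebra.adjoin K₁ (Set.range (y ∘ e)) ≤
        (IntermediateField.adjoin K₁ (Set.range (y ∘ e))).toSubalgebra :=
      IntermediateField.algebra_adjoin_le_adjoin _ _
    obtain ⟨p, hp0, hp⟩ := halg i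
    refine ⟨p.map (Subalgebra.inclusion h3).toRingHom, ?_, ?_⟩
    · exact (Polynomial.map_ne_zero_iff (Subalgebra.inclusion_injective h3)).2 hp0
    · rw [Polynomial.aeval_def, Polynomial.eval₂_map]
      exact hp
  have h4 : IntermediateField.adjoin K (Set.range τ) ≤
      IntermediateField.adjoin K (Set.range z) := by
    rw [IntermediateField.adjoin_le_iff]
    rintro _ ⟨i, rfl⟩
    exact h1 i
  -- `K(τ)` is contained in `K₁`
  have h5 : ∀ u ∈ IntermediateField.adjoin K (Set.range τ), u ∈ K₁ := by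
    intro u hu
    induction hu using IntermediateField.adjoin_induction with
    | mem u hu =>
      obtain ⟨i, rfl⟩ := hu
      exact hτK i
    | algebraMap u => exact h u.2
    | add u v _ _ hu hv => exact K₁.add_mem hu hv
    | inv u _ hu => exact K₁.inv_mem hu
    | mul u v _ _ hu hv => exact K₁.mul_mem hu hv
  let φ : IntermediateField.adjoin K (Set.range τ) →+* K₁ :=
    { toFun := fun u => ⟨u, h5 u u.2⟩
      map_one' := rfl
      map_mul' := fun _ _ => rfl
      map_zero' := rfl
      map_add' := fun _ _ => rfl }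
  have h6 : AlgebraicIndependent (IntermediateField.adjoin K (Set.range τ)) (y ∘ e) := by
    let _ : Algebra (IntermediateField.adjoin K (Set.range τ)) K₁ := φ.toAlgebra
    have : IsScalarTower (IntermediateField.adjoin K (Set.range τ)) K₁ ℂ :=
      IsScalarTower.of_algebraMap_eq fun _ => rfl
    exact AlgebraicIndependent.restrictScalars (K := K₁) φ.injective he
  have h7 := tr_ge K (y ∘ e) h4 h6 fun j => h2 (e j)
  have h8 : (r : Cardinal) ≤ tr K (Set.range τ) := by
    let t' : Fin r → IntermediateField.adjoin K (Set.range τ) := fun j =>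
      ⟨τ j, IntermediateField.subset_adjoin K _ ⟨j, rfl⟩⟩
    have g1 : AlgebraicIndependent K t' := by
      refine AlgebraicIndependent.of_comp
        (IntermediateField.val (IntermediateField.adjoin K (Set.range τ))) ?_
      exact hτ
    have g2 := g1.lift_cardinalMk_le_trdeg
    rw [tr]
    simpa using g2
  have h9 : ((m + r : ℕ) : Cardinal) ≤ tr K (Set.range z) := by
    push_cast
    rw [add_comm]
    refine le_trans ?_ h7
    gcongr
  rw [td_eq K z]
  have h10 := Cardinal.toNat_le_toNat h9 (tr_fin K (Set.finite_range z))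
  rw [Cardinal.toNat_natCast] at h10
  omega

/-- the new coordinates are pairwise algebraically independent -/
theorem pw {ι : Type} [Finite ι] {K₁ : Subfield ℂ} {q : ℕ} {x : ι → ℂ} {p : Fin (q + q) → ℂ}
    (hp : AlgebraicIndependent (fld K₁ x) p) {t : Fin q → ℂ} (ht : ∀ i, t i ∈ K₁)
    {w : Fin 3 × Fin q → ℂ} (hw0 : ∀ i, w (0, i) = p (Fin.castAdd q i))
    (hw1 : ∀ i, w (1, i) = p (Fin.natAdd q i))
    (hw2 : ∀ i, w (0, i) + w (1, i) + w (2, i) = t i) {a b : Fin 3 × Fin q} (hab : a ≠ b) :
    ¬ IsAlgebraic (IntermediateField.adjoin K₁ (Set.range x ∪ {w a})) (w b) := by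
  classical
  intro hcon
  obtain ⟨c, hca, hcb⟩ : ∃ c : Fin 3, c ≠ a.1 ∧ c ≠ b.1 := by
    have : ∀ u v : Fin 3, ∃ c : Fin 3, c ≠ u ∧ c ≠ v := by decide
    exact this _ _
  let I : Finset (Fin 3 × Fin q) := ((Finset.univ.erase c) ×ˢ Finset.univ).erase b
  have hI : I.card + 1 = q + q := by
    have h1 : b ∈ ((Finset.univ.erase c) ×ˢ (Finset.univ : Finset (Fin q))) := by
      simp [hcb.symm]
    have h2 := Finset.card_erase_add_one h1
    rw [Finset.card_product, Finset.card_erase_of_mem (Finset.mem_univ _)] at h2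
    simp only [Finset.card_univ, Fintype.card_fin] at h2
    have h3 : I.card + 1 = (3 - 1) * q := h2
    omega
  let M := IntermediateField.adjoin K₁ (Set.range x ∪ w '' (I : Set (Fin 3 × Fin q)))
  have hmem : ∀ s ∈ I, w s ∈ M := fun s hs =>
    IntermediateField.subset_adjoin K₁ _ (Or.inr ⟨s, hs, rfl⟩)
  have haI : a ∈ I := by
    simp [I, hca.symm, hab]
  have hb : IsAlgebraic M (w b) := by
    refine algebraic_mono ?_ hcon
    rw [IntermediateField.adjoin_le_iff]
    rintro u (hu | hu)
    · exact IntermediateField.subset_adjoin K₁ _ (Or.inl hu)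
    · rw [Set.mem_singleton_iff.1 hu]
      exact hmem a haI
  have h1 : ∀ s : Fin 3 × Fin q, s.1 ≠ c → IsAlgebraic M (w s) := by
    intro s hs
    by_cases hsb : s = b
    · rw [hsb]; exact hb
    · exact algebraic_of_mem M (hmem s (by simp [I, hs, hsb]))
  have h2 : ∀ s : Fin 3 × Fin q, IsAlgebraic M (w s) := by
    rintro ⟨s, i⟩
    by_cases hs : s = c
    · have h3 : IsAlgebraic M (t i) := algebraic_of_mem M (mem_fld_of_mem M (ht i))
      have h4 : w (s, i) = t i - w (s + 1, i) - w (s + 2, i) := by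
        rw [← hw2 i]
        have : ∀ s : Fin 3, s = 0 ∨ s = 1 ∨ s = 2 := by decide
        rcases this s with rfl | rfl | rfl
        · show w (0, i) = w (0, i) + w (1, i) + w (2, i) - w (1, i) - w (2, i)
          ring
        · show w (1, i) = w (0, i) + w (1, i) + w (2, i) - w (2, i) - w (0, i)
          ring
        · show w (2, i) = w (0, i) + w (1, i) + w (2, i) - w (0, i) - w (1, i)
          ring
      have h5 : ∀ s : Fin 3, s + 1 ≠ s ∧ s + 2 ≠ s := by decide
      rw [h4]
      refine (h3.sub (h1 _ ?_)).sub (h1 _ ?_)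
      · rw [← hs]; exact (h5 s).1
      · rw [← hs]; exact (h5 s).2
    · exact h1 _ hs
  have e1 : tr K₁ (Set.range x) + ((q + q : ℕ) : Cardinal) ≤
      tr K₁ (Set.range x ∪ Set.range p) := by
    refine tr_ge K₁ p ?_ hp fun j => ?_
    · exact IntermediateField.adjoin.mono _ _ _ Set.subset_union_left
    · exact IntermediateField.subset_adjoin K₁ _ (Or.inr ⟨j, rfl⟩)
  have e2 : tr K₁ (Set.range x ∪ Set.range p) ≤
      tr K₁ (Set.range x ∪ w '' (I : Set (Fin 3 × Fin q))) := by
    refine tr_alg K₁ ?_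
    rintro u (⟨i, rfl⟩ | ⟨j, rfl⟩)
    · exact algebraic_of_mem M (IntermediateField.subset_adjoin K₁ _ (Or.inl ⟨i, rfl⟩))
    · induction j using Fin.addCases with
      | left j => rw [← hw0]; exact h2 _
      | right j => rw [← hw1]; exact h2 _
  have e3 := tr_union_le K₁ (Set.range x) (w '' (I : Set (Fin 3 × Fin q)))
  have e4 : #(w '' (I : Set (Fin 3 × Fin q))) ≤ (I.card : Cardinal) := by
    refine Cardinal.mk_image_le.trans ?_
    simp
  have e5 : tr K₁ (Set.range x) + ((q + q : ℕ) : Cardinal) ≤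
      tr K₁ (Set.range x) + (I.card : Cardinal) :=
    (e1.trans e2).trans (e3.trans (by gcongr))
  obtain ⟨n, hn⟩ := Cardinal.lt_aleph0.1 (tr_fin K₁ (Set.finite_range x))
  rw [hn] at e5
  have e6 : n + (q + q) ≤ n + I.card := by exact_mod_cast e5
  omega

end Pool.Agent.W2helper42.HL
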