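import Pool.Agent.W2helper42.HL.DescB

/-!
Project HL: descent of the field of definition, third part.
-/

set_option autoImplicit false

namespace Pool.Agent.W2helper42.HL

open UpperHalfPlane H294ZP MvPolynomial Cardinal
open Pool.Agent.W2helper76.HL (mem_fld mem_fld_of_mem algebraic_of_mem algebraic_mono fld_le
  alg_mem_fld)

/-- the sums of the three new coordinates -/
def S3 {ι : Type} {q : ℕ} (z : ι ⊕ (Fin 3 × Fin q) → ℂ) : Fin q → ℂ := fun i =>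
  z (Sum.inr (0, i)) + z (Sum.inr (1, i)) + z (Sum.inr (2, i))

theorem alg_up {r : ℕ} {K₁ : Subfield ℂ} {κ : Type} {t : κ → ℂ} (e : Fin r → κ)
    (ht : ∀ i, t i ∈ K₁) {u : ℂ}
    (hu : IsAlgebraic (Algebra.adjoin (⊥ : Subfield ℂ) (Set.range (t ∘ e))) u) :
    IsAlgebraic K₁ u := by
  have h5 : ∀ u ∈ Algebra.adjoin (⊥ : Subfield ℂ) (Set.range (t ∘ e)), u ∈ K₁ := by
    intro u hu
    induction hu using Algebra.adjoin_induction with
    | mem u hu =>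
      obtain ⟨i, rfl⟩ := hu
      exact ht _
    | algebraMap u => exact (bot_le : (⊥ : Subfield ℂ) ≤ K₁) u.2
    | add u v _ _ hu hv => exact K₁.add_mem hu hv
    | mul u v _ _ hu hv => exact K₁.mul_mem hu hv
  let φ : Algebra.adjoin (⊥ : Subfield ℂ) (Set.range (t ∘ e)) →+* K₁ :=
    { toFun := fun u => ⟨u, h5 u u.2⟩
      map_one' := rfl
      map_mul' := fun _ _ => rfl
      map_zero' := rfl
      map_add' := fun _ _ => rfl }
  have hφ : Function.Injective φ := by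
    intro u v huv
    exact Subtype.ext (congrArg (fun z : K₁ => (z : ℂ)) huv)
  obtain ⟨p, hp0, hp⟩ := hu
  refine ⟨p.map φ, (Polynomial.map_ne_zero_iff hφ).2 hp0, ?_⟩
  rw [Polynomial.aeval_def, Polynomial.eval₂_map]
  exact hp

theorem desc_step (hJ : JF) (hA : AF) (hI : A_IRR) (hD : A_DEF) (hS : SF) {ι : Type} [Finite ι]
    {q r k k' : ℕ} (hk : k' + r = k + q) (P : (ι → ℂ) → (Fin q → ℂ) → Prop)
    (t : Fin q → ℂ) (e : Fin r → Fin q) {K : Subfield ℂ} (hK : Gd K)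
    (hind : AlgebraicIndependent K (t ∘ e))
    (halg : ∀ i, IsAlgebraic (Algebra.adjoin (⊥ : Subfield ℂ) (Set.range (t ∘ e))) (t i))
    (C' : Set (ι ⊕ (Fin 3 × Fin q) → ℂ)) (hC' : ClK K C')
    (hmem : ∀ z, z ∈ C' ↔ P (fun i => z (Sum.inl i)) (S3 z) ∧ Sp ⊥ t (S3 z))
    (hfin : FinK K C' k') {K₁ : Subfield ℂ} (hK₁ : Gd K₁) (h : K ≤ K₁) (ht : ∀ i, t i ∈ K₁) :
    FinK K₁ {x | P x t} k := by
  classical
  obtain ⟨hM, hKR, hG, hLE, hSLE, hSGE, hNEW⟩ := id hA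
  obtain ⟨sTD, sMONO, sREL, sLE, sGE, sSTAR⟩ := id hS
  obtain ⟨jP, jR, jH⟩ := id hJ
  let f : Fin r → MvPolynomial (ι ⊕ (Fin 3 × Fin q)) K₁ := fun i =>
    X (Sum.inr (0, e i)) + X (Sum.inr (1, e i)) + X (Sum.inr (2, e i)) - C ⟨t (e i), ht _⟩
  let l : List (MvPolynomial (ι ⊕ (Fin 3 × Fin q)) K₁) := List.ofFn f
  have hf : ∀ (z : ι ⊕ (Fin 3 × Fin q) → ℂ) i, aeval z (f i) = S3 z (e i) - t (e i) := by
    intro z i
    simp only [f, S3, map_sub, map_add, aeval_X, aeval_C]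
    rfl
  have hl : ∀ z : ι ⊕ (Fin 3 × Fin q) → ℂ, (∀ g ∈ l, aeval z g = 0) ↔
      ∀ i, S3 z (e i) = t (e i) := by
    intro z
    constructor
    · intro hz i
      have := hz (f i) (List.mem_ofFn.2 ⟨i, rfl⟩)
      rw [hf] at this
      exact sub_eq_zero.1 this
    · intro hz g hg
      obtain ⟨i, rfl⟩ := List.mem_ofFn.1 hg
      rw [hf, hz i, sub_self]
  let Q : Ideal (MvPolynomial (ι ⊕ (Fin 3 × Fin q)) K) →
      Ideal (MvPolynomial (ι ⊕ (Fin 3 × Fin q)) K₁) := fun p =>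
    if h : ∃ y, cl K₁ y = {z | ∀ g ∈ p, aeval z g = 0} then vI K₁ h.choose else ⊥
  have hfin2 : ((fun p : Ideal (MvPolynomial (ι ⊕ (Fin 3 × Fin q)) K₁) =>
      p.comap (rename Sum.inl : MvPolynomial ι K₁ →ₐ[K₁] MvPolynomial (ι ⊕ (Fin 3 × Fin q)) K₁)) ''
      (⋃ p ∈ {p | ∃ x, Mx K C' k' x ∧ vI K x = p}, itm l (Q p))).Finite :=
    (hfin.biUnion fun p _ => itm_finite l (Q p)).image _
  refine hfin2.subset ?_
  rintro _ ⟨x, hx, rfl⟩
  -- masks
  obtain ⟨p, hp⟩ := hNEW ι K₁ hK₁ x (q + q)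
  let w : Fin 3 × Fin q → ℂ := fun s => if s.1 = 0 then p (Fin.castAdd q s.2) else
    if s.1 = 1 then p (Fin.natAdd q s.2) else
      t s.2 - p (Fin.castAdd q s.2) - p (Fin.natAdd q s.2)
  have hw0 : ∀ i, w (0, i) = p (Fin.castAdd q i) := fun i => rfl
  have hw1 : ∀ i, w (1, i) = p (Fin.natAdd q i) := fun i => rfl
  have hw2 : ∀ i, w (0, i) + w (1, i) + w (2, i) = t i := by
    intro i
    show p (Fin.castAdd q i) + p (Fin.natAdd q i) +
      (t i - p (Fin.castAdd q i) - p (Fin.natAdd q i)) = t i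
    ring
  let z : ι ⊕ (Fin 3 × Fin q) → ℂ := Sum.elim x w
  have hS3 : S3 z = t := funext hw2
  have hzC : z ∈ C' := by
    rw [hmem, hS3]
    exact ⟨hx.1.1, Sp.refl t⟩
  -- no relations
  have hpw : ∀ a b : Fin 3 × Fin q, a ≠ b →
      ¬ IsAlgebraic (IntermediateField.adjoin K₁ (Set.range x ∪ {w a})) (w b) := fun a b hab =>
    pw hp ht hw0 hw1 hw2 hab
  have htr : ∀ a, ¬ IsAlgebraic (fld K₁ x) (w a) := by
    rintro ⟨a, i⟩ hcon
    have hne : ∀ a : Fin 3, a + 1 ≠ a := by decide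
    refine hpw (a + 1, i) (a, i) (fun h => hne a (congrArg Prod.fst h))
      (algebraic_mono (IntermediateField.adjoin.mono _ _ _ Set.subset_union_left) hcon)
  have hns : ∀ a, ¬ SpecialPoint (w a) := fun a hs =>
    htr a (algebraic_of_mem _ (alg_mem_fld hK₁ _ (jR.2.2.2.2.2 _ hs)))
  have hni : ∀ a b, a ≠ b → ¬ Isog (w a) (w b) := fun a b hab hi =>
    hpw a b hab (Pool.Agent.W2helper76.HL.isog_alg jP hK₁ _ hi
      (IntermediateField.subset_adjoin _ _ (Or.inr rfl)))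
  have hnx : ∀ i a, ¬ Isog (x i) (w a) := fun i a hi =>
    htr a (Pool.Agent.W2helper76.HL.isog_alg jP hK₁ _ hi (mem_fld K₁ x i))
  -- transcendence degrees
  have htd : td K₁ x + (q + q) + r ≤ td K z := by
    have g1 : td K₁ x + (q + q) ≤ td K₁ (Sum.elim x p) :=
      hSGE ι (Fin (q + q)) K₁ x p (q + q) p hp fun j => mem_fld K₁ (Sum.elim x p) (Sum.inr j)
    have g2 : td K₁ (Sum.elim x p) + r ≤ td K z := by
      refine td_ge hLE h hind (fun i => ht _) (Sum.elim x p) z ?_ ?_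
      · intro i
        show t (e i) ∈ fld K z
        rw [← hw2 (e i)]
        exact add_mem (add_mem (mem_fld K z (Sum.inr (0, e i))) (mem_fld K z (Sum.inr (1, e i))))
          (mem_fld K z (Sum.inr (2, e i)))
      · rintro (i | j)
        · exact mem_fld K z (Sum.inl i)
        · show p j ∈ fld K z
          induction j using Fin.addCases with
          | left j => rw [← hw0]; exact mem_fld K z (Sum.inr (0, j))
          | right j => rw [← hw1]; exact mem_fld K z (Sum.inr (1, j))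
    omega
  have hcard : Nat.card (Fin 3 × Fin q) = 3 * q := by simp
  have hsd : sd z ≤ sd x + Nat.card (Fin 3 × Fin q) :=
    sLE ι (Fin 3 × Fin q) (Fin 3 × Fin q) x w id fun j => ⟨j, 1, one_pos, jR.1 _⟩
  have hDk : Dk K C' k' z := ⟨hzC, by
    have := hx.1.2
    omega⟩
  obtain ⟨b, hb, hbz⟩ := exists_mx hA hK hDk
  obtain ⟨y₀, hy1, hy2, hy3, hy4⟩ := exists_gen hI hD hK hK₁ h b
  have hy0z : Sp K₁ y₀ z := by
    have : z ∈ cl K₁ y₀ := hy1 ▸ hbz
    exact this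
  obtain ⟨z₂, h1, h2, h3, h4, h5⟩ := krull_list hA hK₁ z l ((hl z).2 fun i => by rw [hS3]) y₀ hy0z
  have hz₂b : Sp K b z₂ := by
    have g1 : z₂ ∈ cl K₁ y₀ := h1
    rw [hy1] at g1
    exact g1
  have hz₂C : z₂ ∈ C' := hC'.mem hz₂b hb.1.1
  obtain ⟨hP, hT⟩ := (hmem z₂).1 hz₂C
  have hse : ∀ i, S3 z₂ (e i) = t (e i) := (hl z₂).1 h4
  have hsK : ∀ i, S3 z₂ i ∈ K₁ := fun i =>
    mem_of_algebraic hK₁ (alg_up e ht (alg_of_sp e hT hse i (halg i)))
  have hst : S3 z₂ = t := by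
    funext i
    have g1 := h2 (X (Sum.inr (0, i)) + X (Sum.inr (1, i)) + X (Sum.inr (2, i)) -
      C ⟨S3 z₂ i, hsK i⟩) (by
        simp only [map_sub, map_add, aeval_X, aeval_C]
        exact sub_self _)
    simp only [map_sub, map_add, aeval_X, aeval_C] at g1
    have g2 := sub_eq_zero.1 g1
    have g3 : S3 z i = S3 z₂ i := g2
    rw [← g3, hS3]
  set x₂ : ι → ℂ := fun i => z₂ (Sum.inl i) with hx₂
  set w₂ : Fin 3 × Fin q → ℂ := fun s => z₂ (Sum.inr s) with hw₂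
  have hzz : z₂ = Sum.elim x₂ w₂ := by
    funext s
    rcases s with s | s <;> rfl
  -- bounds
  have hrel := sREL _ K₁ hK₁ z₂ z h2
  have b1 : sd x₂ + Nat.card (Fin 3 × Fin q) ≤ sd z₂ := by
    rw [hzz]
    refine sGE ι (Fin 3 × Fin q) (Fin 3 × Fin q) x₂ w₂ id ?_ ?_ ?_
    · intro a ha
      have g1 := hrel.2 (Sum.inr a) ha
      have g2 : w a = w₂ a := g1
      exact hns a (by rw [g2]; exact ha)
    · rintro a b hab ⟨N, hN, hc⟩
      exact hni a b hab ⟨N, hN, hrel.1 (Sum.inr a) (Sum.inr b) N hN hc⟩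
    · rintro i a ⟨N, hN, hc⟩
      exact hnx i a ⟨N, hN, hrel.1 (Sum.inl i) (Sum.inr a) N hN hc⟩
  have b2 : sd z₂ ≤ sd b := (sMONO _ K hK b z₂ hz₂b).1
  have b3 := hb.1.2
  have b4 : td K₁ y₀ ≤ td K₁ z₂ + r := by simpa [l] using h5
  have b5 : td K₁ z₂ ≤ td K₁ x₂ + (q + q) := by
    rw [hzz]
    let u : Fin (q + q) → ℂ := Fin.addCases (fun i => w₂ (0, i)) fun i => w₂ (1, i)
    refine hSLE ι (Fin 3 × Fin q) K₁ x₂ w₂ (q + q) u ?_
    have u0 : ∀ i, w₂ (0, i) ∈ fld K₁ (Sum.elim x₂ u) := by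
      intro i
      have hu : u (Fin.castAdd q i) = w₂ (0, i) := Fin.addCases_left _
      rw [← hu]
      exact mem_fld K₁ (Sum.elim x₂ u) (Sum.inr (Fin.castAdd q i))
    have u1 : ∀ i, w₂ (1, i) ∈ fld K₁ (Sum.elim x₂ u) := by
      intro i
      have hu : u (Fin.natAdd q i) = w₂ (1, i) := Fin.addCases_right _
      rw [← hu]
      exact mem_fld K₁ (Sum.elim x₂ u) (Sum.inr (Fin.natAdd q i))
    rintro ⟨a, i⟩
    apply algebraic_of_mem
    have h3 : ∀ a : Fin 3, a = 0 ∨ a = 1 ∨ a = 2 := by decide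
    rcases h3 a with rfl | rfl | rfl
    · exact u0 i
    · exact u1 i
    · have g1 : w₂ (2, i) = t i - w₂ (0, i) - w₂ (1, i) := by
        rw [← hst]
        show w₂ (2, i) = w₂ (0, i) + w₂ (1, i) + w₂ (2, i) - w₂ (0, i) - w₂ (1, i)
        ring
      rw [g1]
      exact sub_mem (sub_mem (mem_fld_of_mem _ (ht i)) (u0 i)) (u1 i)
  have hDx : Dk K₁ {x | P x t} k x₂ := by
    refine ⟨?_, by omega⟩
    rw [hst] at hP
    exact hP
  have hSpx : Sp K₁ x₂ x := h2.comp Sum.inl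
  have h6 := hx.2 x₂ hDx hSpx
  refine ⟨vI K₁ z₂, Set.mem_biUnion (x := vI K b) ⟨b, hb, rfl⟩ ?_, ?_⟩
  · have hclb : cl K b = {z | ∀ g ∈ vI K b, aeval z g = 0} := rfl
    have hex : ∃ y, cl K₁ y = {z | ∀ g ∈ vI K b, aeval z g = 0} := ⟨y₀, by rw [hy1, hclb]⟩
    have hQ : Q (vI K b) = vI K₁ y₀ := by
      have g1 : Q (vI K b) = vI K₁ hex.choose := dif_pos hex
      rw [g1]
      have g2 : cl K₁ hex.choose = cl K₁ y₀ := by rw [hex.choose_spec, hy1, hclb]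
      exact vI_eq (cl_subset_iff.1 g2.symm.subset) (cl_subset_iff.1 g2.subset)
    rw [hQ]
    exact h3
  · show (vI K₁ z₂).comap (rename Sum.inl) = vI K₁ x
    rw [← vI_comp]
    exact vI_eq hSpx h6

end Pool.Agent.W2helper42.HL
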