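import Pool.Agent.W2helper42.HL.Geo

/-!
Project HL: finiteness over `ℂ` and over countable fields.
-/

set_option autoImplicit false

namespace Pool.Agent.W2helper42.HL

open UpperHalfPlane H294ZP MvPolynomial

/-- a polynomial with coefficients in `K` -/
theorem lift_mv {ι : Type} {K : Subfield ℂ} (f : MvPolynomial ι ℂ) (h : ∀ m, f.coeff m ∈ K) :
    ∃ g : MvPolynomial ι K, ∀ x : ι → ℂ, aeval x g = eval x f := by
  have h1 : f ∈ Set.range (MvPolynomial.map (σ := ι) (algebraMap K ℂ)) := by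
    rw [MvPolynomial.mem_range_map_iff_coeffs_subset]
    intro c hc
    rw [MvPolynomial.coeffs, Finset.mem_coe, Finset.mem_image] at hc
    obtain ⟨m, -, rfl⟩ := hc
    exact ⟨⟨_, h m⟩, rfl⟩
  obtain ⟨g, hg⟩ := h1
  refine ⟨g, fun x => ?_⟩
  rw [← hg, MvPolynomial.aeval_def, MvPolynomial.eval_map]

/-- closed over all large countable algebraically closed fields -/
def EvC {ι : Type} (C : Set (ι → ℂ)) : Prop :=
  ∃ S : Set ℂ, S.Countable ∧ ∀ K : Subfield ℂ, Gd K → S ⊆ K → ClK K C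

/-- the coefficients of finitely many polynomials -/
theorem coeffs_countable {ι : Type} [Finite ι] {J : Type} [Finite J]
    (f : J → MvPolynomial ι ℂ) : (Set.range fun p : J × (ι →₀ ℕ) => (f p.1).coeff p.2).Countable :=
  Set.countable_range _

theorem evC_of_eqs {ι : Type} [Finite ι] {J : ℕ} (f : Fin J → MvPolynomial ι ℂ) :
    EvC {x : ι → ℂ | ∀ j, eval x (f j) = 0} := by
  refine ⟨_, coeffs_countable f, fun K hK hS => ?_⟩
  choose g hg using fun j => lift_mv (K := K) (f j) fun m => hS ⟨(j, m), rfl⟩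
  refine ⟨Set.range g, ?_⟩
  ext x
  simp only [Set.mem_ofPred_eq, Set.forall_mem_range, hg]

/-- points of small defect give small sets -/
theorem small_cl (hA : AF) (hI : A_IRR) (hD : A_DEF) (hS : SF) {ι : Type} [Finite ι]
    {K : Subfield ℂ} (hK : Gd K) {C : Set (ι → ℂ)} (hC : ClK K C) {d : ℕ} {x : ι → ℂ}
    (hx : Dk K C d x) : Small C d (cl K x) := by
  obtain ⟨S, hS1, hS2, hS3⟩ := exists_special hA hI hD hS hK x
  refine ⟨(hI ι K hK x).1, fun y hy => hC.mem hy hx.1, S, hS1, hS2, ?_⟩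
  rw [hS3, (hI ι K hK x).2]
  exact_mod_cast hx.2

/-- small sets have generic points of small defect -/
theorem dk_of_small (hI : A_IRR) (hD : A_DEF) (hS : SF) {ι : Type} [Finite ι]
    {K : Subfield ℂ} (hK : Gd K) {C : Set (ι → ℂ)} {d : ℕ} {x : ι → ℂ}
    (hx : Small C d (cl K x)) : Dk K C d x := by
  obtain ⟨h1, h2, S, hS1, hS2, hS3⟩ := hx
  have h4 := (sd_le_dim hI hD hS hS1 (hS2 (self_mem_cl x))).trans_lt hS3
  rw [(hI ι K hK x).2] at h4
  exact ⟨h2 (self_mem_cl x), by exact_mod_cast h4⟩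

theorem ev_of_finite (hA : AF) (hI : A_IRR) (hD : A_DEF) (hS : SF) {ι : Type} [Finite ι]
    {C : Set (ι → ℂ)} (hC : EvC C) {d : ℕ} (h : FiniteDefect C d) : Ev C d := by
  classical
  obtain ⟨S₀, hS₀, hC⟩ := hC
  have h1 : ∀ A : {A : Set (ι → ℂ) // Small C d A ∧ ∀ B, Small C d B → A ⊆ B → A = B},
      ∃ S : Set ℂ, S.Countable ∧ ∀ K : Subfield ℂ, Gd K → S ⊆ K → ∃ x, A.1 = cl K x := fun A =>
    exists_def hD A.2.1.1
  choose S hSc hSd using h1
  have hfin : Finite {A : Set (ι → ℂ) // Small C d A ∧ ∀ B, Small C d B → A ⊆ B → A = B} :=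
    h.to_subtype
  refine ⟨S₀ ∪ ⋃ A, S A, hS₀.union (Set.countable_iUnion hSc), fun K hK hSK => ?_⟩
  have hCK := hC K hK (Set.subset_union_left.trans hSK)
  choose b hb using fun A => hSd A K hK ((Set.subset_iUnion S A).trans
    (Set.subset_union_right.trans hSK))
  refine (Set.finite_range fun A => vI K (b A)).subset ?_
  rintro p ⟨x, hx, rfl⟩
  obtain ⟨B, hB, hxB, hmax⟩ := exists_max hA hI hD (fun A => Small C d A) (fun A hA => hA.1)
    (small_cl hA hI hD hS hK hCK hx.1)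
  let A : {A : Set (ι → ℂ) // Small C d A ∧ ∀ B, Small C d B → A ⊆ B → A = B} := ⟨B, hB, hmax⟩
  have h2 : B = cl K (b A) := hb A
  have h3 : Sp K (b A) x := by
    rw [h2] at hxB
    exact cl_subset_iff.1 hxB
  have h4 : Dk K C d (b A) := dk_of_small hI hD hS hK (h2 ▸ hB)
  exact ⟨A, vI_eq h3 (hx.2 _ h4 h3)⟩

theorem finite_of_ev (hA : AF) (hI : A_IRR) (hD : A_DEF) (hS : SF) {ι : Type} [Finite ι]
    {C : Set (ι → ℂ)} (hC : EvC C) {d : ℕ} (h : Ev C d) : FiniteDefect C d := by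
  classical
  obtain ⟨S₀, hS₀, hC⟩ := hC
  obtain ⟨S₁, hS₁, h⟩ := h
  by_contra hinf
  have hinf' : {A : Set (ι → ℂ) | Small C d A ∧ ∀ B, Small C d B → A ⊆ B → A = B}.Infinite := hinf
  let e := hinf'.natEmbedding
  obtain ⟨K, hK, hSK, hx⟩ := hD ι (S₀ ∪ S₁) (fun i => (e i).1) (hS₀.union hS₁) fun i =>
    (e i).2.1.1
  have hCK := hC K hK (Set.subset_union_left.trans hSK)
  have hfin := h K hK (Set.subset_union_right.trans hSK)
  choose x hx using hx
  have h1 : ∀ i, Mx K C d (x i) := by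
    intro i
    have h2 := (e i).2
    rw [hx i] at h2
    refine ⟨dk_of_small hI hD hS hK h2.1, fun y hy hyx => ?_⟩
    have h3 := h2.2 _ (small_cl hA hI hD hS hK hCK hy) (cl_subset_iff.2 hyx)
    exact cl_subset_iff.1 h3.symm.subset
  have h2 : Function.Injective fun i => vI K (x i) := by
    intro i j hij
    apply e.injective
    apply Subtype.ext
    rw [hx i, hx j]
    have h3 : vI K (x i) = vI K (x j) := hij
    exact cl_eq (sp_iff.2 h3.le) (sp_iff.2 h3.symm.le)
  exact Set.infinite_range_of_injective h2 (hfin.subset (by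
    rintro p ⟨i, rfl⟩
    exact ⟨x i, h1 i, rfl⟩))

end Pool.Agent.W2helper42.HL
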