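import Pool.Agent.W2helper42.HL.Fin
import Pool.Agent.W2helper55.HL.Cp

/-!
Project HL: linear subspaces.
-/

set_option autoImplicit false

namespace Pool.Agent.W2helper42.HL

open UpperHalfPlane H294ZP MvPolynomial

/-- polynomials of degree at most one on lines -/
theorem eval_line {ι : Type} [Finite ι] {L : MvPolynomial ι ℂ} (hL : L.totalDegree ≤ 1)
    (a b : ι → ℂ) (t : ℂ) :
    eval (fun i => a i + t * (b i - a i)) L = (1 - t) * eval a L + t * eval b L := by
  have := Fintype.ofFinite ι
  have h2 : ∀ x : ι → ℂ, eval x L = L.coeff 0 + ∑ i, L.coeff (Finsupp.single i 1) * x i := by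
    intro x
    conv_lhs => rw [Pool.Agent.W2helper55.HL.form1 hL]
    simp
  rw [h2, h2, h2, mul_add, mul_add, Finset.mul_sum, Finset.mul_sum, add_add_add_comm,
    ← Finset.sum_add_distrib]
  congr 1
  · ring
  · exact Finset.sum_congr rfl fun i _ => by ring

/-- nonempty linear subspaces are irreducible -/
theorem irr_linear {ι : Type} [Finite ι] {m : ℕ} {L : Fin m → MvPolynomial ι ℂ}
    (hL : ∀ i, (L i).totalDegree ≤ 1) {a₀ : ι → ℂ} (ha₀ : ∀ i, eval a₀ (L i) = 0) :
    Irr {x : ι → ℂ | ∀ i, eval x (L i) = 0} := by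
  refine ⟨vanishingIdeal ℂ {x : ι → ℂ | ∀ i, eval x (L i) = 0}, ?_, ?_⟩
  · refine ⟨?_, ?_⟩
    · intro h
      have h1 : (1 : MvPolynomial ι ℂ) ∈
          vanishingIdeal ℂ {x : ι → ℂ | ∀ i, eval x (L i) = 0} := by
        rw [h]; trivial
      rw [mem_vanishingIdeal_iff] at h1
      have h2 := h1 a₀ ha₀
      simp at h2
    · intro f g hfg
      by_contra hcon
      rw [not_or, mem_vanishingIdeal_iff, mem_vanishingIdeal_iff] at hcon
      push Not at hcon
      obtain ⟨⟨a, ha, hfa⟩, b, hb, hgb⟩ := hcon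
      let l : MvPolynomial ι ℂ →ₐ[ℂ] Polynomial ℂ :=
        aeval fun i => Polynomial.C (a i) + Polynomial.X * Polynomial.C (b i - a i)
      have hl : ∀ (t : ℂ) (h : MvPolynomial ι ℂ), (l h).eval t =
          eval (fun i => a i + t * (b i - a i)) h := by
        intro t h
        have h1 : ((Polynomial.aeval t).comp l : MvPolynomial ι ℂ →ₐ[ℂ] ℂ) =
            aeval fun i => a i + t * (b i - a i) := by
          ext i
          simp [l]
        have h2 := congrArg (fun F : MvPolynomial ι ℂ →ₐ[ℂ] ℂ => F h) h1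
        simpa [Polynomial.coe_aeval_eq_eval, MvPolynomial.aeval_eq_eval] using h2
      have h3 : l f * l g = 0 := by
        apply Polynomial.funext
        intro t
        rw [← map_mul, hl, Polynomial.eval_zero]
        rw [mem_vanishingIdeal_iff] at hfg
        have h4 := hfg (fun i => a i + t * (b i - a i)) (by
          intro i
          rw [eval_line (hL i), ha i, hb i]
          ring)
        simpa [MvPolynomial.aeval_eq_eval] using h4
      rcases mul_eq_zero.1 h3 with h | h
      · apply hfa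
        have h5 := hl 0 f
        rw [h] at h5
        simp only [Polynomial.eval_zero, zero_mul, add_zero] at h5
        simpa [MvPolynomial.aeval_eq_eval] using h5.symm
      · apply hgb
        have h5 := hl 1 g
        rw [h] at h5
        simp only [Polynomial.eval_zero, one_mul, add_sub_cancel] at h5
        simpa [MvPolynomial.aeval_eq_eval] using h5.symm
  · ext x
    constructor
    · intro hx f hf
      rw [mem_vanishingIdeal_iff] at hf
      simpa [MvPolynomial.aeval_eq_eval] using hf x hx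
    · intro hx i
      refine hx _ ?_
      rw [mem_vanishingIdeal_iff]
      intro y hy
      simpa [MvPolynomial.aeval_eq_eval] using hy i

/-- the dimension of a set given by `m` equations -/
theorem le_td_add (hA : AF) {ι : Type} [Finite ι] {K : Subfield ℂ} (hK : Gd K) {a : ι → ℂ}
    {m : ℕ} (f : Fin m → MvPolynomial ι K) (ha : ∀ i, aeval a (f i) = 0) :
    ∃ b, Sp K b a ∧ (∀ i, aeval b (f i) = 0) ∧ Nat.card ι ≤ td K b + m := by
  induction m with
  | zero =>
    obtain ⟨b, hb, hb'⟩ := hA.2.2.1 ι K hK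
    exact ⟨b, hb' a, fun i => i.elim0, by omega⟩
  | succ m ih =>
    obtain ⟨b, h1, h2, h3⟩ := ih (fun i => f i.castSucc) fun i => ha _
    by_cases hf : aeval b (f (Fin.last m)) = 0
    · refine ⟨b, h1, fun i => ?_, by omega⟩
      induction i using Fin.lastCases with
      | last => exact hf
      | cast i => exact h2 i
    · obtain ⟨b', g1, g2, g3, g4, -⟩ := hA.2.1 ι K hK b a _ h1 hf (ha _)
      refine ⟨b', g2, fun i => ?_, by omega⟩
      induction i using Fin.lastCases with
      | last => exact g3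
      | cast i => exact g1 _ (h2 i)

/-- the Zilber-Pink conjecture for one linear subspace -/
theorem lin_ev1 (hA : AF) (hI : A_IRR) (hD : A_DEF) (hS : SF) {k : Subfield ℂ}
    {ι : Type} [Finite ι] {m : ℕ} {C : Set (ι → ℂ)} (hC : LinearOver k m C) (hne : C.Nonempty)
    (hZ : ZilberPink C) : Ev C m := by
  obtain ⟨L, hL, rfl⟩ := hC
  obtain ⟨a₀, ha₀⟩ := hne
  have hirr := irr_linear (fun i => (hL i).1) ha₀
  obtain ⟨v, hv⟩ := irr_dim_nat hI hD hirr
  have hvn : v ≤ Nat.card ι := by
    have := irr_dim_le hA hI hD hirr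
    rw [hv] at this
    exact_mod_cast this
  obtain ⟨S₁, hS₁, hdef⟩ := exists_def hD hirr
  obtain ⟨S₂, hS₂, hcl⟩ := evC_of_eqs L
  -- the generic point
  have hgen : ∀ K : Subfield ℂ, Gd K → S₁ ∪ (Set.range fun p : Fin m × (ι →₀ ℕ) =>
      (L p.1).coeff p.2) ⊆ K → ∃ x, {x : ι → ℂ | ∀ i, eval x (L i) = 0} = cl K x ∧ td K x = v ∧
        Nat.card ι ≤ v + m := by
    intro K hK hSK
    obtain ⟨x, hx⟩ := hdef K hK (Set.subset_union_left.trans hSK)
    have htd : td K x = v := by
      have h1 := (hI ι K hK x).2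
      rw [← hx, hv] at h1
      exact_mod_cast h1.symm
    choose g hg using fun j => lift_mv (K := K) (L j) fun n =>
      (Set.subset_union_right.trans hSK) ⟨(j, n), rfl⟩
    have hxC : x ∈ {x : ι → ℂ | ∀ i, eval x (L i) = 0} := hx ▸ self_mem_cl x
    obtain ⟨b, h1, h2, h3⟩ := le_td_add hA hK g fun i => (hg i x).trans (hxC i)
    refine ⟨x, hx, htd, ?_⟩
    have h4 : b ∈ cl K x := by
      rw [← hx]
      intro i
      rw [← hg i]
      exact h2 i
    have h5 := (hA.1 ι K x b h4).1
    omega
  rw [zp_iff hA hI hD hv hvn] at hZ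
  have hEv := ev_of_finite hA hI hD hS (evC_of_eqs L) hZ
  by_cases heq : Nat.card ι - v = m
  · rwa [heq] at hEv
  · refine ⟨_, hS₁.union (coeffs_countable L), fun K hK hSK => ?_⟩
    obtain ⟨x, hx, htd, hle⟩ := hgen K hK hSK
    have hD' : Dk K {x : ι → ℂ | ∀ i, eval x (L i) = 0} m x := by
      refine ⟨hx ▸ self_mem_cl x, ?_⟩
      have := sd_le_card x
      omega
    refine Set.Finite.subset (Set.finite_singleton (vI K x)) ?_
    rintro p ⟨y, hy, rfl⟩
    have h1 : Sp K x y := by
      have : y ∈ cl K x := hx ▸ hy.1.1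
      exact this
    exact vI_eq (hy.2 x hD' h1) h1

/-- the Zilber-Pink conjecture for linear subspaces -/
theorem lin_ev (hA : AF) (hI : A_IRR) (hD : A_DEF) (hS : SF) (k : Subfield ℂ)
    (hZP : ∀ (ι : Type) [Finite ι] (m : ℕ) (Λ : Set (ι → ℂ)), LinearOver k m Λ → Λ.Nonempty →
      ZilberPink Λ) (ι : Type) [Finite ι] (m : ℕ) (C : Set (ι → ℂ)) (hC : LinearOver k m C) :
    Ev C m := by
  rcases C.eq_empty_or_nonempty with rfl | hne
  · refine ⟨∅, Set.countable_empty, fun K hK _ => ?_⟩
    refine Set.Finite.subset Set.finite_empty ?_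
    rintro p ⟨x, hx, -⟩
    exact hx.1.1
  · exact lin_ev1 hA hI hD hS hC hne (hZP ι m C hC hne)

end Pool.Agent.W2helper42.HL
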