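import Pool.Agent.W2helper42.HL.NLin
import Pool.Agent.W2helper42.HL.Lin

/-!
Project HL: the normal form.
-/

set_option autoImplicit false

namespace Pool.Agent.W2helper42.HL

open UpperHalfPlane H294ZP MvPolynomial

/-- an equation between sums of coordinates -/
structure SEq (κ : Type) where
  /-- the number of summands -/
  r : ℕ
  /-- left hand side -/
  i : Fin r → κ
  /-- right hand side -/
  j : Fin r → κ

/-- `z` satisfies the equation -/
def SEq.Holds {κ : Type} (g : SEq κ) (z : κ → ℂ) : Prop := ∑ l, z (g.i l) = ∑ l, z (g.j l)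

/-- other coordinates -/
def SEq.ren {κ κ' : Type} (f : κ → κ') (g : SEq κ) : SEq κ' := ⟨g.r, f ∘ g.i, f ∘ g.j⟩

/-- sets given by additive quadruples and by equations between sums -/
def GSet {κ : Type} (E : List (κ × κ × κ × κ)) (G : List (SEq κ)) : Set (κ → ℂ) :=
  {z | z ∈ QSet E ∧ ∀ g ∈ G, g.Holds z}

theorem evC_gset {κ : Type} (E : List (κ × κ × κ × κ)) (G : List (SEq κ)) : EvC (GSet E G) := by
  refine ⟨∅, Set.countable_empty, fun K _ _ => ?_⟩
  refine ⟨{f | ∃ e ∈ E, f = X e.1 + X e.2.1 - (X e.2.2.1 + X e.2.2.2)} ∪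
    {f | ∃ g ∈ G, f = ∑ l, X (g.i l) - ∑ l, X (g.j l)}, ?_⟩
  ext z
  constructor
  · rintro ⟨h1, h2⟩ f (⟨e, he, rfl⟩ | ⟨g, hg, rfl⟩)
    · simp only [map_sub, map_add, aeval_X]
      exact sub_eq_zero.2 (h1 e he)
    · simp only [map_sub, map_sum, aeval_X]
      exact sub_eq_zero.2 (h2 g hg)
  · intro h
    refine ⟨fun e he => ?_, fun g hg => ?_⟩
    · have := h _ (Or.inl ⟨e, he, rfl⟩)
      simp only [map_sub, map_add, aeval_X] at this
      exact sub_eq_zero.1 this
    · have := h _ (Or.inr ⟨g, hg, rfl⟩)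
      simp only [map_sub, map_sum, aeval_X] at this
      exact sub_eq_zero.1 this

/-- the additive quadruples of the chain -/
def chainL {κ : Type} {r : ℕ} (i j : Fin r → κ) :
    List ((κ ⊕ Om r) × (κ ⊕ Om r) × (κ ⊕ Om r) × (κ ⊕ Om r)) :=
  (Sum.inr (Sum.inr (0, Fin.last r)), Sum.inr (Sum.inr (1, 0)),
    Sum.inr (Sum.inr (1, Fin.last r)), Sum.inr (Sum.inr (0, 0))) ::
  ((List.ofFn fun l : Fin r => (Sum.inr (Sum.inr (0, l.succ)), Sum.inr (Sum.inl l),
      Sum.inr (Sum.inr (0, l.castSucc)), Sum.inl (i l))) ++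
    List.ofFn fun l : Fin r => (Sum.inr (Sum.inr (1, l.succ)), Sum.inr (Sum.inl l),
      Sum.inr (Sum.inr (1, l.castSucc)), Sum.inl (j l)))

theorem chain_iff {κ : Type} {r : ℕ} (i j : Fin r → κ) (z : κ ⊕ Om r → ℂ) :
    Chain i j z ↔ z ∈ QSet (chainL i j) := by
  constructor
  · rintro ⟨h1, h2, h3⟩ e he
    rcases List.mem_cons.1 he with rfl | he
    · exact h3
    · rcases List.mem_append.1 he with he | he
      · obtain ⟨l, rfl⟩ := List.mem_ofFn.1 he
        exact h1 l
      · obtain ⟨l, rfl⟩ := List.mem_ofFn.1 he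
        exact h2 l
  · intro h
    refine ⟨fun l => ?_, fun l => ?_, ?_⟩
    · exact h _ (List.mem_cons_of_mem _ (List.mem_append_left _ (List.mem_ofFn.2 ⟨l, rfl⟩)))
    · exact h _ (List.mem_cons_of_mem _ (List.mem_append_right _ (List.mem_ofFn.2 ⟨l, rfl⟩)))
    · exact h _ List.mem_cons_self

theorem chain_length {κ : Type} {r : ℕ} (i j : Fin r → κ) :
    (chainL i j).length = 2 * r + 1 := by
  simp only [chainL, List.length_cons, List.length_append, List.length_ofFn]
  omega

/-- other coordinates -/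
def renQ {κ κ' : Type} (f : κ → κ') (e : κ × κ × κ × κ) : κ' × κ' × κ' × κ' :=
  (f e.1, f e.2.1, f e.2.2.1, f e.2.2.2)

theorem gset_ev (hCH : N_CH)
    (h : ∀ (κ : Type) [Finite κ] (E : List (κ × κ × κ × κ)), Ev (QSet E) E.length) (n : ℕ) :
    ∀ (κ : Type) [Finite κ] (E : List (κ × κ × κ × κ)) (G : List (SEq κ)), G.length = n →
      Ev (GSet E G) (E.length + n) := by
  induction n with
  | zero =>
    intro κ _ E G hG
    obtain rfl := List.length_eq_zero_iff.1 hG
    have : GSet E ([] : List (SEq κ)) = QSet E := by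
      ext z
      simp [GSet]
    rw [this]
    exact h κ E
  | succ n ih =>
    intro κ _ E G hG
    obtain ⟨g, G, rfl⟩ : ∃ g G', G = g :: G' := by
      cases G with
      | nil => simp at hG
      | cons g G => exact ⟨g, G, rfl⟩
    have hG' : G.length = n := by simpa using hG
    have h1 := ih (κ ⊕ Om g.r) (E.map (renQ Sum.inl) ++ chainL g.i g.j)
      (G.map (SEq.ren Sum.inl)) (by simpa using hG')
    have h2 := hCH κ (GSet E G) (E.length + (n + 1)) g.r g.i g.j (evC_gset E G) (by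
      have hlen : (E.map (renQ Sum.inl) ++ chainL g.i g.j).length + n =
          E.length + (n + 1) + 2 * g.r := by
        rw [List.length_append, List.length_map, chain_length]
        omega
      rw [hlen] at h1
      convert h1 using 1
      ext z
      constructor
      · rintro ⟨⟨g1, g2⟩, g3⟩
        refine ⟨fun e he => ?_, fun g' hg' => ?_⟩
        · rcases List.mem_append.1 he with he | he
          · obtain ⟨e', he', rfl⟩ := List.mem_map.1 he
            exact g1 e' he'
          · exact (chain_iff g.i g.j z).1 g3 e he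
        · obtain ⟨g₂, hg₂, rfl⟩ := List.mem_map.1 hg'
          exact g2 g₂ hg₂
      · rintro ⟨g1, g2⟩
        refine ⟨⟨fun e he => ?_, fun g' hg' => ?_⟩, ?_⟩
        · exact g1 _ (List.mem_append_left _ (List.mem_map_of_mem he))
        · exact g2 _ (List.mem_map_of_mem hg')
        · exact (chain_iff g.i g.j z).2 fun e he => g1 e (List.mem_append_right _ he))
    convert h2 using 1
    ext z
    constructor
    · rintro ⟨g1, g2⟩
      exact ⟨⟨g1, fun g' hg' => g2 g' (List.mem_cons_of_mem _ hg')⟩, g2 g List.mem_cons_self⟩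
    · rintro ⟨⟨g1, g2⟩, g3⟩
      refine ⟨g1, fun g' hg' => ?_⟩
      rcases List.mem_cons.1 hg' with rfl | hg'
      · exact g3
      · exact g2 g' hg'

/-- from additive quadruples to linear subspaces over `ℚ` -/
theorem lin_of_quad (hSP : N_SP) (hSC : N_SC) (hEXT : N_EXT) (hCH : N_CH)
    (h : ∀ (κ : Type) [Finite κ] (E : List (κ × κ × κ × κ)), Ev (QSet E) E.length)
    (ι : Type) [Finite ι] (m : ℕ) (C : Set (ι → ℂ)) (hC : LinearOver ⊥ m C) : Ev C m := by
  obtain ⟨L, hL, rfl⟩ := hC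
  choose r i j hij using fun s => n_lin ι (L s) (hL s).1 (hL s).2
  let G : List (SEq (ι ⊕ Fin 2)) := List.ofFn fun s => ⟨r s, i s, j s⟩
  have h1 : Ev (GSet [] G) m := by
    have := gset_ev hCH h m (ι ⊕ Fin 2) [] G (by simp [G])
    simpa using this
  have h2 := hSC (ι ⊕ Fin 2) _ m (Sum.inr 0) 0 hSP.1 (evC_gset [] G) h1
  have hev2 : EvC {x | x ∈ GSet [] G ∧ x (Sum.inr 0) = 0} := by
    obtain ⟨S, hS, hcl⟩ := evC_gset ([] : List ((ι ⊕ Fin 2) × (ι ⊕ Fin 2) × (ι ⊕ Fin 2) ×
      (ι ⊕ Fin 2))) G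
    refine ⟨S, hS, fun K hK hSK => ?_⟩
    obtain ⟨F, hF⟩ := hcl K hK hSK
    refine ⟨F ∪ {X (Sum.inr 0)}, ?_⟩
    ext z
    constructor
    · rintro ⟨g1, g2⟩ f (hf | hf)
      · rw [hF] at g1
        exact g1 f hf
      · rw [Set.mem_singleton_iff.1 hf, aeval_X]
        exact g2
    · intro hz
      refine ⟨?_, ?_⟩
      · rw [hF]
        exact fun f hf => hz f (Or.inl hf)
      · have := hz _ (Or.inr rfl)
        rwa [aeval_X] at this
  have h3 := hSC (ι ⊕ Fin 2) _ m (Sum.inr 1) 1728 hSP.2 hev2 h2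
  refine hEXT ι (Fin 2) _ m ![0, 1728] (fun s => ?_) ?_
  · fin_cases s
    · exact hSP.1
    · exact hSP.2
  · convert h3 using 1
    ext z
    have hz : (∀ s, z (Sum.inr s) = ![(0 : ℂ), 1728] s) →
        z = Sum.elim (fun s => z (Sum.inl s)) ![0, 1728] := by
      intro h
      funext s
      rcases s with s | s
      · rfl
      · exact h s
    constructor
    · rintro ⟨g1, g2⟩
      have g3 := hz g2
      refine ⟨⟨⟨?_, fun g hg => ?_⟩, ?_⟩, ?_⟩
      · intro e he
        simp at he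
      · obtain ⟨s, rfl⟩ := List.mem_ofFn.1 hg
        have := (hij s _).1 (g1 s)
        show ∑ l, z (i s l) = ∑ l, z (j s l)
        rw [g3]
        exact this
      · exact g2 0
      · exact g2 1
    · rintro ⟨⟨⟨g1, g2⟩, g3⟩, g4⟩
      have g5 : ∀ s, z (Sum.inr s) = ![(0 : ℂ), 1728] s := by
        intro s
        fin_cases s
        · exact g3
        · exact g4
      refine ⟨fun s => (hij s _).2 ?_, g5⟩
      rw [← hz g5]
      exact g2 _ (List.mem_ofFn.2 ⟨s, rfl⟩)

end Pool.Agent.W2helper42.HL
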