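import Pool.Agent.W2helper54.HL.Hecke
import Pool.Agent.W2helper8.HL.JSurj
import Pool.Agent.H294ZP.TaskTA2

/-!
Project HL: the constants `β`, `γ` are integers.
-/

set_option autoImplicit false

namespace Pool.Agent.W2helper42.HL

open UpperHalfPlane ModularForm H294ZP H294ZP.TA2 Pool.Agent.W2helper54.HL

/-- the integral series of `q j` -/
theorem exists_W : ∃ W : PowerSeries ℤ, W.coeff 0 = 1 ∧ R (mp W) (fun τ => qq 1 τ * jj τ) := by
  have h := R_mul (R_mul (R_mul R_E4 R_E4) R_E4) R_V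
  rw [E4_eq, ← map_mul, ← map_mul, ← map_mul] at h
  refine ⟨(1 + 240 * A) * (1 + 240 * A) * (1 + 240 * A) * V, ?_, fun τ => ?_⟩
  · have hA : PowerSeries.constantCoeff A = 0 := by
      rw [← PowerSeries.coeff_zero_eq_constantCoeff_apply, A0]
    have hV : PowerSeries.constantCoeff V = 1 := by
      have := congrArg PowerSeries.constantCoeff UV
      rw [map_mul, U0, one_mul, map_one] at this
      exact this
    rw [PowerSeries.coeff_zero_eq_constantCoeff_apply]
    simp [hA, hV]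
  · have h2 := h τ
    have h3 : E₄ τ * E₄ τ * E₄ τ * (qq 1 τ / discriminant τ) = qq 1 τ * jj τ := by
      unfold jj
      ring
    have h4 : (fun τ => E₄ τ * E₄ τ * E₄ τ * (qq 1 τ / discriminant τ)) τ = qq 1 τ * jj τ := h3
    rw [h4] at h2
    exact h2

theorem R_add {P Q : PowerSeries ℂ} {F G : ℍ → ℂ} (hP : R P F) (hQ : R Q G) :
    R (P + Q) (fun τ => F τ + G τ) := by
  intro τ
  have h := (hP τ).add (hQ τ)
  have h6 : (fun n : ℕ => (P + Q).coeff n * qq 1 τ ^ n) =
      fun n : ℕ => P.coeff n * qq 1 τ ^ n + Q.coeff n * qq 1 τ ^ n := by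
    funext n
    rw [map_add]
    ring
  rw [h6]
  exact h

theorem R_mono (m : ℕ) (c : ℂ) : R (PowerSeries.monomial m c) (fun τ => c * qq 1 τ ^ m) := by
  intro τ
  have h := hasSum_ite_eq (m : ℕ) (c * qq 1 τ ^ m)
  convert h using 2 with n
  rw [PowerSeries.coeff_monomial]
  split_ifs with h
  · rw [h]
  · rw [zero_mul]

/-- substitution of `q^m` -/
theorem R_pow {P : PowerSeries ℂ} {F : ℍ → ℂ} (hP : R P F) {m : ℕ} (hm : 0 < m) (s : ℍ → ℍ)
    (hs : ∀ τ, qq 1 (s τ) = qq 1 τ ^ m) :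
    R (PowerSeries.mk fun n => if m ∣ n then P.coeff (n / m) else 0) (fun τ => F (s τ)) := by
  intro τ
  have h1 := hP (s τ)
  rw [hs] at h1
  have hinj : Function.Injective fun n : ℕ => m * n := fun a b hab =>
    Nat.eq_of_mul_eq_mul_left hm hab
  rw [← hinj.hasSum_iff]
  · convert h1 using 2 with n
    simp only [Function.comp_apply, PowerSeries.coeff_mk, dvd_mul_right, if_true]
    rw [Nat.mul_div_cancel_left _ hm, pow_mul]
  · intro n hn
    rw [PowerSeries.coeff_mk, if_neg, zero_mul]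
    rintro ⟨k, rfl⟩
    exact hn ⟨k, rfl⟩

theorem R_neg {P : PowerSeries ℂ} {F : ℍ → ℂ} (hP : R P F) (s : ℍ → ℍ)
    (hs : ∀ τ, qq 1 (s τ) = - qq 1 τ) :
    R (PowerSeries.mk fun n => P.coeff n * (-1) ^ n) (fun τ => F (s τ)) := by
  intro τ
  have h1 := hP (s τ)
  rw [hs] at h1
  convert h1 using 2 with n
  rw [PowerSeries.coeff_mk, neg_pow (qq 1 τ)]
  ring

theorem R_zero {P : PowerSeries ℂ} (hP : R P (fun _ => 0)) : P = 0 := by
  have h1 := R_mono 0 1
  have h2 : R (PowerSeries.monomial 0 (1:ℂ)) (fun _ => 1) := by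
    convert h1 using 2 with τ
    simp
  have h3 := R_add h2 hP
  simp only [add_zero] at h3
  have h4 := R_unique h3 h2
  simpa using h4

/-- the constants of `sumP` are integers -/
theorem int_consts {β γ : ℂ} (hs : ∀ τ, jj (hh 0 τ) + jj (hh 1 τ) + jj (hh 2 τ) =
    jj τ ^ 2 + β * jj τ + γ) : ∃ b c : ℤ, β = b ∧ γ = c := by
  obtain ⟨W, hW0, hW⟩ := exists_W
  have q0 : ∀ τ, qq 1 (hh 0 τ) = qq 1 τ ^ 2 := by
    intro τ
    unfold qq
    rw [← Complex.exp_nat_mul, hh0]
    congr 1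
    push_cast
    ring
  have q00 : ∀ τ, qq 1 (hh 0 (hh 0 τ)) = qq 1 τ ^ 4 := by
    intro τ
    rw [q0, q0, ← pow_mul]
  have e1 : ∀ τ, hh 1 (hh 0 τ) = τ := by
    intro τ
    apply UpperHalfPlane.ext
    have := hh1 (hh 0 τ)
    rw [hh0] at this
    linear_combination this / 2
  have q2 : ∀ τ, qq 1 (hh 2 (hh 0 τ)) = - qq 1 τ := by
    intro τ
    have h1 : ((hh 2 (hh 0 τ) : ℍ) : ℂ) = τ + 1 / 2 := by
      have := hh2 (hh 0 τ)
      rw [hh0] at this
      linear_combination this / 2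
    unfold qq
    rw [h1]
    have : 2 * (Real.pi : ℂ) * Complex.I * (τ + 1 / 2) / ((1 : ℕ) : ℂ) =
        2 * Real.pi * Complex.I * τ / ((1 : ℕ) : ℂ) + Real.pi * Complex.I := by
      push_cast
      ring
    rw [this, Complex.exp_add, Complex.exp_pi_mul_I]
    ring
  have r2 := R_pow hW (m := 2) (by norm_num) (fun τ => hh 0 τ) q0
  have r4 := R_pow hW (m := 4) (by norm_num) (fun τ => hh 0 (hh 0 τ)) q00
  have rn := R_neg hW (fun τ => hh 2 (hh 0 τ)) q2
  set P2 : PowerSeries ℂ := PowerSeries.mk fun n => if 2 ∣ n then (mp W).coeff (n / 2) else 0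
    with hP2
  set P4 : PowerSeries ℂ := PowerSeries.mk fun n => if 4 ∣ n then (mp W).coeff (n / 4) else 0
    with hP4
  set Pn : PowerSeries ℂ := PowerSeries.mk fun n => (mp W).coeff n * (-1) ^ n with hPn
  have hsum := R_sub (R_sub (R_add r4 (R_mul (R_mono 3 1) hW)) (R_mul (R_mono 3 1) rn))
    (R_add (R_add (R_mul r2 r2) (R_mul (R_mono 2 β) r2)) (R_mono 4 γ))
  have h0 : R (P4 + PowerSeries.monomial 3 1 * mp W - PowerSeries.monomial 3 1 * Pn -
      (P2 * P2 + PowerSeries.monomial 2 β * P2 + PowerSeries.monomial 4 γ)) (fun _ => 0) := by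
    convert hsum using 2 with τ
    have h1 := hs (hh 0 τ)
    rw [e1] at h1
    rw [q00, q2, q0]
    linear_combination (-(qq 1 τ) ^ 4) * h1
  have h1 := R_zero h0
  have c2 := congrArg (fun P => PowerSeries.coeff 2 P) h1
  have c4 := congrArg (fun P => PowerSeries.coeff 4 P) h1
  have w0 : (mp W).coeff 0 = 1 := by rw [PowerSeries.coeff_map, hW0]; simp
  have p20 : P2.coeff 0 = 1 := by rw [hP2, PowerSeries.coeff_mk]; simp [hW0]
  have p21 : P2.coeff 1 = 0 := by rw [hP2, PowerSeries.coeff_mk, if_neg (by norm_num)]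
  have p22 : P2.coeff 2 = (mp W).coeff 1 := by
    rw [hP2, PowerSeries.coeff_mk, if_pos (by norm_num)]
  have p23 : P2.coeff 3 = 0 := by rw [hP2, PowerSeries.coeff_mk, if_neg (by norm_num)]
  have p24 : P2.coeff 4 = (mp W).coeff 2 := by
    rw [hP2, PowerSeries.coeff_mk, if_pos (by norm_num)]
  have p42 : P4.coeff 2 = 0 := by rw [hP4, PowerSeries.coeff_mk, if_neg (by norm_num)]
  have p44 : P4.coeff 4 = (mp W).coeff 1 := by
    rw [hP4, PowerSeries.coeff_mk, if_pos (by norm_num)]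
  have pn1 : Pn.coeff 1 = - (mp W).coeff 1 := by
    rw [hPn, PowerSeries.coeff_mk]; ring
  have pw1 : (mp W).coeff 1 = (W.coeff 1 : ℂ) := by rw [PowerSeries.coeff_map]; rfl
  have pw2 : (mp W).coeff 2 = (W.coeff 2 : ℂ) := by rw [PowerSeries.coeff_map]; rfl
  clear_value P2 P4 Pn
  simp [PowerSeries.coeff_mul, Finset.Nat.antidiagonal_succ, PowerSeries.coeff_monomial, p20, p21,
    p22, p23, p24, p42, p44, pn1] at c2 c4
  refine ⟨-2 * W.coeff 1, 3 * W.coeff 1 - 2 * W.coeff 2 + W.coeff 1 ^ 2, ?_, ?_⟩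
  · push_cast
    linear_combination -c2
  · push_cast
    linear_combination -c4 + (W.coeff 1 : ℂ) * c2

/-- J_HECKE with integral constants -/
theorem j_hecke_int (h1 : J_SURJ) : ∃ b c : ℤ, HeckeSpec (b : ℂ) (c : ℂ) := by
  obtain ⟨β, γ, hβ, hγ, hs⟩ := sumP
  obtain ⟨b, c, rfl, rfl⟩ := int_consts hs
  obtain ⟨R, hR0, hRi, hR⟩ := dscP
  refine ⟨b, c, hβ, hγ, fun u => ?_, fun u v hv hinj => ?_⟩
  · obtain ⟨τ, rfl⟩ := h1 u
    refine ⟨fun k => jj (hh k τ), fun l => cyc_hh τ l, hs τ, fun htr => ?_⟩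
    by_contra hn
    have h0 : dsc (fun k => jj (hh k τ)) = 0 := by
      by_contra h0
      apply hn
      have e1 : jj (hh 0 τ) ≠ jj (hh 1 τ) := fun e => h0 (by simp [dsc, e])
      have e2 : jj (hh 0 τ) ≠ jj (hh 2 τ) := fun e => h0 (by simp [dsc, e])
      have e3 : jj (hh 1 τ) ≠ jj (hh 2 τ) := fun e => h0 (by simp [dsc, e])
      intro i j hij
      fin_cases i <;> fin_cases j <;> simp_all
    apply htr
    rw [hR τ] at h0
    exact alg_root R hR0 (fun k => ((hRi k).tower_top (A := ℚ)).isAlgebraic) _ h0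
  · obtain ⟨τ, rfl⟩ := h1 u
    choose f hf using fun l => cyc_mem (hv l)
    have hfi : Function.Injective f := by
      intro i j hij
      apply hinj
      rw [hf i, hf j, hij]
    have := Equiv.sum_comp (Equiv.ofBijective f (Finite.injective_iff_bijective.1 hfi))
      (fun k => jj (hh k τ))
    simp only [Fin.sum_univ_three, Equiv.ofBijective_apply] at this
    rw [hf 0, hf 1, hf 2, this, hs τ]

end Pool.Agent.W2helper42.HL
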