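import Pool.Agent.W2helper42.HL.All
import Pool.Agent.W2helper42.HL.Rat
import Pool.Agent.W2helper42.HL.Norm

/-!
Project HL: the equivalence with the Zilber-Pink conjecture for additive quadruples.
-/

set_option autoImplicit false

namespace Pool.Agent.W2helper42.HL

open UpperHalfPlane H294ZP MvPolynomial

theorem int_mem (k : Subfield ℂ) (n : ℤ) : (n : ℂ) ∈ k := intCast_mem k n

/-- from linear subspaces over the prime field to all closed sets -/
theorem fd_all (hlin : ∀ (ι : Type) [Finite ι] (m : ℕ) (C : Set (ι → ℂ)), LinearOver ⊥ m C →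
    Ev C m) (ι : Type) [Finite ι] {J : ℕ} (f : Fin J → MvPolynomial ι ℂ) (d : ℕ) :
    Ev {x | ∀ j, eval x (f j) = 0} d := by
  have hR := r_main jf af sf
  obtain ⟨b, c, hH⟩ := j_hecke_int Pool.Agent.W2helper8.HL.jsurj
  have hsq := Pool.Agent.W2helper76.HL.r_sq jf af sf hR b c hH
  have hmain := Pool.Agent.W2helper55.HL.c_main b c hsq ⊥ (int_mem _ _) (int_mem _ _)
    fun ι _ m C hC => hlin ι m C hC
  refine desc jf af a_irr' a_def' sf ?_ ι f d
  clear f d
  rintro ι _ C d ⟨J, f, hf, rfl⟩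
  refine Pool.Agent.W2helper54.HL.r_lam jf af sf hR ι J d f ?_
  obtain ⟨q, hq⟩ := Pool.Agent.W2helper55.HL.c_poly ⊥ (ι ⊕ (Fin d × Fin J)) d
    (fun i => ∑ j, X (Sum.inr (i, j)) * rename Sum.inl (f j)) (by
      intro i
      refine Over.sum _ fun j _ => ?_
      intro n
      classical
      rw [coeff_X_mul']
      split_ifs
      · by_cases hn : ∃ u, Finsupp.mapDomain Sum.inl u = n - Finsupp.single (Sum.inr (i, j)) 1
        · obtain ⟨u, hu⟩ := hn
          rw [← hu, coeff_rename_mapDomain _ Sum.inl_injective]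
          exact hf j u
        · rw [coeff_rename_eq_zero]
          · exact (⊥ : Subfield ℂ).zero_mem
          · intro u hu
            exact absurd ⟨u, hu⟩ hn
      · exact (⊥ : Subfield ℂ).zero_mem)
  have h1 := hmain q _ d _ hq
  have h2 : {z : ι ⊕ (Fin d × Fin J) → ℂ | ∀ i : Fin d,
      ∑ j, z (Sum.inr (i, j)) * eval (fun s => z (Sum.inl s)) (f j) = 0} =
      {z : ι ⊕ (Fin d × Fin J) → ℂ | ∀ i : Fin d,
        eval z (∑ j, X (Sum.inr (i, j)) * rename Sum.inl (f j)) = 0} := by
    ext z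
    refine forall_congr' fun i => ?_
    rw [map_sum]
    refine Eq.congr (Finset.sum_congr rfl fun j _ => ?_) rfl
    rw [map_mul, eval_X, eval_rename]
    rfl
  rw [h2]
  exact h1

/-- `Q` is linear -/
theorem linear_qset {κ : Type} (E : List (κ × κ × κ × κ)) : LinearOver ⊥ E.length (QSet E) := by
  classical
  refine ⟨fun i => X (E.get i).1 + X (E.get i).2.1 - (X (E.get i).2.2.1 + X (E.get i).2.2.2),
    fun i => ⟨?_, ?_⟩, ?_⟩
  · refine (totalDegree_sub _ _).trans (max_le ?_ ?_) <;>
    exact (totalDegree_add _ _).trans (max_le (totalDegree_X _).le (totalDegree_X _).le)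
  · intro m
    have hX : ∀ a : κ, (X a : MvPolynomial κ ℂ).coeff m ∈ (⊥ : Subfield ℂ) := by
      intro a
      rw [coeff_X']
      split_ifs
      · exact one_mem _
      · exact zero_mem _
    rw [coeff_sub, coeff_add, coeff_add]
    exact sub_mem (add_mem (hX _) (hX _)) (add_mem (hX _) (hX _))
  · ext z
    constructor
    · intro h i
      simp only [map_sub, map_add, eval_X]
      exact sub_eq_zero.2 (h _ (List.get_mem E i))
    · intro h e he
      obtain ⟨i, rfl⟩ := List.get_of_mem he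
      have := h i
      simp only [map_sub, map_add, eval_X] at this
      exact sub_eq_zero.1 this

/-- closed sets are given by finitely many equations -/
theorem exists_eqs {ι : Type} [Finite ι] (F : Set (MvPolynomial ι ℂ)) :
    ∃ (J : ℕ) (f : Fin J → MvPolynomial ι ℂ),
      {x : ι → ℂ | ∀ g ∈ F, eval x g = 0} = {x | ∀ j, eval x (f j) = 0} := by
  classical
  obtain ⟨s, hs⟩ := (isNoetherianRing_iff_ideal_fg _).1
    (inferInstance : IsNoetherianRing (MvPolynomial ι ℂ)) (Ideal.span F)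
  have key : ∀ (x : ι → ℂ) (Y : Set (MvPolynomial ι ℂ)), (∀ g ∈ Y, eval x g = 0) ↔
      Ideal.span Y ≤ RingHom.ker (eval x) := by
    intro x Y
    rw [Ideal.span_le]
    rfl
  refine ⟨s.card, fun i => (s.equivFin.symm i).1, ?_⟩
  ext x
  show (∀ g ∈ F, eval x g = 0) ↔ ∀ i, eval x (s.equivFin.symm i).1 = 0
  rw [key x F, ← hs, ← key]
  constructor
  · intro h i
    exact h _ (s.equivFin.symm i).2
  · intro h g hg
    have := h (s.equivFin ⟨g, hg⟩)
    rwa [Equiv.symm_apply_apply] at this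

/-- the theorem -/
theorem quads (hSP : N_SP) (hSC : N_SC) (hEXT : N_EXT) (hCH : N_CH) :
    List.TFAE [
      ∀ (ι : Type) [Finite ι] (V : Set (ι → ℂ)), Irr V → ZilberPink V,
      ∀ (ι : Type) [Finite ι] (E : Finset (ι × ι × ι × ι)),
        ZilberPink {x : ι → ℂ | ∀ e ∈ E, x e.1 + x e.2.1 = x e.2.2.1 + x e.2.2.2},
      ∀ (ι : Type) [Finite ι] (F : Set (MvPolynomial ι ℂ)) (d : ℕ),
        FiniteDefect {x : ι → ℂ | ∀ f ∈ F, eval x f = 0} d] := by
  classical
  have hI := a_irr'
  have hD := a_def'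
  tfae_have 1 → 2 := by
    intro h ι _ E
    obtain ⟨L, hL, hE⟩ := linear_qset E.toList
    have h1 : {x : ι → ℂ | ∀ e ∈ E, x e.1 + x e.2.1 = x e.2.2.1 + x e.2.2.2} =
        QSet E.toList := by
      ext x
      simp [QSet]
    have h0 : (fun _ => 0 : ι → ℂ) ∈ QSet E.toList := fun e _ => rfl
    rw [h1, hE]
    rw [hE] at h0
    exact h ι _ (irr_linear (fun i => (hL i).1) h0)
  tfae_have 2 → 3 := by
    intro h ι _ F d
    obtain ⟨J, f, hf⟩ := exists_eqs F
    rw [hf]
    refine finite_of_ev af hI hD sf (evC_of_eqs f) (fd_all ?_ ι f d)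
    intro κ _ m C hC
    refine lin_of_quad hSP hSC hEXT hCH ?_ κ m C hC
    intro κ' _ E
    refine lin_ev1 af hI hD sf (linear_qset E) ⟨fun _ => 0, fun e _ => rfl⟩ ?_
    have := h κ' E.toFinset
    convert this using 1
    ext x
    simp [QSet]
  tfae_have 3 → 1 := by
    intro h ι _ V hV
    obtain ⟨v, hv⟩ := irr_dim_nat hI hD hV
    have hvn : v ≤ Nat.card ι := by
      have := irr_dim_le af hI hD hV
      rw [hv] at this
      exact_mod_cast this
    rw [zp_iff af hI hD hv hvn]
    obtain ⟨P, -, rfl⟩ := hV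
    exact h ι P _
  tfae_finish

end Pool.Agent.W2helper42.HL
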