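import Pool.Agent.W2helper42.HL.Base

/-!
Project HL: from points over countable fields to subvarieties of `ℂ^n`.
-/

set_option autoImplicit false

namespace Pool.Agent.W2helper42.HL

open UpperHalfPlane H294ZP MvPolynomial

theorem self_mem_cl {ι : Type} {K : Subfield ℂ} (x : ι → ℂ) : x ∈ cl K x := Sp.refl x

theorem cl_subset_iff {ι : Type} {K : Subfield ℂ} {x y : ι → ℂ} :
    cl K x ⊆ cl K y ↔ Sp K y x :=
  ⟨fun h => h (self_mem_cl x), fun h _ hz => Sp.trans h hz⟩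

theorem cl_eq {ι : Type} {K : Subfield ℂ} {x y : ι → ℂ} (h : Sp K x y) (h' : Sp K y x) :
    cl K x = cl K y :=
  Set.Subset.antisymm (cl_subset_iff.2 h') (cl_subset_iff.2 h)

/-- specializations over a larger field -/
theorem Sp.mono {ι : Type} {K K' : Subfield ℂ} (hK : K ≤ K') {x y : ι → ℂ} (h : Sp K' x y) :
    Sp K x y := by
  intro f hf
  have h1 : ∀ z : ι → ℂ, aeval z (map (Subfield.inclusion hK) f) = aeval z f := by
    intro z
    rw [aeval_def, eval₂_map, aeval_def]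
    rfl
  rw [← h1]
  apply h
  rw [h1]
  exact hf

/-- every irreducible closed set is the closure of a point over every large field -/
theorem exists_def (hD : A_DEF) {ι : Type} [Finite ι] {V : Set (ι → ℂ)} (hV : Irr V) :
    ∃ S : Set ℂ, S.Countable ∧ ∀ K : Subfield ℂ, Gd K → S ⊆ K → ∃ x, V = cl K x := by
  obtain ⟨K₀, hK₀, -, h⟩ := hD ι ∅ (fun _ => V) Set.countable_empty fun _ => hV
  obtain ⟨x₀, hx₀⟩ := h 0
  have := hK₀.1
  refine ⟨K₀, Set.to_countable _, fun K hK hKK => ?_⟩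
  have := hK.1
  obtain ⟨K', hK', hKK', h'⟩ := hD ι K (fun _ => V) (Set.to_countable _) fun _ => hV
  obtain ⟨x', hx'⟩ := h' 0
  refine ⟨x', Set.Subset.antisymm ?_ ?_⟩
  · intro y hy
    have h1 : Sp K' x' y := by
      have : y ∈ cl K' x' := hx' ▸ hy
      exact this
    exact h1.mono hKK'
  · intro y hy
    have h1 : x' ∈ V := by
      have := self_mem_cl (K := K') x'
      rwa [← hx'] at this
    rw [hx₀] at h1 ⊢
    exact Sp.trans h1 (Sp.mono hKK hy)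

/-- two irreducible closed sets -/
theorem exists_def2 (hD : A_DEF) {ι : Type} [Finite ι] {V W : Set (ι → ℂ)} (hV : Irr V)
    (hW : Irr W) (S : Set ℂ) (hS : S.Countable) : ∃ K : Subfield ℂ, Gd K ∧ S ⊆ K ∧
      (∃ x, V = cl K x) ∧ ∃ x, W = cl K x := by
  obtain ⟨K, hK, hSK, h⟩ := hD ι S (fun i => if i = 0 then V else W) hS fun i => by
    split_ifs
    exacts [hV, hW]
  exact ⟨K, hK, hSK, by simpa using h 0, by simpa using h 1⟩

theorem irr_dim_mono (hA : AF) (hI : A_IRR) (hD : A_DEF) {ι : Type} [Finite ι]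
    {V W : Set (ι → ℂ)} (hV : Irr V) (hW : Irr W) (h : V ⊆ W) :
    dim V ≤ dim W ∧ (dim W ≤ dim V → V = W) := by
  obtain ⟨K, hK, -, ⟨x, rfl⟩, ⟨y, rfl⟩⟩ := exists_def2 hD hV hW ∅ Set.countable_empty
  rw [(hI ι K hK x).2, (hI ι K hK y).2]
  have h1 := cl_subset_iff.1 h
  have h2 := hA.1 ι K y x h1
  refine ⟨by exact_mod_cast h2.1, fun h3 => cl_eq (h2.2 (by exact_mod_cast h3)) h1⟩

theorem irr_dim_nat (hI : A_IRR) (hD : A_DEF) {ι : Type} [Finite ι]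
    {V : Set (ι → ℂ)} (hV : Irr V) : ∃ n : ℕ, dim V = (n : ℕ) := by
  obtain ⟨K, hK, -, ⟨x, rfl⟩, -⟩ := exists_def2 hD hV hV ∅ Set.countable_empty
  exact ⟨_, (hI ι K hK x).2⟩

theorem irr_dim_le (hA : AF) (hI : A_IRR) (hD : A_DEF) {ι : Type} [Finite ι]
    {V : Set (ι → ℂ)} (hV : Irr V) : dim V ≤ (Nat.card ι : ℕ) := by
  obtain ⟨K, hK, -, ⟨x, rfl⟩, -⟩ := exists_def2 hD hV hV ∅ Set.countable_empty
  obtain ⟨y, hy, hy'⟩ := hA.2.2.1 ι K hK
  rw [(hI ι K hK x).2, ← hy]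
  exact_mod_cast (hA.1 ι K y x (hy' x)).1

/-- maximal irreducible closed sets with a property -/
theorem exists_max (hA : AF) (hI : A_IRR) (hD : A_DEF) {ι : Type} [Finite ι]
    (P : Set (ι → ℂ) → Prop) (hP : ∀ A, P A → Irr A) {A : Set (ι → ℂ)} (h : P A) :
    ∃ B, P B ∧ A ⊆ B ∧ ∀ B', P B' → B ⊆ B' → B = B' := by
  classical
  have hnat : ∀ B : {B : Set (ι → ℂ) // P B}, ∃ n : ℕ, dim B.1 = (n : ℕ) := fun B =>
    irr_dim_nat hI hD (hP _ B.2)
  choose d hd using hnat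
  have hle : ∀ B, d B ≤ Nat.card ι := by
    intro B
    have := irr_dim_le hA hI hD (hP _ B.2)
    rw [hd] at this
    exact_mod_cast this
  obtain ⟨B, hB, hmax⟩ := (measure fun B : {B : Set (ι → ℂ) // P B} => Nat.card ι - d B).wf.has_min
    {B | A ⊆ B.1} ⟨⟨A, h⟩, Set.Subset.rfl⟩
  refine ⟨B.1, B.2, hB, fun B' hB' hBB' => ?_⟩
  have h1 := hmax ⟨B', hB'⟩ (Set.Subset.trans hB hBB')
  have h2 : ¬ (Nat.card ι - d ⟨B', hB'⟩ < Nat.card ι - d B) := h1
  have h3 := hle ⟨B', hB'⟩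
  have h4 := hle B
  have h5 : d ⟨B', hB'⟩ ≤ d B := by omega
  refine (irr_dim_mono hA hI hD (hP _ B.2) (hP _ hB') hBB').2 ?_
  rw [hd B, hd ⟨B', hB'⟩]
  exact_mod_cast h5

/-- irreducible closed subsets are contained in irreducible components -/
theorem exists_component (hA : AF) (hI : A_IRR) (hD : A_DEF) {ι : Type} [Finite ι]
    {A Z : Set (ι → ℂ)} (h : Irr A) (hAZ : A ⊆ Z) : ∃ B, IsComponent B Z ∧ A ⊆ B := by
  obtain ⟨B, hB, hAB, hmax⟩ := exists_max hA hI hD (fun B => Irr B ∧ B ⊆ Z) (fun B hB => hB.1)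
    ⟨h, hAZ⟩
  exact ⟨B, ⟨hB.1, hB.2, fun B' h1 h2 h3 => hmax B' ⟨h1, h2⟩ h3⟩, hAB⟩

theorem sd_le_card {ι : Type} [Finite ι] (x : ι → ℂ) : sd x ≤ Nat.card ι := by
  have := Fintype.ofFinite ι
  refine csSup_le' ?_
  rintro m ⟨s, rfl, -⟩
  rw [Nat.card_eq_fintype_card]
  exact Finset.card_le_univ s

theorem sd_bdd {ι : Type} [Finite ι] (x : ι → ℂ) :
    BddAbove {m : ℕ | ∃ s : Finset ι, s.card = m ∧ (∀ i ∈ s, ¬ SpecialPoint (x i)) ∧
      ∀ i ∈ s, ∀ j ∈ s, i ≠ j → ¬ Isog (x i) (x j)} := by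
  have := Fintype.ofFinite ι
  refine ⟨Nat.card ι, ?_⟩
  rintro m ⟨s, rfl, -⟩
  rw [Nat.card_eq_fintype_card]
  exact Finset.card_le_univ s

/-- comparison of `sd` for two points -/
theorem sd_le_of {ι : Type} [Finite ι] {x y : ι → ℂ}
    (h1 : ∀ i, SpecialPoint (x i) → SpecialPoint (y i))
    (h2 : ∀ i j, i ≠ j → ¬ SpecialPoint (x i) → ¬ SpecialPoint (x j) → Isog (x i) (x j) →
      Isog (y i) (y j)) : sd y ≤ sd x := by
  refine csSup_le' ?_
  rintro m ⟨s, rfl, h3, h4⟩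
  refine le_csSup (sd_bdd x) ⟨s, rfl, fun i hi h => h3 i hi (h1 i h), fun i hi j hj hij h => ?_⟩
  exact h4 i hi j hj hij (h2 i j hij (fun h => h3 i hi (h1 i h)) (fun h => h3 j hj (h1 j h)) h)

/-- the smallest special subvariety which contains a point -/
theorem exists_special (hA : AF) (hI : A_IRR) (hD : A_DEF) (hS : SF) {ι : Type}
    [Finite ι] {K : Subfield ℂ} (hK : Gd K) (x : ι → ℂ) :
    ∃ S, Special S ∧ cl K x ⊆ S ∧ dim S = (sd x : ℕ) := by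
  classical
  have := Fintype.ofFinite ι
  obtain ⟨x', h1, h2, h3, h4, h5⟩ := hS.2.2.2.2.2 ι K hK x
  have hex : ∀ i j : ι, ∃ N : ℕ, 0 < N ∧ (Isog (x' i) (x' j) → Cyc N (x' i) (x' j)) := by
    intro i j
    by_cases h : Isog (x' i) (x' j)
    · obtain ⟨N, hN, hc⟩ := h
      exact ⟨N, hN, fun _ => hc⟩
    · exact ⟨1, one_pos, fun h' => absurd h' h⟩
  choose N hN0 hN using hex
  let E : Finset (ι × ι × ℕ) := ((Finset.univ : Finset (ι × ι)).filter fun p =>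
    p.1 ≠ p.2 ∧ Isog (x' p.1) (x' p.2)).image fun p => (p.1, p.2, N p.1 p.2)
  let G : Finset (ι × ℂ) := ((Finset.univ : Finset ι).filter fun i => SpecialPoint (x' i)).image
    fun i => (i, x' i)
  have hE : ∀ e, e ∈ E ↔ e.1 ≠ e.2.1 ∧ Isog (x' e.1) (x' e.2.1) ∧ e.2.2 = N e.1 e.2.1 := by
    rintro ⟨i, j, n⟩
    simp only [E, Finset.mem_image, Finset.mem_filter, Finset.mem_univ, true_and, Prod.mk.injEq,
      Prod.exists]
    constructor
    · rintro ⟨a, b, ⟨h1, h2⟩, rfl, rfl, rfl⟩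
      exact ⟨h1, h2, rfl⟩
    · rintro ⟨h1, h2, rfl⟩
      exact ⟨i, j, ⟨h1, h2⟩, rfl, rfl, rfl⟩
  have hG : ∀ g, g ∈ G ↔ SpecialPoint (x' g.1) ∧ g.2 = x' g.1 := by
    rintro ⟨i, c⟩
    simp only [G, Finset.mem_image, Finset.mem_filter, Finset.mem_univ, true_and, Prod.mk.injEq]
    constructor
    · rintro ⟨a, h1, rfl, rfl⟩
      exact ⟨h1, rfl⟩
    · rintro ⟨h1, rfl⟩
      exact ⟨i, h1, rfl, rfl⟩
  refine ⟨cl K x', ⟨E, G, ?_, ?_, ?_⟩, cl_subset_iff.2 h1, ?_⟩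
  · intro e he
    rw [hE] at he
    exact ⟨he.1, by rw [he.2.2]; exact hN0 _ _⟩
  · intro g hg
    rw [hG] at hg
    rw [hg.2]
    exact hg.1
  · refine ⟨(hI ι K hK x').1, ?_, ?_⟩
    · intro y hy
      have hrel := hS.2.2.1 ι K hK x' y hy
      refine ⟨fun e he => ?_, fun g hg => ?_⟩
      · rw [hE] at he
        rw [he.2.2]
        exact hrel.1 _ _ _ (hN0 _ _) (hN _ _ he.2.1)
      · rw [hG] at hg
        rw [hg.2]
        exact hrel.2 _ hg.1
    · intro B hB hBZ hSB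
      refine (irr_dim_mono hA hI hD (hI ι K hK x').1 hB hSB).2 ?_
      have := hK.1
      obtain ⟨K', hK', -, ⟨b, rfl⟩, -⟩ := exists_def2 hD hB hB K (Set.to_countable _)
      rw [(hI ι K' hK' b).2, (hI ι K hK x').2, h2, ← h3]
      have hb := hBZ (self_mem_cl b)
      have h6 : sd b ≤ sd x' := by
        refine sd_le_of ?_ ?_
        · intro i hi
          have h7 := hb.2 (i, x' i) ((hG _).2 ⟨hi, rfl⟩)
          dsimp only at h7
          rw [h7]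
          exact hi
        · intro i j hij _ _ h
          exact ⟨N i j, hN0 _ _, hb.1 (i, j, N i j) ((hE _).2 ⟨hij, h, rfl⟩)⟩
      exact_mod_cast (hS.1 ι K' hK' b).trans h6
  · rw [(hI ι K hK x').2, h2]

/-- special subvarieties have at least the special dimension of their points -/
theorem sd_le_dim (hI : A_IRR) (hD : A_DEF) (hS : SF) {ι : Type}
    [Finite ι] {S : Set (ι → ℂ)} (hSp : Special S) {x : ι → ℂ} (hx : x ∈ S) :
    ((sd x : ℕ) : WithBot ℕ∞) ≤ dim S := by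
  obtain ⟨E, G, hE, hG, hirr, hSZ, hmax⟩ := hSp
  obtain ⟨K, hK, -, ⟨b, rfl⟩, -⟩ := exists_def2 hD hirr hirr ∅ Set.countable_empty
  obtain ⟨b', h1, h2, h3, h4, h5⟩ := hS.2.2.2.2.2 ι K hK b
  have hb := hSZ (self_mem_cl b)
  have h6 : cl K b = cl K b' := by
    refine hmax _ (hI ι K hK b').1 ?_ (cl_subset_iff.2 h1)
    intro y hy
    have hrel := hS.2.2.1 ι K hK b' y hy
    refine ⟨fun e he => hrel.1 _ _ _ (hE e he).2 (h4 _ _ _ (hE e he).2 (hb.1 e he)),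
      fun g hg => ?_⟩
    have h7 : b g.1 = g.2 := hb.2 g hg
    have h8 : SpecialPoint (b g.1) := by
      rw [h7]
      exact hG g hg
    have h9 := h5 g.1 h8
    rw [hrel.2 g.1 (by rw [h9]; exact h8), h9, h7]
  rw [h6, (hI ι K hK b').2, h2]
  exact_mod_cast (hS.2.1 ι K hK b x hx).1

/-- the maximal atypical subvarieties of `V` are the maximal subvarieties of defect less than
`n - dim V` -/
theorem maximal_iff (hA : AF) (hI : A_IRR) (hD : A_DEF) {ι : Type} [Finite ι] {V : Set (ι → ℂ)}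
    {v : ℕ} (hv : dim V = (v : ℕ)) (hvn : v ≤ Nat.card ι) (A : Set (ι → ℂ)) :
    (Atypical V A ∧ ∀ B, Atypical V B → A ⊆ B → A = B) ↔
      (Small V (Nat.card ι - v) A ∧ ∀ B, Small V (Nat.card ι - v) B → A ⊆ B → A = B) := by
  obtain ⟨m, hm⟩ := Nat.exists_eq_add_of_le hvn
  have hm' : Nat.card ι - v = m := by omega
  have key : ∀ a s : WithBot ℕ∞, (∃ n : ℕ, a = (n : ℕ)) → (∃ n : ℕ, s = (n : ℕ)) →
      (dim V + s < a + (Nat.card ι : ℕ) ↔ s < a + ((Nat.card ι - v : ℕ) : ℕ)) := by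
    rintro _ _ ⟨a, rfl⟩ ⟨s, rfl⟩
    rw [hv, hm', hm]
    have e1 : ((v : ℕ) : WithBot ℕ∞) + ((s : ℕ) : WithBot ℕ∞) <
        ((a : ℕ) : WithBot ℕ∞) + ((v + m : ℕ) : WithBot ℕ∞) ↔ v + s < a + (v + m) := by
      exact_mod_cast Iff.rfl
    have e2 : ((s : ℕ) : WithBot ℕ∞) < ((a : ℕ) : WithBot ℕ∞) + ((m : ℕ) : WithBot ℕ∞) ↔
        s < a + m := by
      exact_mod_cast Iff.rfl
    rw [e1, e2]
    omega
  have h1 : ∀ A, Atypical V A → Small V (Nat.card ι - v) A := by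
    rintro A ⟨S, hS, hAS, hlt⟩
    refine ⟨hAS.1, hAS.2.1.trans Set.inter_subset_left, S, hS,
      hAS.2.1.trans Set.inter_subset_right, ?_⟩
    obtain ⟨E, G, _, _, hc⟩ := hS
    exact (key _ _ (irr_dim_nat hI hD hAS.1) (irr_dim_nat hI hD hc.1)).1 hlt
  have h2 : ∀ A, Small V (Nat.card ι - v) A → ∃ B, Atypical V B ∧ A ⊆ B := by
    rintro A ⟨hirr, hAV, S, hS, hAS, hlt⟩
    obtain ⟨B, hB, hAB⟩ := exists_component hA hI hD hirr (Set.subset_inter hAV hAS)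
    refine ⟨B, ⟨S, hS, hB, ?_⟩, hAB⟩
    obtain ⟨E, G, _, _, hc⟩ := id hS
    rw [key _ _ (irr_dim_nat hI hD hB.1) (irr_dim_nat hI hD hc.1)]
    refine hlt.trans_le ?_
    gcongr
    exact (irr_dim_mono hA hI hD hirr hB.1 hAB).1
  constructor
  · rintro ⟨h3, h4⟩
    refine ⟨h1 A h3, fun B hB hAB => ?_⟩
    obtain ⟨B', hB', hBB'⟩ := h2 B hB
    have h5 := h4 B' hB' (hAB.trans hBB')
    exact Set.Subset.antisymm hAB (h5 ▸ hBB')
  · rintro ⟨h3, h4⟩
    obtain ⟨A', hA', hAA'⟩ := h2 A h3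
    have h5 := h4 A' (h1 A' hA') hAA'
    subst h5
    exact ⟨hA', fun B hB hAB => h4 B (h1 B hB) hAB⟩

/-- The Zilber-Pink conjecture in terms of the defect. -/
theorem zp_iff (hA : AF) (hI : A_IRR) (hD : A_DEF) {ι : Type} [Finite ι] {V : Set (ι → ℂ)}
    {v : ℕ} (hv : dim V = (v : ℕ)) (hvn : v ≤ Nat.card ι) :
    ZilberPink V ↔ FiniteDefect V (Nat.card ι - v) := by
  unfold ZilberPink FiniteDefect
  have h : {A : Set (ι → ℂ) | Atypical V A ∧ ∀ B, Atypical V B → A ⊆ B → A = B} =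
      {A : Set (ι → ℂ) | Small V (Nat.card ι - v) A ∧
        ∀ B, Small V (Nat.card ι - v) B → A ⊆ B → A = B} :=
    Set.ext fun A => maximal_iff hA hI hD hv hvn A
  rw [h]

end Pool.Agent.W2helper42.HL
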