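import Pool.Agent.W2helper42.HL.Lin
import Pool.Agent.W2helper42.HL.RMain
import Pool.Agent.W2helper54.HL.RLam
import Pool.Agent.W2helper76.HL.RSq

/-!
Project HL: the theorem, from the facts on `j`, on transcendence degrees and on `sd`.
-/

set_option autoImplicit false

namespace Pool.Agent.W2helper42.HL

open UpperHalfPlane H294ZP MvPolynomial

theorem Over.sum {ι σ : Type} {k : Subfield ℂ} (s : Finset σ) {f : σ → MvPolynomial ι ℂ}
    (h : ∀ i ∈ s, Over k (f i)) : Over k (∑ i ∈ s, f i) := by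
  intro m
  rw [coeff_sum]
  exact Subfield.sum_mem k fun i hi => h i hi m

/-- from linear subspaces to all closed sets -/
theorem fd_of_lin (hJ : JF) (hA : AF) (hI : A_IRR) (hD : A_DEF) (hS : SF) (k : Subfield ℂ)
    (hk : ∀ z : ℂ, IsAlgebraic ℚ z → z ∈ k)
    (hZP : ∀ (ι : Type) [Finite ι] (m : ℕ) (Λ : Set (ι → ℂ)), LinearOver k m Λ → Λ.Nonempty →
      ZilberPink Λ) (ι : Type) [Finite ι] (C : Set (ι → ℂ)) (d : ℕ) (hC : ClosedOver k C) :
    FiniteDefect C d := by
  obtain ⟨J, f, hf, rfl⟩ := hC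
  have hR := r_main hJ hA hS
  obtain ⟨β, γ, hH⟩ := hJ.2.2
  have hsq := Pool.Agent.W2helper76.HL.r_sq hJ hA hS hR β γ hH
  have hmain := Pool.Agent.W2helper55.HL.c_main β γ hsq k (hk _ hH.1) (hk _ hH.2.1)
    fun ι _ m C hC => lin_ev hA hI hD hS k hZP ι m C hC
  refine finite_of_ev hA hI hD hS (evC_of_eqs f) ?_
  refine Pool.Agent.W2helper54.HL.r_lam hJ hA hS hR ι J d f ?_
  obtain ⟨q, hq⟩ := Pool.Agent.W2helper55.HL.c_poly k (ι ⊕ (Fin d × Fin J)) d
    (fun i => ∑ j, X (Sum.inr (i, j)) * rename Sum.inl (f j)) (by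
      intro i
      refine Over.sum _ fun j _ => ?_
      intro n
      classical
      rw [coeff_X_mul']
      split_ifs
      · by_cases hn : ∃ u, Finsupp.mapDomain Sum.inl u = n - Finsupp.single (Sum.inr (i, j)) 1
        · obtain ⟨u, hu⟩ := hn
          rw [← hu, coeff_rename_mapDomain _ Sum.inl_injective]
          exact hf j u
        · rw [coeff_rename_eq_zero]
          · exact k.zero_mem
          · intro u hu
            exact absurd ⟨u, hu⟩ hn
      · exact k.zero_mem)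
  have h1 := hmain q _ d _ hq
  have h2 : {z : ι ⊕ (Fin d × Fin J) → ℂ | ∀ i : Fin d,
      ∑ j, z (Sum.inr (i, j)) * eval (fun s => z (Sum.inl s)) (f j) = 0} =
      {z : ι ⊕ (Fin d × Fin J) → ℂ | ∀ i : Fin d,
        eval z (∑ j, X (Sum.inr (i, j)) * rename Sum.inl (f j)) = 0} := by
    ext z
    refine forall_congr' fun i => ?_
    rw [map_sum]
    refine Eq.congr (Finset.sum_congr rfl fun j _ => ?_) rfl
    rw [map_mul, eval_X, eval_rename]
    rfl
  rw [h2]
  exact h1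

/-- the theorem, from the pieces -/
theorem tfae (hJ : JF) (hA : AF) (hI : A_IRR) (hD : A_DEF) (hS : SF) (k : Subfield ℂ)
    (hk : ∀ z : ℂ, IsAlgebraic ℚ z → z ∈ k) :
    List.TFAE [
      ∀ (ι : Type) [Finite ι] (V : Set (ι → ℂ)), Irr V → ClosedOver k V → ZilberPink V,
      ∀ (ι : Type) [Finite ι] (m : ℕ) (Λ : Set (ι → ℂ)), LinearOver k m Λ → Λ.Nonempty →
        ZilberPink Λ,
      ∀ (ι : Type) [Finite ι] (C : Set (ι → ℂ)) (d : ℕ), ClosedOver k C → FiniteDefect C d] := by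
  tfae_have 1 → 2 := by
    rintro h ι _ m Λ ⟨L, hL, rfl⟩ ⟨a, ha⟩
    exact h ι _ (irr_linear (fun i => (hL i).1) ha) ⟨m, L, fun i => (hL i).2, rfl⟩
  tfae_have 2 → 3 := by
    intro h ι _ C d hC
    exact fd_of_lin hJ hA hI hD hS k hk h ι C d hC
  tfae_have 3 → 1 := by
    intro h ι _ V hV hVk
    obtain ⟨v, hv⟩ := irr_dim_nat hI hD hV
    have hvn : v ≤ Nat.card ι := by
      have := irr_dim_le hA hI hD hV
      rw [hv] at this
      exact_mod_cast this
    exact (zp_iff hA hI hD hv hvn).2 (h ι V _ hVk)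
  tfae_finish

end Pool.Agent.W2helper42.HL
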