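import Pool.Agent.W2helper42.HL.Stm2
import Pool.Agent.W2helper55.HL.Cp

/-!
Project HL: linear equations with rational coefficients as equations between sums.
-/

set_option autoImplicit false

namespace Pool.Agent.W2helper42.HL

open UpperHalfPlane H294ZP MvPolynomial

theorem exists_lists {κ : Type} [Fintype κ] (d : κ → ℤ) (hd : ∑ s, d s = 0) :
    ∃ (r : ℕ) (i j : Fin r → κ), ∀ y : κ → ℂ,
      ∑ l, y (i l) - ∑ l, y (j l) = ∑ s, (d s : ℂ) * y s := by
  classical
  let P := Σ s : κ, Fin (d s).toNat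
  let N := Σ s : κ, Fin (-d s).toNat
  have hP : Fintype.card P = ∑ s, (d s).toNat := by
    simp [P, Fintype.card_sigma]
  have hN : Fintype.card N = ∑ s, (-d s).toNat := by
    simp [N, Fintype.card_sigma]
  have hPN : Fintype.card P = Fintype.card N := by
    have h1 : ((Fintype.card P : ℕ) : ℤ) - (Fintype.card N : ℕ) = 0 := by
      rw [hP, hN]
      push_cast
      rw [← Finset.sum_sub_distrib, ← hd]
      refine Finset.sum_congr rfl fun s _ => ?_
      omega
    omega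
  let eP : P ≃ Fin (Fintype.card P) := Fintype.equivFin P
  let eN : N ≃ Fin (Fintype.card P) := (Fintype.equivFin N).trans (finCongr hPN.symm)
  refine ⟨Fintype.card P, fun l => (eP.symm l).1, fun l => (eN.symm l).1, fun y => ?_⟩
  have h1 : ∑ l, y (eP.symm l).1 = ∑ s, ((d s).toNat : ℂ) * y s := by
    rw [Equiv.sum_comp eP.symm (fun p : P => y p.1), Fintype.sum_sigma]
    refine Finset.sum_congr rfl fun s _ => ?_
    simp
  have h2 : ∑ l, y (eN.symm l).1 = ∑ s, ((-d s).toNat : ℂ) * y s := by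
    rw [Equiv.sum_comp eN.symm (fun p : N => y p.1), Fintype.sum_sigma]
    refine Finset.sum_congr rfl fun s _ => ?_
    simp
  rw [h1, h2, ← Finset.sum_sub_distrib]
  refine Finset.sum_congr rfl fun s _ => ?_
  rw [← sub_mul]
  congr 1
  have h3 : (((d s).toNat : ℤ) - ((-d s).toNat : ℤ)) = d s := by omega
  have h4 : ((((d s).toNat : ℤ) - ((-d s).toNat : ℤ) : ℤ) : ℂ) = (d s : ℂ) := by rw [h3]
  push_cast at h4
  exact h4

theorem n_lin : N_LIN := by
  classical
  intro ι _ L hL hO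
  have := Fintype.ofFinite ι
  have h0 : ∀ m, ∃ c : ℚ, (c : ℂ) = L.coeff m := by
    intro m
    have h1 := hO m
    rw [Subfield.bot_eq_of_charZero] at h1
    obtain ⟨c, hc⟩ := h1
    exact ⟨c, by rw [← hc]; rfl⟩
  choose c hc using h0
  -- common denominator
  let D : ℕ := (c 0).den * ∏ i, (c (Finsupp.single i 1)).den
  have hD0 : D ≠ 0 := by
    refine mul_ne_zero (Rat.den_nz _) (Finset.prod_ne_zero_iff.2 fun i _ => Rat.den_nz _)
  have hint : ∀ q : ℚ, q.den ∣ D → ∃ n : ℤ, (n : ℂ) = D * (q : ℂ) := by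
    rintro q ⟨k, hk⟩
    refine ⟨q.num * k, ?_⟩
    have h1 : (q : ℂ) * q.den = q.num := by
      have := Rat.mul_den_eq_num q
      exact_mod_cast this
    rw [hk]
    push_cast
    linear_combination (-(k:ℂ)) * h1
  obtain ⟨n0, hn0⟩ := hint (c 0) (Dvd.intro _ rfl)
  have h1 : ∀ i, ∃ n : ℤ, (n : ℂ) = D * (c (Finsupp.single i 1) : ℂ) := fun i =>
    hint _ (Dvd.dvd.mul_left (Finset.dvd_prod_of_mem _ (Finset.mem_univ i)) _)
  choose n hn using h1
  let d0 : ι ⊕ Fin 2 → ℤ := Sum.elim (fun i => 1728 * n i) ![0, n0]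
  let d : ι ⊕ Fin 2 → ℤ := Sum.elim (fun i => 1728 * n i) ![- (∑ i, 1728 * n i + n0), n0]
  have hd : ∑ s, d s = 0 := by
    rw [Fintype.sum_sum_type, Fin.sum_univ_two]
    simp only [d, Sum.elim_inl, Sum.elim_inr]
    simp
  obtain ⟨r, i, j, hij⟩ := exists_lists d hd
  refine ⟨r, i, j, fun x => ?_⟩
  rw [← sub_eq_zero (a := ∑ l, _), hij, Fintype.sum_sum_type, Fin.sum_univ_two]
  have h2 : eval x L = (c 0 : ℂ) + ∑ i, (c (Finsupp.single i 1) : ℂ) * x i := by
    conv_lhs => rw [Pool.Agent.W2helper55.HL.form1 hL]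
    simp [hc]
  have h3 : ∑ s : ι, (d (Sum.inl s) : ℂ) * (Sum.elim x ![0, 1728] : ι ⊕ Fin 2 → ℂ) (Sum.inl s) +
      ((d (Sum.inr 0) : ℂ) * (Sum.elim x ![0, 1728] : ι ⊕ Fin 2 → ℂ) (Sum.inr 0) +
        (d (Sum.inr 1) : ℂ) * (Sum.elim x ![0, 1728] : ι ⊕ Fin 2 → ℂ) (Sum.inr 1)) =
      1728 * D * eval x L := by
    rw [h2]
    simp only [d, Sum.elim_inl, Sum.elim_inr, Matrix.cons_val_zero, Matrix.cons_val_one, mul_zero,
      zero_add]
    push_cast
    rw [hn0, mul_add, Finset.mul_sum, add_comm]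
    congr 1
    · ring
    · refine Finset.sum_congr rfl fun s _ => ?_
      rw [hn s]
      ring
  rw [h3]
  have hD1 : (1728 * D : ℂ) ≠ 0 := mul_ne_zero (by norm_num) (by exact_mod_cast hD0)
  constructor
  · intro h; rw [h, mul_zero]
  · intro h
    exact (mul_eq_zero.1 h).resolve_left hD1

end Pool.Agent.W2helper42.HL
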