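import Pool.Agent.W2helper42.HL.DescB

/-!
Project HL: points with given algebraically independent coordinates.
-/

set_option autoImplicit false

namespace Pool.Agent.W2helper42.HL

open UpperHalfPlane H294ZP MvPolynomial

/-- change of a transcendence basis -/
theorem exists_real {K : Subfield ℂ} {m : ℕ} {T T' : Fin m → ℂ} (hT : AlgebraicIndependent K T)
    (hT' : AlgebraicIndependent K T') {κ : Type} (w : κ → ℂ)
    (hw : ∀ i, IsAlgebraic (fld K T') (w i)) :
    ∃ w' : κ → ℂ, ∀ f : MvPolynomial (Fin m ⊕ κ) K,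
      aeval (Sum.elim T' w) f = 0 ↔ aeval (Sum.elim T w') f = 0 := by
  classical
  let φ : fld K T' →ₐ[K] ℂ := (fld K T).val.comp
    (hT.aevalEquivField.toAlgHom.comp hT'.aevalEquivField.symm.toAlgHom)
  have hφ : ∀ i (h : T' i ∈ fld K T'), φ ⟨T' i, h⟩ = T i := by
    intro i h
    have h1 : hT'.aevalEquivField.symm ⟨T' i, h⟩ = algebraMap _ _ (X i : MvPolynomial (Fin m) K) := by
      rw [AlgEquiv.symm_apply_eq]
      apply Subtype.ext
      rw [AlgebraicIndependent.aevalEquivField_algebraMap_apply_coe, aeval_X]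
    show ((hT.aevalEquivField (hT'.aevalEquivField.symm ⟨T' i, h⟩) : fld K T) : ℂ) = T i
    rw [h1, AlgebraicIndependent.aevalEquivField_algebraMap_apply_coe, aeval_X]
  obtain ⟨ψ, hψ⟩ := IntermediateField.exists_algHom_adjoin_of_splits' (S := Set.range w) φ
    (by
      rintro _ ⟨i, rfl⟩
      exact ⟨(hw i).isIntegral, IsAlgClosed.splits _⟩)
  have hmem : ∀ i, w i ∈ IntermediateField.adjoin (fld K T') (Set.range w) := fun i =>
    IntermediateField.subset_adjoin _ _ ⟨i, rfl⟩
  have hmem' : ∀ i, T' i ∈ IntermediateField.adjoin (fld K T') (Set.range w) := fun i =>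
    (IntermediateField.adjoin (fld K T') (Set.range w)).algebraMap_mem
      (⟨T' i, IntermediateField.subset_adjoin _ _ ⟨i, rfl⟩⟩ : fld K T')
  refine ⟨fun i => ψ ⟨w i, hmem i⟩, fun f => ?_⟩
  have hT2 : ∀ i, ψ ⟨T' i, hmem' i⟩ = T i := by
    intro i
    have h1 := DFunLike.congr_fun hψ (⟨T' i, IntermediateField.subset_adjoin _ _ ⟨i, rfl⟩⟩ : fld K T')
    rw [hφ] at h1
    exact h1
  let u : Fin m ⊕ κ → IntermediateField.adjoin (fld K T') (Set.range w) :=
    Sum.elim (fun i => ⟨T' i, hmem' i⟩) fun i => ⟨w i, hmem i⟩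
  have e1 : aeval (Sum.elim T' w) f =
      ((aeval u f : IntermediateField.adjoin (fld K T') (Set.range w)) : ℂ) := by
    have h2 : Sum.elim T' w = fun s =>
        ((IntermediateField.adjoin (fld K T') (Set.range w)).val.restrictScalars K) (u s) := by
      funext s
      rcases s with s | s <;> rfl
    rw [h2]
    exact (comp_aeval_apply (u)
      ((IntermediateField.adjoin (fld K T') (Set.range w)).val.restrictScalars K) f).symm
  have e2 : aeval (Sum.elim T fun i => ψ ⟨w i, hmem i⟩) f = ψ (aeval u f) := by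
    have h2 : (Sum.elim T fun i => ψ ⟨w i, hmem i⟩) = fun s => ψ (u s) := by
      funext s
      rcases s with s | s
      · exact (hT2 s).symm
      · rfl
    rw [h2]
    exact (comp_aeval_apply u ψ f).symm
  rw [e1, e2]
  constructor
  · intro h
    have : aeval u f = 0 := Subtype.ext h
    rw [this, map_zero]
  · intro h
    have : aeval u f = 0 := (map_eq_zero_iff ψ ψ.toRingHom.injective).1 h
    rw [this]
    rfl

end Pool.Agent.W2helper42.HL
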