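import Pool.Agent.W2helper42.HL.Final
import Pool.Agent.W2helper42.HL.Real

/-!
Project HL: reduction to atypical points.
-/

set_option autoImplicit false

namespace Pool.Agent.W2helper42.HL

open UpperHalfPlane H294ZP MvPolynomial
open Pool.Agent.W2helper76.HL (mem_fld)

/-- a transcendence basis among the coordinates -/
theorem exists_basis' {κ : Type} [Finite κ] (F : Subfield ℂ) (t : κ → ℂ) :
    ∃ s : Finset κ, AlgebraicIndepOn F t (s : Set κ) ∧
      ∀ i, IsAlgebraic (Algebra.adjoin F (t '' (s : Set κ))) (t i) := by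
  classical
  have := Fintype.ofFinite κ
  obtain ⟨s, hs, hmax⟩ := (measure fun s : Finset κ => Fintype.card κ - s.card).wf.has_min
    {s | AlgebraicIndepOn F t (s : Set κ)} ⟨∅, by
      show AlgebraicIndepOn F t ((∅ : Finset κ) : Set κ)
      rw [Finset.coe_empty]
      have : IsEmpty (∅ : Set κ) := inferInstance
      exact algebraicIndependent_empty_type_iff.2 (algebraMap F ℂ).injective⟩
  have hs' : AlgebraicIndepOn F t (s : Set κ) := hs
  refine ⟨s, hs', fun i => ?_⟩
  by_cases hi : i ∈ s
  · exact isAlgebraic_algebraMap (⟨t i, Algebra.subset_adjoin ⟨i, hi, rfl⟩⟩ :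
      Algebra.adjoin F (t '' (s : Set κ)))
  · by_contra hcon
    have h1 : AlgebraicIndepOn F t (insert i (s : Set κ)) := hs'.insert hcon
    rw [← Finset.coe_insert] at h1
    have h2 := hmax (insert i s) h1
    have h3 : ¬ (Fintype.card κ - (insert i s).card < Fintype.card κ - s.card) := h2
    rw [Finset.card_insert_of_notMem hi] at h3
    have h4 := Finset.card_le_univ (insert i s)
    rw [Finset.card_insert_of_notMem hi] at h4
    omega

theorem card_le_td {K : Subfield ℂ} {r : ℕ} {ζ : Type} [Finite ζ] {τ : Fin r → ℂ}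
    (hτ : AlgebraicIndependent K τ) (z : ζ → ℂ) (h1 : ∀ i, τ i ∈ fld K z) : r ≤ td K z := by
  have h := td_ge af.2.2.2.1 (le_top : K ≤ ⊤) hτ (fun _ => trivial) z z h1 fun j => mem_fld K z j
  omega

theorem td_zero {K : Subfield ℂ} (hK : Gd K) {ζ : Type} [Finite ζ] {y : ζ → ℂ}
    (h : td K y = 0) (s : ζ) : y s ∈ K := by
  by_contra hcon
  have h1 : Transcendental K (y s) := fun ha => hcon (mem_of_algebraic hK ha)
  have h2 : AlgebraicIndependent K (fun _ : Fin 1 => y s) :=
    algebraicIndependent_unique_type_iff.2 h1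
  have h3 := card_le_td h2 y fun _ => mem_fld K y s
  omega

/-- a specialization to or from a point with coordinates in `K` is trivial -/
theorem eq_of_sp {K : Subfield ℂ} {ι : Type} {x y : ι → ℂ} (hx : ∀ s, x s ∈ K) (h : Sp K x y) :
    y = x := by
  funext s
  have := h (X s - C ⟨x s, hx s⟩) (by
    simp only [map_sub, aeval_X, aeval_C]
    exact sub_self _)
  simp only [map_sub, aeval_X, aeval_C] at this
  exact sub_eq_zero.1 this

theorem cl_of_mem {K : Subfield ℂ} {ι : Type} {x : ι → ℂ} (hx : ∀ s, x s ∈ K) :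
    cl K x = {x} := by
  ext y
  constructor
  · intro h
    exact eq_of_sp hx h
  · rintro rfl
    exact Sp.refl _

/-- maximality does not depend on the field -/
theorem max_of_mx {ι : Type} [Finite ι] {K : Subfield ℂ} (hK : Gd K) {C : Set (ι → ℂ)}
    (hC : ClK K C) {d : ℕ} {x : ι → ℂ} (hx : Mx K C d x) :
    Small C d (cl K x) ∧ ∀ B, Small C d B → cl K x ⊆ B → cl K x = B := by
  have hI := a_irr'
  have hD := a_def'
  have := hK.1
  refine ⟨small_cl af hI hD sf hK hC hx.1, fun B hB hxB => ?_⟩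
  refine Set.Subset.antisymm hxB ?_
  obtain ⟨K', hK', hKK, ⟨z, rfl⟩, -⟩ := exists_def2 hD hB.1 hB.1 K (Set.to_countable _)
  have h1 := dk_of_small hI hD sf hK' hB
  have h2 : Dk K C d z := ⟨h1.1, by
    have := h1.2
    have := td_anti af hI hD hK hK' hKK z
    omega⟩
  have h3 : Sp K z x := by
    have : x ∈ cl K' z := hxB (self_mem_cl x)
    exact Sp.mono hKK this
  have h4 := hx.2 z h2 h3
  intro y hy
  exact h4.trans (Sp.mono hKK hy)

/-- the number of equations -/
theorem le_dim_add {ι : Type} [Finite ι] {m : ℕ} {L : Fin m → MvPolynomial ι ℂ}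
    {v : ℕ} (hirr : Irr {x : ι → ℂ | ∀ i, eval x (L i) = 0})
    (hv : dim {x : ι → ℂ | ∀ i, eval x (L i) = 0} = (v : ℕ)) : Nat.card ι ≤ v + m := by
  obtain ⟨K, hK, hKS, ⟨x, hx⟩, -⟩ := exists_def2 a_def' hirr hirr
    (Set.range fun p : Fin m × (ι →₀ ℕ) => (L p.1).coeff p.2) (coeffs_countable L)
  have htd : td K x = v := by
    have h1 := (a_irr' ι K hK x).2
    rw [← hx, hv] at h1
    exact_mod_cast h1.symm
  choose g hg using fun j => lift_mv (K := K) (L j) fun n => hKS ⟨(j, n), rfl⟩
  have hxC : x ∈ {x : ι → ℂ | ∀ i, eval x (L i) = 0} := hx ▸ self_mem_cl x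
  obtain ⟨b, h1, h2, h3⟩ := le_td_add af hK g fun i => (hg i x).trans (hxC i)
  have h4 : b ∈ cl K x := by
    rw [← hx]
    intro i
    rw [← hg i]
    exact h2 i
  have h5 := (af.1 ι K x b h4).1
  omega

/-- the subspaces -/
def QB {ι : Type} (E : List (ι × ι × ι × ι)) (B : Finset ι) (c : ι → ℂ) : Set (ι → ℂ) :=
  {x | x ∈ QSet E ∧ ∀ s ∈ B, x s = c s}

theorem qb_eqs {ι : Type} (E : List (ι × ι × ι × ι)) (B : Finset ι) (c : ι → ℂ) :
    ∃ L : Fin (E.length + B.card) → MvPolynomial ι ℂ, (∀ i, (L i).totalDegree ≤ 1) ∧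
      QB E B c = {x | ∀ i, eval x (L i) = 0} := by
  classical
  obtain ⟨L, hL, hE⟩ := linear_qset E
  let L₂ : Fin B.card → MvPolynomial ι ℂ := fun i =>
    X (B.equivFin.symm i : ι) - C (c (B.equivFin.symm i : ι))
  obtain ⟨A, hA1, hA2⟩ : ∃ A : Fin (E.length + B.card) → MvPolynomial ι ℂ,
      (∀ i, A (Fin.castAdd _ i) = L i) ∧ ∀ i, A (Fin.natAdd _ i) = L₂ i :=
    ⟨Fin.addCases L L₂, fun i => Fin.addCases_left _, fun i => Fin.addCases_right _⟩
  refine ⟨A, fun i => ?_, ?_⟩
  · induction i using Fin.addCases with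
    | left i => rw [hA1]; exact (hL i).1
    | right i =>
      rw [hA2]
      refine (totalDegree_sub _ _).trans (max_le (totalDegree_X _).le ?_)
      rw [totalDegree_C]
      exact Nat.zero_le _
  · ext x
    constructor
    · rintro ⟨h1, h2⟩ i
      rw [hE] at h1
      induction i using Fin.addCases with
      | left i => rw [hA1]; exact h1 i
      | right i =>
        rw [hA2]
        simp only [L₂, map_sub, eval_X, eval_C]
        exact sub_eq_zero.2 (h2 _ (B.equivFin.symm i).2)
    · intro h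
      refine ⟨?_, fun s hs => ?_⟩
      · rw [hE]
        intro i
        have := h (Fin.castAdd _ i)
        rwa [hA1] at this
      · have := h (Fin.natAdd _ (B.equivFin ⟨s, hs⟩))
        rw [hA2] at this
        simp only [L₂, map_sub, eval_X, eval_C, Equiv.symm_apply_apply] at this
        exact sub_eq_zero.1 this

/-- Zilber-Pink for points on the subspaces -/
def ZPpts : Prop := ∀ (ι : Type) [Finite ι] (E : List (ι × ι × ι × ι)) (B : Finset ι) (c : ι → ℂ),
  AlgebraicIndependent ℚ (fun s : B => c s) →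
  {A : Set (ι → ℂ) | (Atypical (QB E B c) A ∧ ∀ A', Atypical (QB E B c) A' → A ⊆ A' → A = A') ∧
    ∃ x, A = {x}}.Finite

theorem fd_of_pts (h : ZPpts) (ι : Type) [Finite ι] (E : List (ι × ι × ι × ι)) :
    FiniteDefect (QSet E) E.length := by
  classical
  have hI := a_irr'
  have hD := a_def'
  by_contra hinf
  have hinf' : {A : Set (ι → ℂ) | Small (QSet E) E.length A ∧
      ∀ B, Small (QSet E) E.length B → A ⊆ B → A = B}.Infinite := hinf
  let e := hinf'.natEmbedding
  obtain ⟨K, hK, -, hx⟩ := hD ι ∅ (fun i => (e i).1) Set.countable_empty fun i => (e i).2.1.1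
  choose x hx using hx
  obtain ⟨L₀, hL₀, hE₀⟩ := linear_qset E
  have hcl : ∀ K : Subfield ℂ, ClK K (QSet E) := fun K =>
    clK_of_closedOver (bot_le : (⊥ : Subfield ℂ) ≤ K) ⟨_, L₀, fun j => (hL₀ j).2, hE₀⟩
  have hMx : ∀ i, Mx K (QSet E) E.length (x i) := by
    intro i
    have h2 := (e i).2
    rw [hx i] at h2
    refine ⟨dk_of_small hI hD sf hK h2.1, fun y hy hyx => ?_⟩
    have h3 := h2.2 _ (small_cl af hI hD sf hK (hcl K) hy) (cl_subset_iff.2 hyx)
    exact cl_subset_iff.1 h3.symm.subset
  have hinj : ∀ i j, cl K (x i) = cl K (x j) → i = j := by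
    intro i j hij
    apply e.injective
    apply Subtype.ext
    rw [hx i, hx j, hij]
  -- the same transcendence basis for infinitely many points
  choose s hs halg using fun i => exists_basis' K (x i)
  obtain ⟨B, hB⟩ := Finite.exists_infinite_fiber s
  let J := s ⁻¹' {B}
  have hJ : ∀ j : J, s j = B := fun j => j.2
  let b : Fin B.card → ι := fun l => (B.equivFin.symm l : ι)
  have hind : ∀ j : J, AlgebraicIndependent K (x j ∘ b) := by
    intro j
    have h1 := hs j
    rw [hJ j] at h1
    exact AlgebraicIndependent.comp h1 (fun l => B.equivFin.symm l) B.equivFin.symm.injective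
  have hrange : ∀ j : J, x j '' (B : Set ι) = Set.range (x j ∘ b) := by
    intro j
    ext z
    constructor
    · rintro ⟨l, hl, rfl⟩
      exact ⟨B.equivFin ⟨l, hl⟩, by simp [b]⟩
    · rintro ⟨l, rfl⟩
      exact ⟨b l, (B.equivFin.symm l).2, rfl⟩
  have halg' : ∀ (j : J) l, IsAlgebraic (fld K (x j ∘ b)) (x j l) := by
    intro j l
    have h1 := halg j l
    rw [hJ j, hrange j] at h1
    have h3 : Algebra.adjoin K (Set.range (x j ∘ b)) ≤
        (IntermediateField.adjoin K (Set.range (x j ∘ b))).toSubalgebra :=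
      IntermediateField.algebra_adjoin_le_adjoin _ _
    obtain ⟨p, hp0, hp⟩ := h1
    refine ⟨p.map (Subalgebra.inclusion h3).toRingHom, ?_, ?_⟩
    · exact (Polynomial.map_ne_zero_iff (Subalgebra.inclusion_injective h3)).2 hp0
    · rw [Polynomial.aeval_def, Polynomial.eval₂_map]
      exact hp
  have htd : ∀ j : J, td K (x j) ≤ B.card := fun j =>
    af.2.2.2.1 ι K (x j) B.card (x j ∘ b) (halg' j)
  -- generic values
  obtain ⟨cB, hcB₀⟩ := af.2.2.2.2.2.2 ι K hK (fun _ => 0) B.card
  have hcB : AlgebraicIndependent K cB :=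
    hcB₀.restrictScalars (algebraMap K (fld K (fun _ : ι => (0 : ℂ)))).injective
  have := hK.1
  obtain ⟨K', hK', hKK, -⟩ := hD ι (K ∪ Set.range cB) (fun _ => cl K (fun _ => 0))
    ((Set.to_countable _).union (Set.countable_range _)) fun _ => (hI ι K hK _).1
  have hle : K ≤ K' := fun z hz => hKK (Or.inl hz)
  have hcK : ∀ l, cB l ∈ K' := fun l => hKK (Or.inr ⟨l, rfl⟩)
  let c : ι → ℂ := fun l => if hl : l ∈ B then cB (B.equivFin ⟨l, hl⟩) else 0
  have hc : ∀ l, c (b l) = cB l := by
    intro l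
    have h1 : b l ∈ B := (B.equivFin.symm l).2
    simp only [c, h1, dif_pos]
    congr 1
    exact B.equivFin.apply_symm_apply l
  have hreal : ∀ j : J, ∃ y : ι → ℂ, Sp K (x j) y ∧ Sp K y (x j) ∧ ∀ l, y (b l) = cB l := by
    intro j
    obtain ⟨y, hy⟩ := exists_real hcB (hind j) (x j) (halg' j)
    refine ⟨y, fun f hf => ?_, fun f hf => ?_, fun l => ?_⟩
    · have h1 := (hy (rename Sum.inr f)).1 (by rw [aeval_rename, Sum.elim_comp_inr]; exact hf)
      rwa [aeval_rename, Sum.elim_comp_inr] at h1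
    · have h1 := (hy (rename Sum.inr f)).2 (by rw [aeval_rename, Sum.elim_comp_inr]; exact hf)
      rwa [aeval_rename, Sum.elim_comp_inr] at h1
    · have h1 := (hy (X (Sum.inr (b l)) - X (Sum.inl l))).1 (by
        simp only [map_sub, aeval_X, Sum.elim_inl, Sum.elim_inr, Function.comp_apply, sub_self])
      simp only [map_sub, aeval_X, Sum.elim_inl, Sum.elim_inr] at h1
      exact sub_eq_zero.1 h1
  choose y hy1 hy2 hy3 using hreal
  have hV : ∀ z ∈ QB E B c, ∀ l, z (b l) = cB l := by
    intro z hz l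
    rw [← hc l]
    exact hz.2 _ (B.equivFin.symm l).2
  have htd' : ∀ z ∈ QB E B c, td K' z + B.card ≤ td K z := by
    intro z hz
    refine td_ge af.2.2.2.1 hle hcB hcK z z (fun l => ?_) fun l => mem_fld K z l
    rw [← hV z hz l]
    exact mem_fld K z (b l)
  have hyV : ∀ j, y j ∈ QB E B c := by
    intro j
    refine ⟨(hcl K).mem (hy1 j) (hMx j).1.1, fun l hl => ?_⟩
    have h1 := hy3 j (B.equivFin ⟨l, hl⟩)
    simp only [b, Equiv.symm_apply_apply] at h1
    rw [h1]
    simp only [c, hl, dif_pos]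
  have hytd : ∀ j, td K (y j) ≤ B.card := fun j => (af.1 ι K (x j) (y j) (hy1 j)).1.trans (htd j)
  have hyK : ∀ j l, y j l ∈ K' := by
    intro j
    refine td_zero hK' ?_
    have h1 := htd' (y j) (hyV j)
    have h2 := hytd j
    omega
  have hMx' : ∀ j, Mx K' (QB E B c) (E.length + B.card) (y j) := by
    intro j
    refine ⟨⟨hyV j, ?_⟩, fun z hz hzy => ?_⟩
    · have h1 : sd (y j) ≤ sd (x j) := (sf.2.1 ι K hK (x j) (y j) (hy1 j)).1
      have h2 := (hMx j).1.2
      have h3 := htd j
      omega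
    · have h1 := htd' z hz.1
      have h2 : Dk K (QSet E) E.length z := ⟨hz.1.1, by
        have := hz.2
        omega⟩
      have h3 : Sp K z (x j) := (Sp.mono hle hzy).trans (hy2 j)
      have h4 := (hMx j).2 z h2 h3
      have h5 := (af.1 ι K (x j) z h4).1
      have h6 := htd j
      have h7 : ∀ l, z l ∈ K' := td_zero hK' (by omega)
      rw [eq_of_sp h7 hzy]
      exact Sp.refl _
  obtain ⟨L, hL, hQB⟩ := qb_eqs E B c
  have hclQ : ClK K' (QB E B c) := by
    obtain ⟨F, hF⟩ := hcl K'
    refine ⟨F ∪ Set.range fun l : Fin B.card => X (b l) - C (⟨cB l, hcK l⟩ : K'), ?_⟩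
    ext z
    constructor
    · rintro hz f (hf | ⟨l, rfl⟩)
      · have h1 := hz.1
        rw [hF] at h1
        exact h1 f hf
      · simp only [map_sub, aeval_X, aeval_C]
        exact sub_eq_zero.2 (hV z hz l)
    · intro hz
      refine ⟨?_, fun l hl => ?_⟩
      · rw [hF]
        exact fun f hf => hz f (Or.inl hf)
      · have h1 := hz _ (Or.inr ⟨B.equivFin ⟨l, hl⟩, rfl⟩)
        simp only [map_sub, aeval_X, aeval_C, b, Equiv.symm_apply_apply] at h1
        have h2 := sub_eq_zero.1 h1
        rw [h2]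
        simp only [c, hl, dif_pos]
        rfl
  have hmax : ∀ j, Small (QB E B c) (E.length + B.card) {y j} ∧
      ∀ A, Small (QB E B c) (E.length + B.card) A → {y j} ⊆ A → {y j} = A := by
    intro j
    have h1 := max_of_mx hK' hclQ (hMx' j)
    rwa [cl_of_mem (hyK j)] at h1
  have hyinj : Function.Injective fun j : J => ({y j} : Set (ι → ℂ)) := by
    intro i j hij
    have h1 : y i = y j := Set.singleton_injective hij
    apply Subtype.ext
    apply hinj
    have h2 : Sp K (x i) (x j) := (hy1 i).trans (h1 ▸ hy2 j)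
    have h3 : Sp K (x j) (x i) := (hy1 j).trans (h1 ▸ hy2 i)
    exact cl_eq h2 h3
  have hJinf : Infinite J := hB
  -- the dimension
  obtain ⟨j₀⟩ : Nonempty J := inferInstance
  have hne := hyV j₀
  have hirr : Irr (QB E B c) := by
    rw [hQB] at hne ⊢
    exact irr_linear hL hne
  obtain ⟨v, hv⟩ := irr_dim_nat hI hD hirr
  have hvn : v ≤ Nat.card ι := by
    have := irr_dim_le af hI hD hirr
    rw [hv] at this
    exact_mod_cast this
  have hle2 : Nat.card ι ≤ v + (E.length + B.card) := by
    rw [hQB] at hirr hv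
    exact le_dim_add hirr hv
  by_cases heq : Nat.card ι - v = E.length + B.card
  · have hcQ : AlgebraicIndependent ℚ (fun s : B => c s) := by
      have g1 : AlgebraicIndependent ℚ cB :=
        AlgebraicIndependent.restrictScalars (K := K) (algebraMap ℚ K).injective hcB
      have g2 : AlgebraicIndependent ℚ (fun s : B => cB (B.equivFin s)) :=
        g1.comp _ B.equivFin.injective
      have g3 : (fun s : B => c s) = fun s : B => cB (B.equivFin s) := by
        funext s
        simp only [c, s.2, dif_pos]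
      rw [g3]
      exact g2
    refine Set.infinite_range_of_injective hyinj ((h ι E B c hcQ).subset ?_)
    rintro _ ⟨j, rfl⟩
    refine ⟨?_, y j, rfl⟩
    rw [maximal_iff af hI hD hv hvn, heq]
    exact hmax j
  · -- `V` itself is small
    have hsm : Small (QB E B c) (E.length + B.card) (QB E B c) := by
      obtain ⟨K₂, hK₂, hKK₂, ⟨g, hg⟩, -⟩ := exists_def2 hD hirr hirr K' (by
        have := hK'.1
        exact Set.to_countable _)
      have htdg : td K₂ g = v := by
        have h1 := (hI ι K₂ hK₂ g).2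
        rw [← hg, hv] at h1
        exact_mod_cast h1.symm
      have h1 : Dk K₂ (QB E B c) (E.length + B.card) g := by
        refine ⟨hg ▸ self_mem_cl g, ?_⟩
        have := sd_le_card g
        omega
      have hclQ₂ : ClK K₂ (QB E B c) := ⟨vI K₂ g, hg⟩
      have h2 := small_cl af hI hD sf hK₂ hclQ₂ h1
      rwa [← hg] at h2
    obtain ⟨i, j, hij⟩ := exists_pair_ne J
    apply hij
    apply hyinj
    show ({y i} : Set (ι → ℂ)) = {y j}
    rw [(hmax i).2 _ hsm (Set.singleton_subset_iff.2 (hyV i)),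
      (hmax j).2 _ hsm (Set.singleton_subset_iff.2 (hyV j))]

end Pool.Agent.W2helper42.HL
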