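import Pool.Agent.W2helper42.HL.Fin

/-!
# Project HL, second part: additive quadruples

Pieces for the normal form: the Zilber-Pink conjecture for `Y(1)^n` is equivalent to the
Zilber-Pink conjecture for the subspaces given by equations `x_a + x_b = x_c + x_d`.
(`EvC C` in `Fin.lean`: `C` is closed over all large countable algebraically closed fields.)
-/

set_option autoImplicit false

namespace Pool.Agent.W2helper42.HL

open UpperHalfPlane H294ZP MvPolynomial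

/-- the solutions of finitely many equations `x_a + x_b = x_c + x_d` -/
def QSet {ι : Type} (E : List (ι × ι × ι × ι)) : Set (ι → ℂ) :=
  {x | ∀ e ∈ E, x e.1 + x e.2.1 = x e.2.2.1 + x e.2.2.2}

/-- `0 = j(ρ)` and `1728 = j(i)` are special points -/
def N_SP : Prop := SpecialPoint 0 ∧ SpecialPoint 1728

/-- equations `x_u = c`, `c` special, are free -/
def N_SC : Prop := ∀ (ι : Type) [Finite ι] (C : Set (ι → ℂ)) (k : ℕ) (u : ι) (c : ℂ),
  SpecialPoint c → EvC C → Ev C k → Ev {x | x ∈ C ∧ x u = c} k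

/-- new coordinates which are special constants -/
def N_EXT : Prop := ∀ (ι ω : Type) [Finite ι] [Finite ω] (C : Set (ι → ℂ)) (k : ℕ) (w : ω → ℂ),
  (∀ s, SpecialPoint (w s)) →
  Ev {z : ι ⊕ ω → ℂ | (fun s => z (Sum.inl s)) ∈ C ∧ ∀ s, z (Sum.inr s) = w s} k → Ev C k

/-- the new coordinates for an equation `∑ x_(i l) = ∑ x_(j l)`: `p_l` (`l < r`), and `a_l`, `b_l`
(`l ≤ r`) -/
abbrev Om (r : ℕ) : Type := Fin r ⊕ (Fin 2 × Fin (r + 1))

/-- the chain of additive quadruples: `a_(l+1) + p_l = a_l + x_(i l)`,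
`b_(l+1) + p_l = b_l + x_(j l)` and `a_r + b_0 = b_r + a_0` -/
def Chain {ι : Type} {r : ℕ} (i j : Fin r → ι) (z : ι ⊕ Om r → ℂ) : Prop :=
  (∀ l : Fin r, z (Sum.inr (Sum.inr (0, l.succ))) + z (Sum.inr (Sum.inl l)) =
      z (Sum.inr (Sum.inr (0, l.castSucc))) + z (Sum.inl (i l))) ∧
  (∀ l : Fin r, z (Sum.inr (Sum.inr (1, l.succ))) + z (Sum.inr (Sum.inl l)) =
      z (Sum.inr (Sum.inr (1, l.castSucc))) + z (Sum.inl (j l))) ∧
  z (Sum.inr (Sum.inr (0, Fin.last r))) + z (Sum.inr (Sum.inr (1, 0))) =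
    z (Sum.inr (Sum.inr (1, Fin.last r))) + z (Sum.inr (Sum.inr (0, 0)))

/-- an equation `∑ x_(i l) = ∑ x_(j l)` by additive quadruples -/
def N_CH : Prop := ∀ (ι : Type) [Finite ι] (C : Set (ι → ℂ)) (k r : ℕ) (i j : Fin r → ι),
  EvC C →
  Ev {z : ι ⊕ Om r → ℂ | (fun s => z (Sum.inl s)) ∈ C ∧ Chain i j z} (k + 2 * r) →
  Ev {x | x ∈ C ∧ ∑ l, x (i l) = ∑ l, x (j l)} k

/-- linear equations with rational coefficients -/
def N_LIN : Prop := ∀ (ι : Type) [Finite ι] (L : MvPolynomial ι ℂ), L.totalDegree ≤ 1 →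
  Over ⊥ L → ∃ (r : ℕ) (i j : Fin r → ι ⊕ Fin 2), ∀ x : ι → ℂ,
    eval x L = 0 ↔ ∑ l, (Sum.elim x ![0, 1728] : ι ⊕ Fin 2 → ℂ) (i l) =
      ∑ l, (Sum.elim x ![0, 1728] : ι ⊕ Fin 2 → ℂ) (j l)

end Pool.Agent.W2helper42.HL
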